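import Mathlib

namespace Pool.Agent.H646
open Finset

/-- approximate midpoint concavity on `X` -/
def MidConc (X : Set ℤ) (τ : ℝ) (f : ℤ → ℝ) : Prop :=
  ∀ x ∈ X, ∀ i : ℤ, x + i ∈ X → x - i ∈ X → f (x + i) + f (x - i) ≤ 2 * f x + 2 * τ

/-- number of residue classes mod `p` occupied by the shifts `d j` -/
def rho {k : ℕ} (d : Fin k → ℕ) (p : ℕ) : ℕ := #(univ.image fun j => d j % p)

/-- primes in `(k, y]` -/
def PR (k y : ℕ) : Finset ℕ := {p ∈ Ioc k y | p.Prime}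

/-- `n / φ(n)` -/
noncomputable def rat (n : ℕ) : ℝ := (n : ℝ) / n.totient

/-- the `n`-th prime, 0-indexed -/
noncomputable abbrev P (n : ℕ) : ℕ := Nat.nth Nat.Prime n

/-- structured window: the primes `P (n₀ + a + q σ)`, `σ ∈ S`, are within `ε log N` of a linear pattern -/
def Str (W m k : ℕ) (ε : ℝ) (N n₀ : ℕ) : Prop :=
  ∃ (a q : ℕ) (S : Finset ℕ) (s b : ℝ), 1 ≤ q ∧ a + q * m ≤ W ∧ S ⊆ range (m + 1) ∧ #S = k + 3 ∧
    ∀ σ ∈ S, |(P (n₀ + a + q * σ) : ℝ) - (s * σ + b)| ≤ ε * Real.log N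

end Pool.Agent.H646
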