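import Mathlib
import Pool.Agent.H646.Defs

namespace Pool.Agent.H646.WalkM
open Finset


open Classical in
/-- future minima of value at most `t` -/
noncomputable def FA (s : ℕ → ℝ) (n : ℕ) (t : ℝ) : Finset ℕ :=
  (range (n + 1)).filter (fun j : ℕ => (∀ j' ∈ Icc j n, s j ≤ s j') ∧ s j ≤ t)

theorem mem_FA {s : ℕ → ℝ} {n : ℕ} {t : ℝ} {j : ℕ} :
    j ∈ FA s n t ↔ j < n + 1 ∧ (∀ j' ∈ Icc j n, s j ≤ s j') ∧ s j ≤ t := by
  unfold FA
  rw [mem_filter, mem_range]

/-- invariants for the number of future minima -/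
theorem futureMin_inv (s : ℕ → ℝ) (u : ℝ) (hu : 0 < u) (n : ℕ)
    (hs : ∀ j < n, s (j + 1) - s j ≤ u) :
    (∀ t ≤ s n, t - s 0 ≤ u * ((FA s n t).card : ℝ)) ∧
    s n - s 0 + u ≤ u * ((FA s n (s n)).card : ℝ) := by
  induction n with
  | zero =>
    constructor
    · intro t ht
      have : (0 : ℝ) ≤ u * ((FA s 0 t).card : ℝ) := by positivity
      linarith
    · have : FA s 0 (s 0) = {0} := by
        ext j
        rw [mem_FA, mem_singleton]
        constructor
        · rintro ⟨h, -⟩; omega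
        · rintro rfl
          refine ⟨by omega, ?_, le_rfl⟩
          intro j' hj'
          have := (mem_Icc.1 hj').2
          have : j' = 0 := by omega
          rw [this]
      rw [this]
      simp
  | succ n ih =>
    obtain ⟨i1, i2⟩ := ih (fun j hj => hs j (by omega))
    have hstep := hs n (by omega)
    have hsub : ∀ t t', t ≤ t' → t ≤ s (n + 1) → FA s n t ⊆ FA s (n + 1) t' := by
      intro t t' htt ht j hj
      rw [mem_FA] at hj ⊢
      obtain ⟨h1, h2, h3⟩ := hj
      refine ⟨by omega, ?_, h3.trans htt⟩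
      intro j' hj'
      rw [mem_Icc] at hj'
      rcases Nat.lt_or_ge n j' with h | h
      · have : j' = n + 1 := by omega
        rw [this]
        exact h3.trans ht
      · exact h2 j' (mem_Icc.2 ⟨hj'.1, h⟩)
    have hsub1 : ∀ t, t ≤ s (n + 1) → insert (n + 1) (FA s n t) ⊆ FA s (n + 1) (s (n + 1)) := by
      intro t ht j hj
      rw [mem_insert] at hj
      rcases hj with hj | hj
      · subst hj
        rw [mem_FA]
        refine ⟨by omega, ?_, le_rfl⟩
        intro j' hj'
        rw [mem_Icc] at hj'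
        have : j' = n + 1 := by omega
        rw [this]
      · exact hsub t (s (n + 1)) ht ht hj
    have hcard1 : ∀ t, t ≤ s (n + 1) →
        ((FA s n t).card : ℝ) + 1 ≤ ((FA s (n + 1) (s (n + 1))).card : ℝ) := by
      intro t ht
      have h1 := card_le_card (hsub1 t ht)
      rw [card_insert_of_notMem] at h1
      · exact_mod_cast h1
      · intro h
        rw [mem_FA] at h
        omega
    constructor
    · intro t ht
      rcases le_or_gt t (s n) with h | h
      · have h1 := i1 t h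
        have h2 : ((FA s n t).card : ℝ) ≤ ((FA s (n + 1) t).card : ℝ) := by
          exact_mod_cast card_le_card (hsub t t le_rfl ht)
        nlinarith
      · have h2 : ((FA s n (s n)).card : ℝ) ≤ ((FA s (n + 1) t).card : ℝ) := by
          exact_mod_cast card_le_card (hsub (s n) t h.le (h.le.trans ht))
        nlinarith
    · rcases le_or_gt (s (n + 1)) (s n) with h | h
      · have h1 := i1 (s (n + 1)) h
        have h2 := hcard1 (s (n + 1)) le_rfl
        nlinarith
      · have h2 := hcard1 (s n) h.le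
        nlinarith

/-- number of 'future minima' of a walk with steps at most `u` -/
theorem futureMin_card (s : ℕ → ℝ) (n : ℕ) (u : ℝ) (hu : 0 < u)
    (hs : ∀ j < n, s (j + 1) - s j ≤ u) :
    (s n - s 0) / u + 1 ≤ (#{j ∈ range (n + 1) | ∀ j' ∈ Icc j n, s j ≤ s j'} : ℝ) := by
  have h1 := (futureMin_inv s u hu n hs).2
  have h2 : ((FA s n (s n)).card : ℝ)
      ≤ (#{j ∈ range (n + 1) | ∀ j' ∈ Icc j n, s j ≤ s j'} : ℝ) := by
    have : FA s n (s n) ⊆ {j ∈ range (n + 1) | ∀ j' ∈ Icc j n, s j ≤ s j'} := by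
      intro j hj
      rw [mem_FA] at hj
      rw [mem_filter, mem_range]
      exact ⟨hj.1, hj.2.1⟩
    exact_mod_cast card_le_card this
  have h3 : (s n - s 0) / u + 1 = (s n - s 0 + u) / u := by field_simp
  rw [h3, div_le_iff₀ hu]
  nlinarith

/-- number of indices that are both future minima and past maxima -/
theorem biGood_card (s : ℕ → ℝ) (n : ℕ) (u : ℝ) (hu : 0 < u)
    (hs : ∀ j < n, s (j + 1) - s j ≤ u) :
    2 * ((s n - s 0) / u) + 1 - n ≤
      (#{j ∈ range (n + 1) | (∀ j' ∈ Icc j n, s j ≤ s j') ∧ (∀ j' ≤ j, s j' ≤ s j)} : ℝ) := by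
  obtain ⟨r, hr⟩ : ∃ r : ℕ → ℝ, r = fun j => -s (n - j) := ⟨_, rfl⟩
  have h1 := futureMin_card s n u hu hs
  have h2 := futureMin_card r n u hu (by
    intro j hj
    have := hs (n - (j + 1)) (by omega)
    have e : n - (j + 1) + 1 = n - j := by omega
    rw [e] at this
    rw [hr]
    show -s (n - (j + 1)) - -s (n - j) ≤ u
    linarith)
  have hr0 : r 0 = -s n := by rw [hr]; simp
  have hrn : r n = -s 0 := by rw [hr]; simp
  rw [hr0, hrn] at h2
  have h3 : #{j ∈ range (n + 1) | ∀ j' ∈ Icc j n, r j ≤ r j'} ≤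
      #{j ∈ range (n + 1) | ∀ j' ≤ j, s j' ≤ s j} := by
    apply card_le_card_of_injOn (fun j => n - j)
    · intro j hj
      rw [mem_coe, mem_filter, mem_range] at hj
      obtain ⟨a1, a2⟩ := hj
      show n - j ∈ _
      rw [mem_coe, mem_filter, mem_range]
      refine ⟨by omega, ?_⟩
      intro j' hj'
      have := a2 (n - j') (mem_Icc.2 ⟨by omega, by omega⟩)
      rw [hr] at this
      have e : n - (n - j') = j' := by omega
      simp only [e] at this
      linarith
    · intro j hj j' hj' heq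
      rw [mem_coe, mem_filter, mem_range] at hj hj'
      have a1 := hj.1
      have a2 := hj'.1
      simp only at heq
      omega
  have h4 : #{j ∈ range (n + 1) | ∀ j' ∈ Icc j n, s j ≤ s j'} +
      #{j ∈ range (n + 1) | ∀ j' ≤ j, s j' ≤ s j} ≤ (n + 1) +
      #{j ∈ range (n + 1) | (∀ j' ∈ Icc j n, s j ≤ s j') ∧ (∀ j' ≤ j, s j' ≤ s j)} := by
    rw [← card_union_add_card_inter]
    have e1 : #({j ∈ range (n + 1) | ∀ j' ∈ Icc j n, s j ≤ s j'} ∪
      {j ∈ range (n + 1) | ∀ j' ≤ j, s j' ≤ s j}) ≤ n + 1 := by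
      refine (card_le_card (?_ : _ ⊆ range (n + 1))).trans (by simp)
      apply union_subset <;> exact filter_subset _ _
    have e2 : #({j ∈ range (n + 1) | ∀ j' ∈ Icc j n, s j ≤ s j'} ∩
      {j ∈ range (n + 1) | ∀ j' ≤ j, s j' ≤ s j}) ≤
      #{j ∈ range (n + 1) | (∀ j' ∈ Icc j n, s j ≤ s j') ∧ (∀ j' ≤ j, s j' ≤ s j)} := by
      apply card_le_card
      intro j hj
      rw [mem_inter, mem_filter, mem_filter] at hj
      rw [mem_filter]
      exact ⟨hj.1.1, hj.1.2, hj.2.2⟩
    omega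
  have h3' : (#{j ∈ range (n + 1) | ∀ j' ∈ Icc j n, r j ≤ r j'} : ℝ) ≤
      (#{j ∈ range (n + 1) | ∀ j' ≤ j, s j' ≤ s j} : ℝ) := by exact_mod_cast h3
  have h4' : (#{j ∈ range (n + 1) | ∀ j' ∈ Icc j n, s j ≤ s j'} : ℝ) +
      (#{j ∈ range (n + 1) | ∀ j' ≤ j, s j' ≤ s j} : ℝ) ≤ (n + 1) +
      (#{j ∈ range (n + 1) | (∀ j' ∈ Icc j n, s j ≤ s j') ∧ (∀ j' ≤ j, s j' ≤ s j)} : ℝ) := by
    exact_mod_cast h4
  have h5 : (-s 0 - -s n) / u = (s n - s 0) / u := by ring
  rw [h5] at h2
  linarith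

end Pool.Agent.H646.WalkM
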