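import Mathlib
import Pool.Agent.H646.Defs
import Pool.Agent.H646.Walk

namespace Pool.Agent.H646.CenterM
open Finset
open Pool.Agent.H646.WalkM (biGood_card)



theorem exists_center_cnt (G : Finset ℤ) (a b : ℕ) (hab : a ≤ b) :
    (#(G ∩ Ico (0 : ℤ) b) : ℝ) - #(G ∩ Ico (0 : ℤ) a) = #(G ∩ Ico (a : ℤ) b) := by
  have h : G ∩ Ico (0 : ℤ) b = (G ∩ Ico (0 : ℤ) a) ∪ (G ∩ Ico (a : ℤ) b) := by
    ext z
    by_cases hz : z ∈ G
    · simp only [mem_inter, mem_Ico, mem_union, hz, true_and]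
      omega
    · simp [hz]
  have hd : Disjoint (G ∩ Ico (0 : ℤ) a) (G ∩ Ico (a : ℤ) b) := by
    rw [Finset.disjoint_left]
    intro z h1 h2
    simp only [mem_inter, mem_Ico] at h1 h2
    omega
  rw [h, card_union_of_disjoint hd]
  push_cast
  ring

theorem exists_center_num (η : ℝ) (hη : 0 < η) : ∃ M₀ : ℕ, ∀ M : ℕ, M₀ ≤ M →
    1 ≤ (M : ℝ) ∧ 5 * (M : ℝ) ^ ((1 : ℝ) / 3) ≤ 40 * η * (M : ℝ) ^ ((1 : ℝ) / 2) ∧
    2 * (M : ℝ) ^ ((1 : ℝ) / 3) ≤ (M : ℝ) / 2 ∧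
    (6 + 1 / η) * (2 * (M : ℝ) ^ ((1 : ℝ) / 3)) ≤ M := by
  rw [← Filter.eventually_atTop]
  have t1 : Filter.Tendsto (fun M : ℕ => (M : ℝ)) Filter.atTop Filter.atTop :=
    tendsto_natCast_atTop_atTop
  have e1 := t1.eventually_ge_atTop 1
  have e2 := ((tendsto_rpow_atTop (by norm_num : (0 : ℝ) < 1 / 6)).comp t1).eventually_ge_atTop
    (1 / (8 * η))
  have e3 := ((tendsto_rpow_atTop (by norm_num : (0 : ℝ) < 2 / 3)).comp t1).eventually_ge_atTop
    (2 * (6 + 1 / η))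
  filter_upwards [e1, e2, e3] with M h1 h2 h3
  simp only [Function.comp_apply] at h2 h3
  have h0 : (0 : ℝ) < M := by linarith
  have hp : 0 < (M : ℝ) ^ ((1 : ℝ) / 3) := Real.rpow_pos_of_pos h0 _
  have q1 : (M : ℝ) ^ ((1 : ℝ) / 2) = (M : ℝ) ^ ((1 : ℝ) / 3) * (M : ℝ) ^ ((1 : ℝ) / 6) := by
    rw [← Real.rpow_add h0]; norm_num
  have q2 : (M : ℝ) = (M : ℝ) ^ ((1 : ℝ) / 3) * (M : ℝ) ^ ((2 : ℝ) / 3) := by
    rw [← Real.rpow_add h0]; norm_num
  have hinv : 0 < 1 / η := by positivity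
  refine ⟨h1, ?_, ?_, ?_⟩
  · rw [q1]
    have : 5 ≤ 40 * η * (M : ℝ) ^ ((1 : ℝ) / 6) := by
      have h4 := mul_le_mul_of_nonneg_left h2 (by positivity : 0 ≤ 40 * η)
      have h5 : 40 * η * (1 / (8 * η)) = 5 := by field_simp; norm_num
      linarith
    nlinarith
  · rw [le_div_iff₀ (by norm_num : (0 : ℝ) < 2)]
    rw [q2] 
    have h4 : (4 : ℝ) ≤ (M : ℝ) ^ ((2 : ℝ) / 3) := by linarith
    rw [← q2]
    nlinarith
  · have h5 := mul_le_mul_of_nonneg_left h3 hp.le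
    rw [← q2] at h5
    linarith

/-- a centre around which all intervals have almost full relative density -/
theorem exists_center (η : ℝ) (hη : 0 < η) (hη1 : η ≤ 1 / 100) :
    ∃ M₀ : ℕ, ∀ M : ℕ, M₀ ≤ M → ∀ (G : Finset ℤ) (g : ℝ), G ⊆ Ico (0 : ℤ) M → 0 ≤ g → g ≤ 1 →
      g * M ≤ #G →
      (∀ (a : ℤ) (M' : ℕ), 0 ≤ a → a + M' ≤ M → (M : ℝ) ^ ((1 : ℝ) / 4) ≤ M' →
        (#(G ∩ Ico a (a + M')) : ℝ) ≤ (g + η) * M') →
      ∃ x : ℤ, ∀ r : ℕ, (M : ℝ) ^ ((1 : ℝ) / 2) ≤ r → (r : ℝ) ≤ M / 8 →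
        0 ≤ x - r ∧ x + r < M ∧ (g - 40 * η) * (2 * r + 1) ≤ #(G ∩ Icc (x - r) (x + r)) := by
  obtain ⟨M₀, hM₀⟩ := exists_center_num η hη
  refine ⟨M₀, fun M hM G g hG hg0 hg1 hcard hden => ?_⟩
  obtain ⟨h1, h2, h3, h4⟩ := hM₀ M hM
  have h0 : (0 : ℝ) < M := by linarith
  set L := (M : ℝ) ^ ((1 : ℝ) / 3) with hL
  have hL1 : 1 ≤ L := Real.one_le_rpow h1 (by norm_num)
  obtain ⟨β, hβ⟩ : ∃ β : ℕ, β = ⌈L⌉₊ := ⟨_, rfl⟩
  have hβ1 : L ≤ β := by rw [hβ]; exact Nat.le_ceil L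
  have hβ2 : (β : ℝ) ≤ 2 * L := by
    have := Nat.ceil_lt_add_one (by linarith : 0 ≤ L)
    rw [← hβ] at this
    linarith
  have hβ0 : (0 : ℝ) < β := by linarith
  have hβ0' : 0 < β := by exact_mod_cast hβ0
  have hβ4 : (M : ℝ) ^ ((1 : ℝ) / 4) ≤ β :=
    (Real.rpow_le_rpow_of_exponent_le h1 (by norm_num)).trans hβ1
  obtain ⟨n, hn⟩ : ∃ n : ℕ, n = M / β := ⟨_, rfl⟩
  have hnM : n * β ≤ M := by rw [hn]; exact Nat.div_mul_le_self M β
  have hnM2 : M < (n + 1) * β := by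
    rw [hn, mul_comm]
    exact Nat.lt_mul_div_succ M hβ0'
  have hnMr : (n : ℝ) * β ≤ M := by exact_mod_cast hnM
  have hnM2r : (M : ℝ) < (n + 1) * β := by exact_mod_cast hnM2
  have hnbig : 5 + 1 / η < n := by
    have h5 : (6 + 1 / η) * β ≤ M := by
      refine le_trans ?_ h4
      apply mul_le_mul_of_nonneg_left hβ2
      positivity
    have h6 : (6 + 1 / η) * β < (n + 1) * β := h5.trans_lt hnM2r
    have h7 := lt_of_mul_lt_mul_right h6 hβ0.le
    linarith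
  -- the walk
  let s : ℕ → ℝ := fun j => (#(G ∩ Ico (0 : ℤ) ((j * β : ℕ) : ℤ)) : ℝ) - (g - 20 * η) * ((j : ℝ) * β)
  have hsdiff : ∀ a b, a ≤ b → s b - s a =
      (#(G ∩ Ico ((a * β : ℕ) : ℤ) ((b * β : ℕ) : ℤ)) : ℝ) - (g - 20 * η) * (((b : ℝ) - a) * β) := by
    intro a b hab
    have := exists_center_cnt G (a * β) (b * β) (Nat.mul_le_mul_right β hab)
    simp only [s]
    rw [← this]
    ring
  have hstep : ∀ j < n, s (j + 1) - s j ≤ 21 * η * β := by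
    intro j hj
    rw [hsdiff j (j + 1) (Nat.le_succ j)]
    have h5 := hden ((j * β : ℕ) : ℤ) β (by positivity) (by
      have : (j + 1) * β ≤ M := le_trans (Nat.mul_le_mul_right β hj) hnM
      have h6 : ((j * β : ℕ) : ℤ) + (β : ℤ) = (((j + 1) * β : ℕ) : ℤ) := by push_cast; ring
      rw [h6]
      exact_mod_cast this) hβ4
    have h6 : ((j * β : ℕ) : ℤ) + (β : ℤ) = (((j + 1) * β : ℕ) : ℤ) := by push_cast; ring
    rw [h6] at h5
    push_cast at h5 ⊢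
    nlinarith
  have htot : 20 * η * (n * β) - β ≤ s n - s 0 := by
    rw [hsdiff 0 n (Nat.zero_le n)]
    have h5 : (#G : ℝ) ≤ #(G ∩ Ico ((0 * β : ℕ) : ℤ) ((n * β : ℕ) : ℤ)) + β := by
      have h6 : G ⊆ (G ∩ Ico ((0 * β : ℕ) : ℤ) ((n * β : ℕ) : ℤ)) ∪
          Ico ((n * β : ℕ) : ℤ) (((n + 1) * β : ℕ) : ℤ) := by
        intro z hz
        have hz' := hG hz
        have hnM2' : (M : ℤ) < (((n + 1) * β : ℕ) : ℤ) := by exact_mod_cast hnM2
        simp only [mem_Ico] at hz'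
        simp only [mem_union, mem_inter, mem_Ico]
        rcases lt_or_ge z ((n * β : ℕ) : ℤ) with h | h
        · left; refine ⟨hz, ?_, h⟩
          rw [Nat.zero_mul]
          exact hz'.1
        · right; exact ⟨h, hz'.2.trans hnM2'⟩
      have h7 := (card_le_card h6).trans (card_union_le _ _)
      rw [Int.card_Ico] at h7
      have h8 : ((((n + 1) * β : ℕ) : ℤ) - ((n * β : ℕ) : ℤ)).toNat = β := by
        have : (((n + 1) * β : ℕ) : ℤ) - ((n * β : ℕ) : ℤ) = (β : ℤ) := by push_cast; ring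
        rw [this]; simp
      rw [h8] at h7
      exact_mod_cast h7
    have h6 : g * (n * β) ≤ g * M := mul_le_mul_of_nonneg_left hnMr hg0
    push_cast at h5 ⊢
    nlinarith
  have hbg := biGood_card s n (21 * η * β) (by positivity) hstep
  -- a bi-good index in the middle
  obtain ⟨j, hj1, hj2, hjn, hjmin, hjmax⟩ : ∃ j, n ≤ 4 * j ∧ 4 * j ≤ 3 * n ∧ j ≤ n ∧
      (∀ j' ∈ Icc j n, s j ≤ s j') ∧ (∀ j' ≤ j, s j' ≤ s j) := by
    by_contra hcon
    have hsub : {j ∈ range (n + 1) | (∀ j' ∈ Icc j n, s j ≤ s j') ∧ (∀ j' ≤ j, s j' ≤ s j)} ⊆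
        range (n / 4 + 1) ∪ Icc (3 * n / 4) n := by
      intro j hj
      rw [mem_filter, mem_range] at hj
      rw [mem_union, mem_range, mem_Icc]
      by_contra hc
      apply hcon
      exact ⟨j, by omega, by omega, by omega, hj.2.1, hj.2.2⟩
    have hc := (card_le_card hsub).trans (card_union_le _ _)
    rw [card_range, Nat.card_Icc] at hc
    have hc' : 4 * #{j ∈ range (n + 1) | (∀ j' ∈ Icc j n, s j ≤ s j') ∧ (∀ j' ≤ j, s j' ≤ s j)} ≤
        2 * n + 11 := by omega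
    have hc'' : 4 * (#{j ∈ range (n + 1) | (∀ j' ∈ Icc j n, s j ≤ s j') ∧
        (∀ j' ≤ j, s j' ≤ s j)} : ℝ) ≤ 2 * n + 11 := by exact_mod_cast hc'
    have h5 : (20 * η * (n * β) - β) / (21 * η * β) ≤ (s n - s 0) / (21 * η * β) :=
      div_le_div_of_nonneg_right htot (by positivity)
    have h6 : (20 * η * (n * β) - β) / (21 * η * β) = 20 / 21 * n - 1 / 21 * (1 / η) := by
      field_simp
      try ring
    rw [h6] at h5
    have h7 : 0 < 1 / η := by positivity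
    linarith
  refine ⟨((j * β : ℕ) : ℤ), fun r hr1 hr2 => ?_⟩
  have hj1r : (n : ℝ) ≤ 4 * j := by exact_mod_cast hj1
  have hj2r : 4 * (j : ℝ) ≤ 3 * n := by exact_mod_cast hj2
  have hlow : (r : ℝ) ≤ j * β := by
    have h5 : (n : ℝ) * β ≤ 4 * j * β := mul_le_mul_of_nonneg_right hj1r hβ0.le
    nlinarith
  have hlow' : r ≤ j * β := by exact_mod_cast hlow
  have hup : (j : ℝ) * β + r < M := by
    have h5 : 4 * (j : ℝ) * β ≤ 3 * n * β := mul_le_mul_of_nonneg_right hj2r hβ0.le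
    nlinarith
  have hup' : j * β + r < M := by exact_mod_cast hup
  refine ⟨by omega, by omega, ?_⟩
  rcases le_or_gt (g - 40 * η) 0 with hneg | hpos
  · have h5 : (g - 40 * η) * (2 * r + 1) ≤ 0 := mul_nonpos_of_nonpos_of_nonneg hneg (by positivity)
    exact h5.trans (by positivity)
  · obtain ⟨a, ha⟩ : ∃ a : ℕ, a = r / β := ⟨_, rfl⟩
    have ha1 : a * β ≤ r := by rw [ha]; exact Nat.div_mul_le_self r β
    have ha2 : r < (a + 1) * β := by
      rw [ha, mul_comm]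
      exact Nat.lt_mul_div_succ r hβ0'
    have haj : a ≤ j := by
      have : a * β ≤ j * β := ha1.trans hlow'
      exact Nat.le_of_mul_le_mul_right this hβ0'
    have han : j + a ≤ n := by
      have : (j + a) * β < (n + 1) * β := by
        calc (j + a) * β = j * β + a * β := by ring
          _ ≤ j * β + r := by omega
          _ < M := hup'
          _ < (n + 1) * β := hnM2
      have := Nat.lt_of_mul_lt_mul_right this
      omega
    have h5 : s (j - a) ≤ s (j + a) :=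
      (hjmax (j - a) (Nat.sub_le j a)).trans (hjmin (j + a) (mem_Icc.2 ⟨by omega, han⟩))
    have h6 := hsdiff (j - a) (j + a) (by omega)
    have h7 : (((j + a : ℕ) : ℝ) - ((j - a : ℕ) : ℝ)) = 2 * a := by
      rw [Nat.cast_sub haj]; push_cast; ring
    rw [h7] at h6
    have h8 : (#(G ∩ Ico (((j - a) * β : ℕ) : ℤ) (((j + a) * β : ℕ) : ℤ)) : ℝ) ≤
        #(G ∩ Icc (((j * β : ℕ) : ℤ) - r) (((j * β : ℕ) : ℤ) + r)) := by
      have : G ∩ Ico (((j - a) * β : ℕ) : ℤ) (((j + a) * β : ℕ) : ℤ) ⊆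
          G ∩ Icc (((j * β : ℕ) : ℤ) - r) (((j * β : ℕ) : ℤ) + r) := by
        intro z hz
        simp only [mem_inter, mem_Ico, mem_Icc] at hz ⊢
        have e1 : (((j - a) * β : ℕ) : ℤ) = ((j * β : ℕ) : ℤ) - ((a * β : ℕ) : ℤ) := by
          rw [Nat.sub_mul, Nat.cast_sub (Nat.mul_le_mul_right β haj)]
        have e2 : (((j + a) * β : ℕ) : ℤ) = ((j * β : ℕ) : ℤ) + ((a * β : ℕ) : ℤ) := by
          rw [Nat.add_mul]; push_cast; ring
        rw [e1, e2] at hz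
        refine ⟨hz.1, ?_, ?_⟩
        · have := hz.2.1; omega
        · have := hz.2.2; omega
      exact_mod_cast card_le_card this
    have ha2r : (r : ℝ) < (a + 1) * β := by exact_mod_cast ha2
    have hβr : 5 * L ≤ 40 * η * r := by
      refine h2.trans ?_
      exact mul_le_mul_of_nonneg_left hr1 (by positivity)
    have h9 : (g - 20 * η) * (2 * a * β) ≤
        #(G ∩ Icc (((j * β : ℕ) : ℤ) - r) (((j * β : ℕ) : ℤ) + r)) := by linarith
    refine le_trans ?_ h9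
    have h10 : 2 * (r : ℝ) - 2 * β ≤ 2 * a * β := by
      have : ((a : ℝ) + 1) * β = a * β + β := by ring
      linarith
    have h11 : (g - 20 * η) * (2 * r - 2 * β) ≤ (g - 20 * η) * (2 * a * β) :=
      mul_le_mul_of_nonneg_left h10 (by linarith)
    refine le_trans ?_ h11
    have h12 : (g - 20 * η) * (2 * β + 1) ≤ 1 * (2 * β + 1) :=
      mul_le_mul_of_nonneg_right (by linarith) (by positivity)
    have h13 : 20 * η * (2 * r + 1) = 40 * η * r + 20 * η := by ring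
    have h14 : (g - 40 * η) * (2 * r + 1) = (g - 20 * η) * (2 * r - 2 * β) +
        (g - 20 * η) * (2 * β + 1) - 20 * η * (2 * r + 1) := by ring
    rw [h14, h13]
    linarith only [h12, hβr, hβ2, hL1, hη]

end Pool.Agent.H646.CenterM
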