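import Mathlib
import Pool.Agent.H646.Defs

namespace Pool.Agent.H646.ChebM
open Finset



/-- Chebyshev: `P n = O(n log n)` -/
theorem P_le : ∃ C₀ : ℝ, 1 ≤ C₀ ∧ ∀ n : ℕ, 2 ≤ n → (P n : ℝ) ≤ C₀ * (n * Real.log n) := by
  refine ⟨45, by norm_num, ?_⟩
  intro n hn
  have hn' : (2 : ℝ) ≤ n := by exact_mod_cast hn
  have hprime : Nat.Prime (P n) := Nat.prime_nth_prime n
  have hpn : n + 2 ≤ P n := Nat.add_two_le_nth_prime n
  have hcount : (P n).primeCounting = n + 1 := by
    have h := Nat.primeCounting'_nth_eq n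
    unfold Nat.primeCounting
    unfold Nat.primeCounting' at h ⊢
    rw [Nat.count_succ, if_pos hprime]
    exact congrArg (· + 1) h
  set p : ℝ := (P n : ℝ) with hp
  have hp4 : (4 : ℝ) ≤ p := by
    have : (4 : ℕ) ≤ P n := by omega
    rw [hp]
    exact_mod_cast this
  have h := Chebyshev.pi_ge (P n)
  rw [hcount] at h
  have hlogp : 0 < Real.log p := Real.log_pos (by linarith)
  rw [div_le_iff₀ hlogp] at h
  push_cast at h
  have hlog1 : Real.log (p + 1) ≤ 2 * Real.log p := by
    have : 2 * Real.log p = Real.log (p ^ 2) := by rw [Real.log_pow]; norm_num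
    rw [this]
    exact Real.log_le_log (by linarith) (by nlinarith)
  have hlog2 : 0.69 < Real.log 2 := by
    have := Real.log_two_gt_d9
    linarith
  have h1 : p * Real.log 2 ≤ 3 * n * Real.log p := by
    have : p * Real.log 2 ≤ (n + 3) * Real.log p := by
      have h' : p * Real.log 2 - Real.log (p + 1) ≤ ((n : ℝ) + 1) * Real.log p := h
      nlinarith
    nlinarith
  have h2 : p ≤ 5 * n * Real.log p := by
    have h3 : 0 ≤ (n : ℝ) * Real.log p := by positivity
    nlinarith
  have hsq : Real.log p ≤ 2 * Real.sqrt p := by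
    have hs : 0 < Real.sqrt p := Real.sqrt_pos.2 (by linarith)
    have e : Real.log p = 2 * Real.log (Real.sqrt p) := by
      rw [Real.log_sqrt (by linarith)]; ring
    rw [e]
    have := Real.log_le_sub_one_of_pos hs
    linarith
  have hsqrt : Real.sqrt p ≤ 10 * n := by
    have hs : 0 < Real.sqrt p := Real.sqrt_pos.2 (by linarith)
    have hss : Real.sqrt p * Real.sqrt p = p := Real.mul_self_sqrt (by linarith)
    have : Real.sqrt p * Real.sqrt p ≤ (10 * n) * Real.sqrt p := by
      rw [hss]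
      nlinarith
    exact le_of_mul_le_mul_right this hs
  have hp100 : p ≤ 100 * (n : ℝ) ^ 2 := by
    have hss : Real.sqrt p * Real.sqrt p = p := Real.mul_self_sqrt (by linarith)
    have hs : 0 ≤ Real.sqrt p := Real.sqrt_nonneg p
    nlinarith
  have hlogn : Real.log 2 ≤ Real.log n := Real.log_le_log (by norm_num) hn'
  have hlogp9 : Real.log p ≤ 9 * Real.log n := by
    have : Real.log p ≤ Real.log (100 * (n : ℝ) ^ 2) := Real.log_le_log (by linarith) hp100
    rw [Real.log_mul (by norm_num) (by positivity), Real.log_pow] at this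
    have h100 : Real.log 100 ≤ 7 * Real.log 2 := by
      have : 7 * Real.log 2 = Real.log (2 ^ 7) := by rw [Real.log_pow]; norm_num
      rw [this]
      exact Real.log_le_log (by norm_num) (by norm_num)
    push_cast at this
    linarith
  have hn0 : (0 : ℝ) ≤ n := by linarith
  nlinarith

theorem P_strictMono : StrictMono P := Nat.nth_strictMono Nat.infinite_setOfPred_prime

theorem le_P (n : ℕ) : n + 2 ≤ P n := Nat.add_two_le_nth_prime n

/-- telescoping -/
theorem gap_sum (N W : ℕ) : ∑ n ∈ range N, ((P (n + W) : ℝ) - P n) ≤ W * P (N + W) := by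
  induction W with
  | zero => simp
  | succ W ih =>
    have e : ∑ n ∈ range N, ((P (n + (W + 1)) : ℝ) - P n) =
        ∑ n ∈ range N, ((P (n + W) : ℝ) - P n) +
          ∑ n ∈ range N, ((P (n + 1 + W) : ℝ) - P (n + W)) := by
      rw [← Finset.sum_add_distrib]
      refine Finset.sum_congr rfl (fun n _ => ?_)
      have : n + (W + 1) = n + 1 + W := by ring
      rw [this]
      ring
    rw [e, Finset.sum_range_sub (fun n => (P (n + W) : ℝ)) N]
    have hm : (P (N + W) : ℝ) ≤ P (N + (W + 1)) := by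
      exact_mod_cast (P_strictMono.monotone (by omega))
    have h0 : (0 : ℝ) ≤ P (0 + W) := Nat.cast_nonneg _
    push_cast
    have hW : (W : ℝ) * P (N + W) ≤ W * P (N + (W + 1)) :=
      mul_le_mul_of_nonneg_left hm (Nat.cast_nonneg _)
    nlinarith

/-- few windows are long -/
theorem long_few (C₁ : ℝ) (hC₁ : 0 < C₁) (C₀ : ℝ) (hC₀ : 1 ≤ C₀) (hP : ∀ n : ℕ, 2 ≤ n → (P n : ℝ) ≤ C₀ * (n * Real.log n))
    (N W : ℕ) (hN : 2 ≤ N) (hW : 1 ≤ W) (hWN : W ≤ N) :
    (#{n ∈ range N | C₁ * W * Real.log N < (P (n + W) : ℝ) - P n} : ℝ) ≤ 4 * C₀ / C₁ * N := by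
  have hN' : (2 : ℝ) ≤ N := by exact_mod_cast hN
  have hW' : (1 : ℝ) ≤ W := by exact_mod_cast hW
  set S := {n ∈ range N | C₁ * W * Real.log N < (P (n + W) : ℝ) - P n} with hS
  have hlog2 : 0 < Real.log 2 := Real.log_pos (by norm_num)
  have hlogN : Real.log 2 ≤ Real.log N := Real.log_le_log (by norm_num) hN'
  have h1 : (#S : ℝ) * (C₁ * W * Real.log N) ≤ ∑ n ∈ S, ((P (n + W) : ℝ) - P n) := by
    rw [← nsmul_eq_mul]
    refine Finset.card_nsmul_le_sum _ _ _ ?_
    intro n hn
    exact (Finset.mem_filter.1 hn).2.le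
  have h2 : ∑ n ∈ S, ((P (n + W) : ℝ) - P n) ≤ ∑ n ∈ range N, ((P (n + W) : ℝ) - P n) := by
    refine Finset.sum_le_sum_of_subset_of_nonneg (Finset.filter_subset _ _) ?_
    intro n _ _
    have : (P n : ℝ) ≤ P (n + W) := by exact_mod_cast (P_strictMono.monotone (by omega))
    linarith
  have h3 := gap_sum N W
  have h4 : (P (N + W) : ℝ) ≤ 4 * C₀ * (N * Real.log N) := by
    have hm : (P (N + W) : ℝ) ≤ P (2 * N) := by
      exact_mod_cast (P_strictMono.monotone (by omega))
    have h5 := hP (2 * N) (by omega)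
    push_cast at h5
    rw [Real.log_mul (by norm_num) (by linarith)] at h5
    have h6 : C₀ * (2 * N * (Real.log 2 + Real.log N)) ≤ 4 * C₀ * (N * Real.log N) := by
      have : 0 ≤ C₀ * N := by positivity
      nlinarith
    linarith
  have h7 : (#S : ℝ) * (C₁ * W * Real.log N) ≤ W * (4 * C₀ * (N * Real.log N)) := by
    calc (#S : ℝ) * (C₁ * W * Real.log N) ≤ W * P (N + W) := h1.trans (h2.trans h3)
      _ ≤ W * (4 * C₀ * (N * Real.log N)) := by
        exact mul_le_mul_of_nonneg_left h4 (by linarith)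
  have hpos : 0 < C₁ * W * Real.log N := by
    have : 0 < Real.log N := lt_of_lt_of_le hlog2 hlogN
    positivity
  have hlogNpos : 0 < Real.log N := lt_of_lt_of_le hlog2 hlogN
  have e : 4 * C₀ / C₁ * N * (C₁ * W * Real.log N) = W * (4 * C₀ * (N * Real.log N)) := by
    field_simp
  rw [← e] at h7
  exact le_of_mul_le_mul_right h7 hpos

end Pool.Agent.H646.ChebM
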