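import Mathlib
import Pool.Agent.H646.Defs

namespace Pool.Agent.H646.ConcM
open Finset



open Classical in
theorem approx_concave_core (X : Set ℤ) (τ : ℝ) (hτ : 0 ≤ τ) (g : ℤ → ℝ) (hX : MidConc X τ g)
    (y x0 : ℤ) (hyx : y < x0) (gy : g y = 0) (yX : y ∈ X) (x0X : x0 ∈ X)
    (hmin : ∀ t ∈ X, y ≤ t → t ≤ 2 * x0 - y → g x0 ≤ g t)
    (hy : ∀ r : ℕ, y + r ≤ 2 * x0 - y → 8 * #{t ∈ Icc y (y + r) | t ∉ X} ≤ r + 1) :
    -(6 * τ) ≤ g x0 := by
  obtain ⟨r, hr⟩ : ∃ r : ℕ, x0 = y + r := ⟨(x0 - y).toNat, by omega⟩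
  have hr1 : 1 ≤ r := by omega
  have hB := hy (2 * r) (by push_cast; omega)
  set S : Finset ℤ := {t ∈ Icc y (y + ((2 * r : ℕ) : ℤ)) | t ∉ X} with hS
  rcases eq_or_lt_of_le hr1 with h1 | h1
  · -- r = 1
    subst h1
    have hS0 : S.card = 0 := by omega
    have h2 : y + 2 ∈ X := by
      by_contra hcon
      have : y + 2 ∈ S := by
        rw [hS, Finset.mem_filter, Finset.mem_Icc]
        refine ⟨⟨by omega, by push_cast; omega⟩, hcon⟩
      rw [Finset.card_eq_zero] at hS0
      rw [hS0] at this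
      simp at this
    have h3 := hX x0 x0X 1 (by rw [hr]; convert h2 using 1; push_cast; ring)
      (by rw [hr]; convert yX using 1; push_cast; ring)
    have h4 : x0 + 1 = y + 2 := by rw [hr]; push_cast; ring
    have h5 : x0 - 1 = y := by rw [hr]; push_cast; ring
    rw [h4, h5, gy] at h3
    have h6 := hmin (y + 2) h2 (by omega) (by omega)
    linarith
  · -- r ≥ 2
    obtain ⟨t, ht, ht1, ht2, ht3⟩ : ∃ t ∈ Finset.Icc 1 (r - 1), y + (t : ℤ) ∈ X ∧
        y + 2 * (r : ℤ) - t ∈ X ∧ y + 2 * (t : ℤ) ∈ X := by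
      by_contra hcon
      push Not at hcon
      set T1 : Finset ℕ := (Finset.Icc 1 (r - 1)).filter
        (fun t => y + (t : ℤ) ∉ X ∨ y + 2 * (r : ℤ) - t ∉ X) with hT1
      set T2 : Finset ℕ := (Finset.Icc 1 (r - 1)).filter (fun t => y + 2 * (t : ℤ) ∉ X) with hT2
      have hcov : Finset.Icc 1 (r - 1) ⊆ T1 ∪ T2 := by
        intro t ht
        rw [Finset.mem_union, hT1, hT2, Finset.mem_filter, Finset.mem_filter]
        have := hcon t ht
        tauto
      have c1 : T1.card ≤ S.card := by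
        apply Finset.card_le_card_of_injOn (fun t : ℕ => if y + (t : ℤ) ∈ X then y + 2 * (r : ℤ) - t else y + (t : ℤ))
        · intro t ht
          rw [Finset.mem_coe, hT1, Finset.mem_filter, Finset.mem_Icc] at ht
          rw [Finset.mem_coe, hS, Finset.mem_filter, Finset.mem_Icc]
          show (y ≤ (if y + (t : ℤ) ∈ X then y + 2 * (r : ℤ) - t else y + (t : ℤ)) ∧
            (if y + (t : ℤ) ∈ X then y + 2 * (r : ℤ) - t else y + (t : ℤ)) ≤ y + ((2 * r : ℕ) : ℤ)) ∧
            (if y + (t : ℤ) ∈ X then y + 2 * (r : ℤ) - t else y + (t : ℤ)) ∉ X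
          by_cases h : y + (t : ℤ) ∈ X
          · rw [if_pos h]
            refine ⟨⟨by omega, by push_cast; omega⟩, ?_⟩
            rcases ht.2 with h' | h'
            · exact absurd h h'
            · exact h'
          · rw [if_neg h]
            refine ⟨⟨by omega, by push_cast; omega⟩, h⟩
        · intro t ht t' ht' h
          rw [Finset.mem_coe, hT1, Finset.mem_filter, Finset.mem_Icc] at ht ht'
          simp only at h
          split_ifs at h <;> omega
      have c2 : T2.card ≤ S.card := by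
        apply Finset.card_le_card_of_injOn (fun t : ℕ => y + 2 * (t : ℤ))
        · intro t ht
          rw [Finset.mem_coe, hT2, Finset.mem_filter, Finset.mem_Icc] at ht
          rw [Finset.mem_coe, hS, Finset.mem_filter, Finset.mem_Icc]
          show (y ≤ y + 2 * (t : ℤ) ∧ y + 2 * (t : ℤ) ≤ y + ((2 * r : ℕ) : ℤ)) ∧ y + 2 * (t : ℤ) ∉ X
          refine ⟨⟨by omega, by push_cast; omega⟩, ht.2⟩
        · intro t ht t' ht' h
          simp only at h
          omega
      have c3 := Finset.card_le_card hcov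
      have c4 := Finset.card_union_le T1 T2
      rw [Nat.card_Icc] at c3
      omega
    rw [Finset.mem_Icc] at ht
    have h3 := hX x0 x0X ((r : ℤ) - t) (by rw [hr]; convert ht2 using 1; ring)
      (by rw [hr]; convert ht1 using 1; ring)
    have e1 : x0 + ((r : ℤ) - t) = y + 2 * (r : ℤ) - t := by rw [hr]; ring
    have e2 : x0 - ((r : ℤ) - t) = y + t := by rw [hr]; ring
    rw [e1, e2] at h3
    have h4 := hX (y + t) ht1 t (by convert ht3 using 1; ring) (by convert yX using 1; ring)
    have e3 : y + (t : ℤ) + t = y + 2 * t := by ring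
    have e4 : y + (t : ℤ) - t = y := by ring
    rw [e3, e4, gy] at h4
    have h5 := hmin _ ht2 (by omega) (by omega)
    have h6 := hmin _ ht3 (by omega) (by omega)
    linarith

open Classical in
/-- approximate concavity between two 'fully good' points -/
theorem approx_concave (X : Set ℤ) (τ : ℝ) (hτ : 0 ≤ τ) (f : ℤ → ℝ) (hX : MidConc X τ f)
    (y z : ℤ) (hyz : y < z)
    (hy : ∀ r : ℕ, y + r ≤ z → 8 * #{t ∈ Icc y (y + r) | t ∉ X} ≤ r + 1)
    (hz : ∀ r : ℕ, y ≤ z - r → 8 * #{t ∈ Icc (z - r) z | t ∉ X} ≤ r + 1)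
    (x : ℤ) (hx : x ∈ X) (hyx : y ≤ x) (hxz : x ≤ z) :
    ((z : ℝ) - x) * f y + ((x : ℝ) - y) * f z ≤ ((z : ℝ) - y) * f x + 6 * τ * ((z : ℝ) - y) := by
  have hzy : (0 : ℝ) < (z : ℝ) - y := by
    have : (y : ℝ) < z := by exact_mod_cast hyz
    linarith
  have yX : y ∈ X := by
    have := hy 0 (by push_cast; omega)
    by_contra hcon
    have h1 : y ∈ ({t ∈ Icc y (y + ((0 : ℕ) : ℤ)) | t ∉ X} : Finset ℤ) := by
      rw [Finset.mem_filter, Finset.mem_Icc]
      exact ⟨⟨le_rfl, by push_cast; omega⟩, hcon⟩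
    have h2 := Finset.card_pos.2 ⟨y, h1⟩
    omega
  have zX : z ∈ X := by
    have := hz 0 (by push_cast; omega)
    by_contra hcon
    have h1 : z ∈ ({t ∈ Icc (z - ((0 : ℕ) : ℤ)) z | t ∉ X} : Finset ℤ) := by
      rw [Finset.mem_filter, Finset.mem_Icc]
      exact ⟨⟨by push_cast; omega, le_rfl⟩, hcon⟩
    have h2 := Finset.card_pos.2 ⟨z, h1⟩
    omega
  set g : ℤ → ℝ := fun t => f t - (((z : ℝ) - t) * f y + ((t : ℝ) - y) * f z) / ((z : ℝ) - y) with hg
  have gy : g y = 0 := by
    simp only [hg]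
    field_simp
    ring
  have gz : g z = 0 := by
    simp only [hg]
    field_simp
    ring
  have hgX : MidConc X τ g := by
    intro x hx i h1 h2
    have h3 := hX x hx i h1 h2
    have h4 : g (x + i) + g (x - i) - 2 * g x = f (x + i) + f (x - i) - 2 * f x := by
      simp only [hg]
      push_cast
      field_simp
      ring
    linarith
  -- minimum
  obtain ⟨x0, hx0, hmin⟩ : ∃ x0 ∈ (Icc y z).filter (fun t => t ∈ X), ∀ t ∈ (Icc y z).filter (fun t => t ∈ X), g x0 ≤ g t :=
    Finset.exists_min_image _ g ⟨y, by rw [Finset.mem_filter, Finset.mem_Icc]; exact ⟨⟨le_rfl, hyz.le⟩, yX⟩⟩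
  rw [Finset.mem_filter, Finset.mem_Icc] at hx0
  have hmin' : ∀ t ∈ X, y ≤ t → t ≤ z → g x0 ≤ g t := by
    intro t ht h1 h2
    apply hmin
    rw [Finset.mem_filter, Finset.mem_Icc]
    exact ⟨⟨h1, h2⟩, ht⟩
  have key : -(6 * τ) ≤ g x0 := by
    rcases eq_or_lt_of_le hx0.1.1 with h1 | h1
    · rw [← h1, gy]; linarith
    rcases eq_or_lt_of_le hx0.1.2 with h2 | h2
    · rw [h2, gz]; linarith
    rcases le_total (x0 - y) (z - x0) with h3 | h3
    · exact approx_concave_core X τ hτ g hgX y x0 h1 gy yX hx0.2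
        (fun t ht ha hb => hmin' t ht ha (by omega)) (fun r hr => hy r (by omega))
    · have := approx_concave_core {t | -t ∈ X} τ hτ (fun t => g (-t)) ?_ (-z) (-x0) (by omega)
        (by simpa using gz) (by simpa using zX) (by simpa using hx0.2) ?_ ?_
      · simpa using this
      · intro x hx i h1 h2
        have h5 := hgX (-x) hx i (by
          show -x + i ∈ X
          have : -(x - i) ∈ X := h2
          convert this using 1; ring) (by
          show -x - i ∈ X
          have : -(x + i) ∈ X := h1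
          convert this using 1; ring)
        have e1 : -x + i = -(x - i) := by ring
        have e2 : -x - i = -(x + i) := by ring
        rw [e1, e2] at h5
        simp only
        linarith
      · intro t ht ha hb
        simp only [neg_neg]
        exact hmin' (-t) ht (by omega) (by omega)
      · intro r hr
        have h5 := hz r (by omega)
        have h6 : (({t ∈ Icc (-z) (-z + (r : ℤ)) | t ∉ {t : ℤ | -t ∈ X}} : Finset ℤ)).card
            = (({t ∈ Icc (z - (r : ℤ)) z | t ∉ X} : Finset ℤ)).card := by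
          apply Finset.card_bij (fun t _ => -t)
          · intro t ht
            rw [Finset.mem_filter, Finset.mem_Icc] at ht ⊢
            exact ⟨⟨by omega, by omega⟩, ht.2⟩
          · intro a _ b _ h
            omega
          · intro b hb
            rw [Finset.mem_filter, Finset.mem_Icc] at hb
            refine ⟨-b, ?_, by ring⟩
            rw [Finset.mem_filter, Finset.mem_Icc]
            refine ⟨⟨by omega, by omega⟩, ?_⟩
            show ¬ (- -b ∈ X)
            rw [neg_neg]; exact hb.2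
        rw [h6]; exact h5
  have h7 := hmin' x hx hyx hxz
  have h8 : ((z : ℝ) - y) * g x = ((z : ℝ) - y) * f x - (((z : ℝ) - x) * f y + ((x : ℝ) - y) * f z) := by
    simp only [hg]
    field_simp
  have h9 : ((z : ℝ) - y) * (-(6 * τ)) ≤ ((z : ℝ) - y) * g x :=
    mul_le_mul_of_nonneg_left (key.trans h7) hzy.le
  linarith

end Pool.Agent.H646.ConcM
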