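import Mathlib
import Pool.Agent.H646.Defs

namespace Pool.Agent.H646.ConvM
open Finset


local instance : Fact ((0 : ℝ) < 1) := ⟨one_pos⟩

theorem norm_sq_trig (B : Finset ℤ) (c : ℤ → ℂ) :
    ‖∑ n ∈ B, c n • fourierLp (T := (1 : ℝ)) 2 n‖ ^ 2 = ∑ n ∈ B, ‖c n‖ ^ 2 := by
  have h := (orthonormal_fourier (T := (1 : ℝ))).inner_sum c c B
  have h2 : (RCLike.re (inner ℂ (∑ n ∈ B, c n • fourierLp (T := (1 : ℝ)) 2 n)
      (∑ n ∈ B, c n • fourierLp (T := (1 : ℝ)) 2 n)) : ℝ) =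
      ‖∑ n ∈ B, c n • fourierLp (T := (1 : ℝ)) 2 n‖ ^ 2 :=
    inner_self_eq_norm_sq (𝕜 := ℂ) _
  rw [← h2, h]
  rw [map_sum]
  refine Finset.sum_congr rfl fun n _ => ?_
  rw [mul_comm, Complex.mul_conj, Complex.normSq_eq_norm_sq]
  exact Complex.ofReal_re _

/-- Parseval bound for a convolution with the indicator of a finite set. -/
theorem conv_sq_le (F : ℤ → ℝ) (A : Finset ℤ) (hF : ∀ n, n ∉ A → F n = 0) (S : ℝ)
    (hS : ∀ θ : ℝ, ‖∑ n ∈ A, (F n : ℂ) * Complex.exp (2 * Real.pi * Complex.I * θ * n)‖ ≤ S)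
    (L T : Finset ℤ) :
    ∑ n ∈ T, (∑ y ∈ L, F (n - y)) ^ 2 ≤ S ^ 2 * #L := by
  classical
  have hS0 : 0 ≤ S := (norm_nonneg _).trans (hS 0)
  set B : Finset ℤ := T ∪ L.biUnion (fun y => A.image (fun a => a + y)) with hB
  set c : ℤ → ℝ := fun n => ∑ y ∈ L, F (n - y) with hc
  let PA : C(AddCircle (1 : ℝ), ℂ) := ∑ a ∈ A, (F a : ℂ) • fourier a
  let PD : C(AddCircle (1 : ℝ), ℂ) := ∑ y ∈ L, fourier y
  have hprod : ∑ n ∈ B, (c n : ℂ) • (fourier n : C(AddCircle (1 : ℝ), ℂ)) = PA * PD := by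
    have h1 : ∀ n, (c n : ℂ) • (fourier n : C(AddCircle (1 : ℝ), ℂ)) =
        ∑ y ∈ L, (F (n - y) : ℂ) • fourier n := by
      intro n
      rw [hc, ← Finset.sum_smul]
      push_cast
      rfl
    simp_rw [h1]
    rw [Finset.sum_comm]
    have h2 : PA * PD = ∑ y ∈ L, ∑ a ∈ A, (F a : ℂ) • (fourier (a + y) : C(AddCircle (1 : ℝ), ℂ)) := by
      simp only [PA, PD]
      rw [Finset.sum_mul_sum, Finset.sum_comm]
      refine Finset.sum_congr rfl fun y _ => Finset.sum_congr rfl fun a _ => ?_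
      rw [smul_mul_assoc]
      congr 1
      ext x
      simp [fourier_add]
    rw [h2]
    refine Finset.sum_congr rfl fun y hy => ?_
    have h3 : ∑ n ∈ B, (F (n - y) : ℂ) • (fourier n : C(AddCircle (1 : ℝ), ℂ)) =
        ∑ n ∈ A.image (fun a => a + y), (F (n - y) : ℂ) • (fourier n : C(AddCircle (1 : ℝ), ℂ)) := by
      symm
      refine Finset.sum_subset ?_ ?_
      · intro n hn
        rw [hB, Finset.mem_union]
        exact Or.inr (Finset.mem_biUnion.2 ⟨y, hy, hn⟩)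
      · intro n _ hn
        have : F (n - y) = 0 := by
          apply hF
          intro h
          exact hn (Finset.mem_image.2 ⟨n - y, h, by ring⟩)
        rw [this]; simp
    rw [h3, Finset.sum_image (fun a _ b _ h => by simpa using h)]
    refine Finset.sum_congr rfl fun a _ => ?_
    rw [add_sub_cancel_right]
  have hPA : ∀ x : AddCircle (1 : ℝ), ‖PA x‖ ≤ S := by
    intro x
    induction x using QuotientAddGroup.induction_on with
    | H θ =>
      have := hS θ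
      convert this using 2
      simp only [PA, ContinuousMap.coe_sum, Finset.sum_apply, ContinuousMap.coe_smul, Pi.smul_apply,
        smul_eq_mul]
      refine Finset.sum_congr rfl fun a _ => ?_
      congr 1
      have := fourier_coe_apply (T := (1 : ℝ)) (n := a) (x := θ)
      rw [show ((θ : AddCircle (1 : ℝ))) = (QuotientAddGroup.mk θ) from rfl] at this
      rw [this]
      congr 1
      push_cast
      ring
  have e1 : (ContinuousMap.toLp 2 AddCircle.haarAddCircle ℂ) (PA * PD) =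
      ∑ n ∈ B, (c n : ℂ) • fourierLp (T := (1 : ℝ)) 2 n := by
    rw [← hprod, map_sum]
    refine Finset.sum_congr rfl fun n _ => ?_
    rw [map_smul]
  have e2 : (ContinuousMap.toLp 2 AddCircle.haarAddCircle ℂ) PD =
      ∑ n ∈ L, (1 : ℂ) • fourierLp (T := (1 : ℝ)) 2 n := by
    simp only [PD]
    rw [map_sum]
    refine Finset.sum_congr rfl fun n _ => ?_
    rw [one_smul]
  have hle : ‖(ContinuousMap.toLp 2 AddCircle.haarAddCircle ℂ) (PA * PD)‖ ≤
      S * ‖(ContinuousMap.toLp 2 AddCircle.haarAddCircle ℂ) PD‖ := by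
    refine MeasureTheory.Lp.norm_le_mul_norm_of_ae_le_mul ?_
    filter_upwards [ContinuousMap.coeFn_toLp (p := 2) (𝕜 := ℂ) AddCircle.haarAddCircle (PA * PD),
      ContinuousMap.coeFn_toLp (p := 2) (𝕜 := ℂ) AddCircle.haarAddCircle PD] with x h1 h2
    rw [h1, h2, ContinuousMap.mul_apply, norm_mul]
    exact mul_le_mul_of_nonneg_right (hPA x) (norm_nonneg _)
  have hsq := pow_le_pow_left₀ (norm_nonneg _) hle 2
  rw [mul_pow, e1, e2, norm_sq_trig, norm_sq_trig] at hsq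
  have h5 : ∑ n ∈ L, ‖(1 : ℂ)‖ ^ 2 = (#L : ℝ) := by simp
  rw [h5] at hsq
  refine le_trans ?_ hsq
  calc ∑ n ∈ T, (∑ y ∈ L, F (n - y)) ^ 2 = ∑ n ∈ T, ‖(c n : ℂ)‖ ^ 2 := by
        refine Finset.sum_congr rfl fun n _ => ?_
        rw [Complex.norm_real, Real.norm_eq_abs, sq_abs]
    _ ≤ ∑ n ∈ B, ‖(c n : ℂ)‖ ^ 2 := by
        refine Finset.sum_le_sum_of_subset_of_nonneg Finset.subset_union_left fun n _ _ => ?_
        positivity

end Pool.Agent.H646.ConvM
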