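import Mathlib
import Pool.Agent.H646.Defs

namespace Pool.Agent.H646.MomentM
open Finset



lemma rm_local_factor (A : ℕ) {p : ℕ} (hp : p.Prime) :
    (((1 : ℝ) - (p : ℝ)⁻¹)⁻¹) ^ A ≤
      (if p < 4 * (A + 1) ^ 2 then 2 ^ A else 1) * (1 + (p : ℝ) ^ (-(1 / 2) : ℝ)) := by
  have h2 : (2 : ℝ) ≤ p := by exact_mod_cast hp.two_le
  have hp0 : (0 : ℝ) < p := by linarith
  have hinv : (p : ℝ)⁻¹ ≤ 1 / 2 := by
    rw [inv_le_comm₀ hp0 (by norm_num)]; norm_num; exact_mod_cast h2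
  have hinv0 : 0 < (p : ℝ)⁻¹ := by positivity
  have hr : 0 < (p : ℝ) ^ (-(1 / 2) : ℝ) := by positivity
  split_ifs with h
  · have h3 : ((1 : ℝ) - (p : ℝ)⁻¹)⁻¹ ≤ 2 := by
      rw [inv_le_comm₀ (by linarith) (by norm_num)]; norm_num; linarith
    have h4 : (((1 : ℝ) - (p : ℝ)⁻¹)⁻¹) ^ A ≤ 2 ^ A :=
      pow_le_pow_left₀ (inv_nonneg.2 (by linarith)) h3 A
    have h5 : (0 : ℝ) < 2 ^ A := by positivity
    nlinarith
  · push Not at h
    have hA : (0 : ℝ) ≤ A := by positivity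
    have h64 : (4 * ((A : ℝ) + 1) ^ 2 : ℝ) ≤ p := by exact_mod_cast h
    set t := (p : ℝ) ^ (-(1 / 2) : ℝ) with ht
    have ht2 : t ^ 2 = (p : ℝ)⁻¹ := by
      rw [ht, ← Real.rpow_natCast, ← Real.rpow_mul hp0.le]
      norm_num
      exact Real.rpow_neg_one _
    have ht8 : 2 * ((A : ℝ) + 1) * t ≤ 1 := by
      by_contra hcon
      push Not at hcon
      have h1 : (1 : ℝ) ^ 2 < (2 * ((A : ℝ) + 1) * t) ^ 2 :=
        pow_lt_pow_left₀ hcon (by norm_num) (by norm_num)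
      rw [mul_pow, ht2] at h1
      have h3 : (2 * ((A : ℝ) + 1)) ^ 2 * (p : ℝ)⁻¹ ≤ 1 := by
        rw [← div_eq_mul_inv, div_le_one hp0]
        nlinarith
      norm_num at h1
      linarith
    rw [← ht2, inv_pow, one_mul]
    have ht1 : t ≤ 1 / 2 := by nlinarith
    have h5 : 0 < (1 - t ^ 2) ^ A := by
      have : 0 < 1 - t ^ 2 := by nlinarith
      positivity
    rw [inv_le_iff_one_le_mul₀ h5]
    have h6 : 1 - A * t ^ 2 ≤ (1 - t ^ 2) ^ A := by
      have := one_add_mul_le_pow (a := -t ^ 2) (by nlinarith) A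
      have h7 : (1 + -t ^ 2) = 1 - t ^ 2 := by ring
      rw [h7] at this
      linarith
    have h8 : 1 ≤ (1 + t) * (1 - A * t ^ 2) := by
      have h9 : A * t * (1 + t) ≤ 1 := by
        have h10 : A * t ≤ 1 / 2 := by nlinarith
        have h11 : 0 ≤ A * t := by positivity
        nlinarith
      nlinarith [mul_le_mul_of_nonneg_left h9 hr.le]
    calc (1 : ℝ) ≤ (1 + t) * (1 - A * t ^ 2) := h8
      _ ≤ (1 + t) * (1 - t ^ 2) ^ A := mul_le_mul_of_nonneg_left h6 (by linarith)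

lemma rm_rat_le (A n : ℕ) (hn : 1 ≤ n) :
    ((n : ℝ) / (Nat.totient n : ℝ)) ^ A ≤
      (2 ^ A) ^ (4 * (A + 1) ^ 2) * ∑ d ∈ n.divisors, (d : ℝ) ^ (-(1 / 2) : ℝ) := by
  have hn0 : (0 : ℝ) < n := by exact_mod_cast hn
  have h1 : (Nat.totient n : ℝ) = n * ∏ p ∈ n.primeFactors, (1 - (p : ℝ)⁻¹) := by
    have := Nat.totient_eq_mul_prod_factors n
    have h2 : ((Nat.totient n : ℚ) : ℝ) = ((n * ∏ p ∈ n.primeFactors, (1 - (p : ℚ)⁻¹) : ℚ) : ℝ) := by
      rw [this]
    push_cast at h2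
    exact h2
  have h2 : (n : ℝ) / (Nat.totient n : ℝ) = ∏ p ∈ n.primeFactors, ((1 : ℝ) - (p : ℝ)⁻¹)⁻¹ := by
    rw [h1, ← div_div, div_self hn0.ne', one_div, Finset.prod_inv_distrib]
  rw [h2, ← Finset.prod_pow]
  calc ∏ p ∈ n.primeFactors, (((1 : ℝ) - (p : ℝ)⁻¹)⁻¹) ^ A
      ≤ ∏ p ∈ n.primeFactors, ((if p < 4 * (A + 1) ^ 2 then (2 : ℝ) ^ A else 1) * (1 + (p : ℝ) ^ (-(1 / 2) : ℝ))) := by
        refine Finset.prod_le_prod (fun p hp => ?_) fun p hp => ?_
        · have h2 : (2 : ℝ) ≤ p := by exact_mod_cast (Nat.prime_of_mem_primeFactors hp).two_le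
          have : (p : ℝ)⁻¹ ≤ 1 := inv_le_one_of_one_le₀ (by linarith)
          exact pow_nonneg (inv_nonneg.2 (by linarith)) A
        · exact rm_local_factor A (Nat.prime_of_mem_primeFactors hp)
    _ = (∏ p ∈ n.primeFactors, (if p < 4 * (A + 1) ^ 2 then (2 : ℝ) ^ A else 1)) *
        ∏ p ∈ n.primeFactors, (1 + (p : ℝ) ^ (-(1 / 2) : ℝ)) := Finset.prod_mul_distrib
    _ ≤ (2 ^ A) ^ (4 * (A + 1) ^ 2) * ∑ d ∈ n.divisors, (d : ℝ) ^ (-(1 / 2) : ℝ) := by
        refine mul_le_mul ?_ ?_ (Finset.prod_nonneg fun p _ => by positivity) (by positivity)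
        · rw [Finset.prod_ite, Finset.prod_const, Finset.prod_const_one, mul_one]
          refine pow_le_pow_right₀ (one_le_pow₀ (by norm_num)) ?_
          have : (n.primeFactors.filter (fun p => p < 4 * (A + 1) ^ 2)) ⊆ Finset.range (4 * (A + 1) ^ 2) := by
            intro p hp
            rw [Finset.mem_filter] at hp
            exact Finset.mem_range.2 hp.2
          simpa using Finset.card_le_card this
        · rw [Finset.prod_one_add]
          have hprod : ∀ s ∈ n.primeFactors.powerset,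
              ∏ p ∈ s, (p : ℝ) ^ (-(1 / 2) : ℝ) = ((∏ p ∈ s, p : ℕ) : ℝ) ^ (-(1 / 2) : ℝ) := by
            intro s _
            rw [Nat.cast_prod, Real.finsetProd_rpow s (fun p => (p : ℝ)) (fun p _ => by positivity)]
          rw [Finset.sum_congr rfl hprod]
          have hinj : Set.InjOn (fun s : Finset ℕ => ∏ p ∈ s, p) (n.primeFactors.powerset : Set (Finset ℕ)) := by
            intro s hs t ht hst
            simp only [Finset.coe_powerset, Set.mem_preimage, Set.mem_powerset_iff] at hs ht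
            have h3 : (∏ p ∈ s, p).primeFactors = s := Nat.primeFactors_prod fun p hp =>
              Nat.prime_of_mem_primeFactors (hs hp)
            have h4 : (∏ p ∈ t, p).primeFactors = t := Nat.primeFactors_prod fun p hp =>
              Nat.prime_of_mem_primeFactors (ht hp)
            have h5 : ∏ p ∈ s, p = ∏ p ∈ t, p := hst
            rw [← h3, h5, h4]
          rw [← Finset.sum_image (f := fun d : ℕ => (d : ℝ) ^ (-(1 / 2) : ℝ)) hinj]
          refine Finset.sum_le_sum_of_subset_of_nonneg ?_ fun d _ _ => by positivity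
          intro d hd
          rw [Finset.mem_image] at hd
          obtain ⟨s, hs, rfl⟩ := hd
          rw [Finset.mem_powerset] at hs
          rw [Nat.mem_divisors]
          exact ⟨(Finset.prod_dvd_prod_of_subset _ _ _ hs).trans (Nat.prod_primeFactors_dvd n), by omega⟩

/-- all moments of `n / φ(n)` are bounded on average -/
theorem rat_moment (A : ℕ) : ∃ C > (0 : ℝ), ∀ N : ℕ, ∑ n ∈ Icc 1 N, rat n ^ A ≤ C * N := by
  have hs : Summable (fun d : ℕ => (d : ℝ) ^ (-(3 / 2) : ℝ)) :=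
    Real.summable_nat_rpow.2 (by norm_num)
  have hpos : 0 < ∑' d : ℕ, (d : ℝ) ^ (-(3 / 2) : ℝ) :=
    hs.tsum_pos (fun d => by positivity) 1 (by simp)
  refine ⟨(2 ^ A) ^ (4 * (A + 1) ^ 2) * ∑' d : ℕ, (d : ℝ) ^ (-(3 / 2) : ℝ), by positivity, fun N => ?_⟩
  calc ∑ n ∈ Icc 1 N, rat n ^ A
      ≤ ∑ n ∈ Icc 1 N, (2 ^ A) ^ (4 * (A + 1) ^ 2) * ∑ d ∈ n.divisors, (d : ℝ) ^ (-(1 / 2) : ℝ) :=
        Finset.sum_le_sum fun n hn => rm_rat_le A n (Finset.mem_Icc.1 hn).1
    _ = (2 ^ A) ^ (4 * (A + 1) ^ 2) * ∑ n ∈ Icc 1 N, ∑ d ∈ n.divisors, (d : ℝ) ^ (-(1 / 2) : ℝ) := by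
        rw [Finset.mul_sum]
    _ ≤ (2 ^ A) ^ (4 * (A + 1) ^ 2) * ((∑' d : ℕ, (d : ℝ) ^ (-(3 / 2) : ℝ)) * N) := by
        refine mul_le_mul_of_nonneg_left ?_ (by positivity)
        have h1 : ∑ n ∈ Icc 1 N, ∑ d ∈ n.divisors, (d : ℝ) ^ (-(1 / 2) : ℝ) =
            ∑ d ∈ Icc 1 N, ∑ n ∈ (Icc 1 N).filter (fun n => d ∣ n), (d : ℝ) ^ (-(1 / 2) : ℝ) := by
          refine Finset.sum_comm' ?_
          intro n d
          simp only [Finset.mem_Icc, Nat.mem_divisors, Finset.mem_filter]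
          constructor
          · rintro ⟨⟨h1, h2⟩, h3, h4⟩
            exact ⟨⟨⟨h1, h2⟩, h3⟩, Nat.pos_of_dvd_of_pos h3 h1, (Nat.le_of_dvd h1 h3).trans h2⟩
          · rintro ⟨⟨⟨h1, h2⟩, h3⟩, _⟩
            exact ⟨⟨h1, h2⟩, h3, by omega⟩
        rw [h1]
        have h2 : ∀ d ∈ Icc 1 N, ∑ n ∈ (Icc 1 N).filter (fun n => d ∣ n), (d : ℝ) ^ (-(1 / 2) : ℝ) ≤
            (d : ℝ) ^ (-(3 / 2) : ℝ) * N := by
          intro d hd
          rw [Finset.mem_Icc] at hd
          have hd0 : (0 : ℝ) < d := by exact_mod_cast hd.1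
          rw [Finset.sum_const, nsmul_eq_mul]
          have h3 : ((Icc 1 N).filter (fun n => d ∣ n)).card = N / d := by
            have := Nat.Ioc_filter_dvd_card_eq_div N d
            rw [← this]
            rfl
          rw [h3]
          have h4 : ((N / d : ℕ) : ℝ) ≤ N / d := Nat.cast_div_le
          have h5 : (d : ℝ) ^ (-(3 / 2) : ℝ) * N = N / d * (d : ℝ) ^ (-(1 / 2) : ℝ) := by
            have : (d : ℝ) ^ (-(3 / 2) : ℝ) = (d : ℝ) ^ (-(1 / 2) : ℝ) / d := by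
              rw [← Real.rpow_sub_one hd0.ne']; norm_num
            rw [this]; ring
          rw [h5]
          exact mul_le_mul_of_nonneg_right h4 (by positivity)
        refine (Finset.sum_le_sum h2).trans ?_
        rw [← Finset.sum_mul]
        exact mul_le_mul_of_nonneg_right (hs.sum_le_tsum _ fun d _ => by positivity) (by positivity)
    _ = _ := by ring

end Pool.Agent.H646.MomentM
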