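import Mathlib
import Pool.Agent.H646.Defs

namespace Pool.Agent.H646.Sel

open Finset Nat ArithmeticFunction BoundingSieve
open scoped ArithmeticFunction.Moebius ArithmeticFunction.zeta

theorem sum_moebius_divisors (m : ℕ) :
    ∑ e ∈ m.divisors, μ e = if m = 1 then 1 else 0 := by
  have h : (μ * (ζ : ArithmeticFunction ℤ)) m = (1 : ArithmeticFunction ℤ) m := by
    rw [moebius_mul_coe_zeta]
  rw [coe_mul_zeta_apply] at h
  rw [h, ArithmeticFunction.one_apply]

theorem sum_moebius_between {P l0 l : ℕ} (hl0 : l0 ≠ 0) (hl : Squarefree l) (hlP : l ∣ P) (hP : P ≠ 0) :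
    ∑ d ∈ P.divisors with (l0 ∣ d ∧ d ∣ l), (μ d : ℝ) = if l0 = l then (μ l0 : ℝ) else 0 := by
  by_cases h : l0 ∣ l
  · obtain ⟨m, rfl⟩ := h
    have hm : m ≠ 0 := by rintro rfl; simp at hl
    have hset : (P.divisors.filter (fun d => l0 ∣ d ∧ d ∣ l0 * m)) = m.divisors.image (fun e => l0 * e) := by
      ext d
      simp only [mem_filter, mem_divisors, mem_image]
      constructor
      · rintro ⟨⟨hdP, _⟩, ⟨e, rfl⟩, hdl⟩
        refine ⟨e, ⟨?_, hm⟩, rfl⟩
        exact (Nat.mul_dvd_mul_iff_left (Nat.pos_of_ne_zero hl0)).mp hdl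
      · rintro ⟨e, ⟨hem, _⟩, rfl⟩
        have : l0 * e ∣ l0 * m := Nat.mul_dvd_mul_left l0 hem
        exact ⟨⟨this.trans hlP, hP⟩, Dvd.intro e rfl, this⟩
    rw [hset, sum_image (fun a _ b _ hab => Nat.eq_of_mul_eq_mul_left (Nat.pos_of_ne_zero hl0) hab)]
    have hcop : Nat.Coprime l0 m := Nat.coprime_of_squarefree_mul hl
    have h1 : ∀ e ∈ m.divisors, ((μ (l0 * e) : ℤ) : ℝ) = (μ l0 : ℝ) * (μ e : ℝ) := by
      intro e he
      have : Nat.Coprime l0 e := hcop.coprime_dvd_right (dvd_of_mem_divisors he)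
      rw [isMultiplicative_moebius.map_mul_of_coprime this]
      push_cast; ring
    rw [sum_congr rfl h1, ← mul_sum]
    have h2 : ∑ e ∈ m.divisors, (μ e : ℝ) = if m = 1 then 1 else 0 := by
      have := sum_moebius_divisors m
      have h3 : ((∑ e ∈ m.divisors, μ e : ℤ) : ℝ) = ((if m = 1 then 1 else 0 : ℤ) : ℝ) := by rw [this]
      push_cast at h3
      exact h3
    rw [h2]
    by_cases hm1 : m = 1
    · subst hm1; simp
    · rw [if_neg hm1, mul_zero, if_neg]
      intro hc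
      apply hm1
      have : l0 * 1 = l0 * m := by rw [mul_one]; exact hc
      exact (Nat.eq_of_mul_eq_mul_left (Nat.pos_of_ne_zero hl0) this).symm
  · have hne : l0 ≠ l := fun hc => h (hc ▸ dvd_rfl)
    rw [if_neg hne, filter_eq_empty_iff.mpr, sum_empty]
    rintro d _ ⟨h1, h2⟩
    exact h (h1.trans h2)

variable (s : BoundingSieve) (z : ℕ)

/-- sum of Selberg terms up to level -/
noncomputable def GS : ℝ := ∑ l ∈ divisors s.prodPrimes with l ≤ z, s.selbergTerms l

/-- partial sum of Selberg terms over multiples of d -/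
noncomputable def SS (d : ℕ) : ℝ := ∑ l ∈ divisors s.prodPrimes with (d ∣ l ∧ l ≤ z), s.selbergTerms l

/-- Selberg weights -/
noncomputable def wt (d : ℕ) : ℝ :=
  (s.nu d)⁻¹ * (μ d : ℝ) * SS s z d / GS s z

variable {s z}

theorem GS_pos (hz : 1 ≤ z) : 0 < GS s z := by
  unfold GS
  apply sum_pos
  · intro l hl
    exact selbergTerms_pos (dvd_of_mem_divisors (mem_filter.mp hl).1)
  · exact ⟨1, mem_filter.mpr ⟨mem_divisors.mpr ⟨one_dvd _, prodPrimes_ne_zero⟩, hz⟩⟩

theorem SS_one : SS s z 1 = GS s z := by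
  unfold SS GS
  simp

theorem SS_nonneg (d : ℕ) : 0 ≤ SS s z d := by
  unfold SS
  apply sum_nonneg
  intro l hl
  exact (selbergTerms_pos (dvd_of_mem_divisors (mem_filter.mp hl).1)).le

theorem SS_le (d : ℕ) : SS s z d ≤ GS s z := by
  unfold SS GS
  apply sum_le_sum_of_subset_of_nonneg
  · intro l hl
    rw [mem_filter] at hl ⊢
    exact ⟨hl.1, hl.2.2⟩
  · intro l hl _
    exact (selbergTerms_pos (dvd_of_mem_divisors (mem_filter.mp hl).1)).le

theorem SS_eq_zero {d : ℕ} (hd : z < d) : SS s z d = 0 := by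
  unfold SS
  rw [filter_eq_empty_iff.mpr, sum_empty]
  rintro l hl ⟨h1, h2⟩
  have : 0 < l := Nat.pos_of_mem_divisors hl
  have := Nat.le_of_dvd this h1
  omega

theorem wt_one (hz : 1 ≤ z) : wt s z 1 = 1 := by
  unfold wt
  rw [SS_one, s.nu_mult.map_one]
  have := GS_pos (s := s) hz
  rw [inv_one, moebius_apply_one, Int.cast_one, one_mul, one_mul, div_self this.ne']

theorem wt_zero_of_gt {d : ℕ} (hd : z < d) : wt s z d = 0 := by
  unfold wt
  rw [SS_eq_zero hd]; simp

theorem abs_wt_le (hz : 1 ≤ z) {d : ℕ} (hd : d ∣ s.prodPrimes) : |wt s z d| ≤ (s.nu d)⁻¹ := by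
  unfold wt
  have hG := GS_pos (s := s) hz
  have hnu := nu_pos_of_dvd_prodPrimes hd
  rw [abs_div, abs_mul, abs_mul, abs_of_pos (inv_pos.mpr hnu), abs_of_nonneg (SS_nonneg d), abs_of_pos hG]
  rw [div_le_iff₀ hG]
  have h1 : |(μ d : ℝ)| ≤ 1 := by
    have := abs_moebius_le_one (n := d)
    exact_mod_cast this
  have h2 := SS_le (s := s) (z := z) d
  have h3 := SS_nonneg (s := s) (z := z) d
  have h4 := inv_pos.mpr hnu
  calc (s.nu d)⁻¹ * |(μ d : ℝ)| * SS s z d ≤ (s.nu d)⁻¹ * 1 * SS s z d := by gcongr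
    _ = (s.nu d)⁻¹ * SS s z d := by ring
    _ ≤ (s.nu d)⁻¹ * GS s z := by gcongr

theorem diag (hz : 1 ≤ z) {l0 : ℕ} (hl0 : l0 ∈ divisors s.prodPrimes) :
    (∑ d ∈ divisors s.prodPrimes, if l0 ∣ d then s.nu d * wt s z d else 0) =
      if l0 ≤ z then (μ l0 : ℝ) * s.selbergTerms l0 / GS s z else 0 := by
  have hG := GS_pos (s := s) hz
  have hl0' : l0 ≠ 0 := (Nat.pos_of_mem_divisors hl0).ne'
  have h1 : ∀ d ∈ divisors s.prodPrimes, (if l0 ∣ d then s.nu d * wt s z d else 0) =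
      ∑ l ∈ divisors s.prodPrimes with l ≤ z, (if l0 ∣ d ∧ d ∣ l then (μ d : ℝ) * (s.selbergTerms l / GS s z) else 0) := by
    intro d hd
    have hnu := nu_pos_of_dvd_prodPrimes (dvd_of_mem_divisors hd)
    by_cases h : l0 ∣ d
    · simp only [h, if_true, true_and]
      unfold wt SS
      rw [← sum_filter, filter_filter]
      rw [show s.nu d * ((s.nu d)⁻¹ * (μ d : ℝ) * (∑ l ∈ divisors s.prodPrimes with (d ∣ l ∧ l ≤ z), s.selbergTerms l) / GS s z) =
        (s.nu d * (s.nu d)⁻¹) * ((μ d : ℝ) * ((∑ l ∈ divisors s.prodPrimes with (d ∣ l ∧ l ≤ z), s.selbergTerms l) / GS s z)) by ring]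
      rw [mul_inv_cancel₀ hnu.ne', one_mul, sum_div, mul_sum]
      apply sum_congr
      · ext l
        simp only [mem_filter]
        tauto
      · intro l _; rfl
    · simp [h]
  rw [sum_congr rfl h1, sum_comm]
  have h2 : ∀ l ∈ (divisors s.prodPrimes).filter (fun l => l ≤ z),
      (∑ d ∈ divisors s.prodPrimes, (if l0 ∣ d ∧ d ∣ l then (μ d : ℝ) * (s.selbergTerms l / GS s z) else 0)) =
      if l0 = l then (μ l0 : ℝ) * s.selbergTerms l0 / GS s z else 0 := by
    intro l hl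
    have hl' := mem_filter.mp hl
    have hld := dvd_of_mem_divisors hl'.1
    rw [← sum_filter, ← sum_mul, sum_moebius_between hl0' (squarefree_of_dvd_prodPrimes hld) hld prodPrimes_ne_zero]
    split_ifs with h
    · subst h; ring
    · ring
  rw [sum_congr rfl h2, sum_ite_eq]
  by_cases h : l0 ≤ z
  · rw [if_pos (mem_filter.mpr ⟨hl0, h⟩), if_pos h]
  · have : l0 ∉ {l ∈ s.prodPrimes.divisors | l ≤ z} := fun hc => h (mem_filter.mp hc).2
    rw [if_neg this, if_neg h]

theorem mainSum_eq (hz : 1 ≤ z) : s.mainSum (lambdaSquared (wt s z)) = (GS s z)⁻¹ := by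
  have hG := GS_pos (s := s) hz
  rw [mainSum_lambdaSquared_eq_sum_mul_sum_sq]
  have h1 : ∀ l ∈ divisors s.prodPrimes, (s.selbergTerms l)⁻¹ *
        (∑ d ∈ divisors s.prodPrimes, if l ∣ d then s.nu d * wt s z d else 0) ^ 2 =
        if l ≤ z then s.selbergTerms l / (GS s z) ^ 2 else 0 := by
    intro l hl
    rw [diag hz hl]
    have hpos := selbergTerms_pos (s := s) (dvd_of_mem_divisors hl)
    split_ifs
    · have hmu : ((μ l : ℝ)) ^ 2 = 1 := by
        have := moebius_sq_eq_one_of_squarefree (squarefree_of_dvd_prodPrimes (s := s) (dvd_of_mem_divisors hl))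
        exact_mod_cast this
      rw [div_pow, mul_pow, hmu]
      field_simp
    · simp
  rw [sum_congr rfl h1, ← sum_filter, ← sum_div]
  change GS s z / (GS s z) ^ 2 = _
  field_simp

/-- error bound -/
theorem errSum_le (hz : 1 ≤ z) (hnu : ∀ d, d ∣ s.prodPrimes → (s.nu d)⁻¹ ≤ d)
    (hrem : ∀ d, d ∣ s.prodPrimes → |s.rem d| ≤ d) :
    s.errSum (lambdaSquared (wt s z)) ≤ (z : ℝ) ^ 6 := by
  unfold errSum
  set D := divisors s.prodPrimes with hD
  set E := D.filter (fun d => d ≤ z) with hE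
  have h1 : ∀ d ∈ D, |lambdaSquared (wt s z) d| * |s.rem d| ≤
      ∑ d1 ∈ E, ∑ d2 ∈ E, if d = Nat.lcm d1 d2 then |wt s z d1| * |wt s z d2| * |s.rem d| else 0 := by
    intro d hd
    have hdd := dvd_of_mem_divisors hd
    have hd0 : d ≠ 0 := (Nat.pos_of_mem_divisors hd).ne'
    have : |lambdaSquared (wt s z) d| ≤ ∑ d1 ∈ E, ∑ d2 ∈ E, if d = Nat.lcm d1 d2 then |wt s z d1| * |wt s z d2| else 0 := by
      unfold lambdaSquared
      refine (abs_sum_le_sum_abs _ _).trans ?_
      have step1 : ∀ d1 ∈ d.divisors, |∑ d2 ∈ d.divisors, if d = Nat.lcm d1 d2 then wt s z d1 * wt s z d2 else 0| ≤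
          ∑ d2 ∈ E, if d = Nat.lcm d1 d2 then |wt s z d1| * |wt s z d2| else 0 := by
        intro d1 _
        refine (abs_sum_le_sum_abs _ _).trans ?_
        have : ∀ d2 ∈ d.divisors, |if d = Nat.lcm d1 d2 then wt s z d1 * wt s z d2 else 0| ≤
          if d2 ∈ E then (if d = Nat.lcm d1 d2 then |wt s z d1| * |wt s z d2| else 0) else 0 := by
          intro d2 hd2
          by_cases h2 : d2 ∈ E
          · rw [if_pos h2]
            split_ifs
            · rw [abs_mul]
            · simp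
          · rw [if_neg h2]
            have hz2 : z < d2 := by
              by_contra hcon
              apply h2
              rw [hE, mem_filter, hD, mem_divisors]
              exact ⟨⟨(dvd_of_mem_divisors hd2).trans hdd, prodPrimes_ne_zero⟩, by omega⟩
            rw [wt_zero_of_gt hz2]
            simp
        refine (sum_le_sum this).trans ?_
        rw [← sum_filter]
        apply sum_le_sum_of_subset_of_nonneg
        · intro x hx; exact (mem_filter.mp hx).2
        · intro x _ _; split_ifs <;> positivity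
      refine (sum_le_sum step1).trans ?_
      have step2 : ∀ d1 ∈ d.divisors, (∑ d2 ∈ E, if d = Nat.lcm d1 d2 then |wt s z d1| * |wt s z d2| else 0) ≤
          if d1 ∈ E then (∑ d2 ∈ E, if d = Nat.lcm d1 d2 then |wt s z d1| * |wt s z d2| else 0) else 0 := by
        intro d1 hd1
        by_cases h2 : d1 ∈ E
        · rw [if_pos h2]
        · rw [if_neg h2]
          have hz2 : z < d1 := by
            by_contra hcon
            apply h2
            rw [hE, mem_filter, hD, mem_divisors]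
            exact ⟨⟨(dvd_of_mem_divisors hd1).trans hdd, prodPrimes_ne_zero⟩, by omega⟩
          rw [wt_zero_of_gt hz2]
          simp
      refine (sum_le_sum step2).trans ?_
      rw [← sum_filter]
      apply sum_le_sum_of_subset_of_nonneg
      · intro x hx; exact (mem_filter.mp hx).2
      · intro x _ _
        apply sum_nonneg
        intro y _; split_ifs <;> positivity
    calc |lambdaSquared (wt s z) d| * |s.rem d| ≤
        (∑ d1 ∈ E, ∑ d2 ∈ E, if d = Nat.lcm d1 d2 then |wt s z d1| * |wt s z d2| else 0) * |s.rem d| := by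
          gcongr
      _ = _ := by
        rw [sum_mul]
        apply sum_congr rfl; intro d1 _
        rw [sum_mul]
        apply sum_congr rfl; intro d2 _
        split_ifs <;> simp
  refine (sum_le_sum h1).trans ?_
  rw [sum_comm]
  have h2 : ∀ d1 ∈ E, (∑ d ∈ D, ∑ d2 ∈ E, if d = Nat.lcm d1 d2 then |wt s z d1| * |wt s z d2| * |s.rem d| else 0) ≤
      (z:ℝ)^5 := by
    intro d1 hd1
    rw [sum_comm]
    have h3 : ∀ d2 ∈ E, (∑ d ∈ D, if d = Nat.lcm d1 d2 then |wt s z d1| * |wt s z d2| * |s.rem d| else 0) ≤ (z:ℝ)^4 := by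
      intro d2 hd2
      rw [hE, mem_filter] at hd1 hd2
      have hd1P := dvd_of_mem_divisors hd1.1
      have hd2P := dvd_of_mem_divisors hd2.1
      have hlcm : Nat.lcm d1 d2 ∣ s.prodPrimes := Nat.lcm_dvd hd1P hd2P
      rw [sum_ite_eq' D (Nat.lcm d1 d2), if_pos (mem_divisors.mpr ⟨hlcm, prodPrimes_ne_zero⟩)]
      have e1 : |wt s z d1| ≤ z := (abs_wt_le hz hd1P).trans ((hnu d1 hd1P).trans (by exact_mod_cast hd1.2))
      have e2 : |wt s z d2| ≤ z := (abs_wt_le hz hd2P).trans ((hnu d2 hd2P).trans (by exact_mod_cast hd2.2))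
      have e3 : |s.rem (Nat.lcm d1 d2)| ≤ (z:ℝ)^2 := by
        refine (hrem _ hlcm).trans ?_
        have : Nat.lcm d1 d2 ≤ z ^ 2 := by
          have h0 : 0 < d1 * d2 := Nat.mul_pos (Nat.pos_of_mem_divisors hd1.1) (Nat.pos_of_mem_divisors hd2.1)
          calc Nat.lcm d1 d2 ≤ d1 * d2 := Nat.le_of_dvd h0 (Nat.lcm_dvd_mul d1 d2)
            _ ≤ z * z := Nat.mul_le_mul hd1.2 hd2.2
            _ = z ^ 2 := by ring
        exact_mod_cast this
      calc |wt s z d1| * |wt s z d2| * |s.rem (Nat.lcm d1 d2)| ≤ z * z * (z:ℝ)^2 := by gcongr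
        _ = (z:ℝ)^4 := by ring
    refine (sum_le_sum h3).trans ?_
    rw [sum_const, nsmul_eq_mul]
    have hcard : (#E : ℝ) ≤ z := by
      have : #E ≤ #(Icc 1 z) := by
        apply card_le_card
        intro x hx
        rw [hE, mem_filter] at hx
        exact mem_Icc.mpr ⟨Nat.pos_of_mem_divisors hx.1, hx.2⟩
      rw [Nat.card_Icc] at this
      exact_mod_cast this
    calc (#E : ℝ) * (z:ℝ)^4 ≤ z * (z:ℝ)^4 := by gcongr
      _ = (z:ℝ)^5 := by ring
  have h2' : (∑ y ∈ E, ∑ x ∈ D, ∑ d2 ∈ E, if x = Nat.lcm y d2 then |wt s z y| * |wt s z d2| * |s.rem x| else 0) ≤ ∑ y ∈ E, (z:ℝ)^5 := sum_le_sum h2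
  refine h2'.trans ?_
  rw [sum_const, nsmul_eq_mul]
  have hcard : (#E : ℝ) ≤ z := by
    have : #E ≤ #(Icc 1 z) := by
      apply card_le_card
      intro x hx
      rw [hE, mem_filter] at hx
      exact mem_Icc.mpr ⟨Nat.pos_of_mem_divisors hx.1, hx.2⟩
    rw [Nat.card_Icc] at this
    exact_mod_cast this
  calc (#E : ℝ) * (z:ℝ)^5 ≤ z * (z:ℝ)^5 := by gcongr
    _ = (z:ℝ)^6 := by ring

theorem selberg_bound (hz : 1 ≤ z) (hnu : ∀ d, d ∣ s.prodPrimes → (s.nu d)⁻¹ ≤ d)
    (hrem : ∀ d, d ∣ s.prodPrimes → |s.rem d| ≤ d) :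
    s.siftedSum ≤ s.totalMass / GS s z + (z:ℝ)^6 := by
  have h := siftedSum_le_mainSum_errSum_of_upperMoebius (s := s) (lambdaSquared (wt s z))
    (upperMoebius_lambdaSquared (wt s z) (wt_one hz))
  rw [mainSum_eq hz] at h
  have h2 := errSum_le hz hnu hrem
  rw [div_eq_mul_inv]
  linarith

end Pool.Agent.H646.Sel

namespace Pool.Agent.H646.Sv1M
open Finset




/-! ### auxiliary: roots of `∏ (x + d j + 1)` -/

/-- the polynomial value -/
def fv {k : ℕ} (d : Fin k → ℕ) (n : ℕ) : ℕ := ∏ j, (n + (d j + 1))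

/-- number of roots modulo `l` -/
noncomputable def NRt {k : ℕ} (d : Fin k → ℕ) (l : ℕ) : ℕ :=
  Nat.card {x : ZMod l // ∏ j, (x + ((d j + 1 : ℕ) : ZMod l)) = 0}

theorem fv_cast {k : ℕ} (d : Fin k → ℕ) (n l : ℕ) :
    ((fv d n : ℕ) : ZMod l) = ∏ j, ((n : ZMod l) + ((d j + 1 : ℕ) : ZMod l)) := by
  unfold fv
  push_cast
  rfl

theorem count_eq_NRt {k : ℕ} (d : Fin k → ℕ) (l : ℕ) (hl : 0 < l) :
    Nat.count (fun x => l ∣ fv d x) l = NRt d l := by
  have : NeZero l := ⟨hl.ne'⟩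
  unfold NRt
  rw [Nat.count_eq_card_filter_range, Nat.card_eq_fintype_card, Fintype.card_subtype]
  refine card_nbij' (fun x => (x : ZMod l)) (fun y => y.val) ?_ ?_ ?_ ?_
  · intro x hx
    simp only [coe_filter, Set.mem_ofPred_eq, Finset.mem_range, mem_univ, true_and] at hx ⊢
    rw [← fv_cast]
    exact (ZMod.natCast_eq_zero_iff (fv d x) l).mpr hx.2
  · intro y hy
    simp only [coe_filter, Set.mem_ofPred_eq, Finset.mem_range, mem_univ, true_and] at hy ⊢
    refine ⟨ZMod.val_lt y, ?_⟩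
    rw [← ZMod.natCast_eq_zero_iff, fv_cast, ZMod.natCast_zmod_val]
    exact hy
  · intro x hx
    simp only [coe_filter, Set.mem_ofPred_eq, Finset.mem_range] at hx
    exact ZMod.val_cast_of_lt hx.1
  · intro y _
    exact ZMod.natCast_zmod_val y

theorem NRt_one {k : ℕ} (hk : 1 ≤ k) (d : Fin k → ℕ) : NRt d 1 = 1 := by
  unfold NRt
  rw [Nat.card_eq_one_iff_unique]
  refine ⟨⟨?_⟩, ⟨⟨0, Subsingleton.elim _ _⟩⟩⟩
  rintro ⟨a, _⟩ ⟨b, _⟩
  simp only [Subtype.mk.injEq]
  exact Subsingleton.elim _ _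

theorem NRt_mul {k : ℕ} (d : Fin k → ℕ) (a b : ℕ) (hab : Nat.Coprime a b) :
    NRt d (a * b) = NRt d a * NRt d b := by
  unfold NRt
  rw [← Nat.card_prod]
  refine Nat.card_congr ?_
  let e := ZMod.chineseRemainder hab
  have h1 : ∀ x : ZMod (a * b), (∏ j, (x + ((d j + 1 : ℕ) : ZMod (a * b))) = 0) ↔
      ((∏ j, ((e x).1 + ((d j + 1 : ℕ) : ZMod a)) = 0) ∧
        (∏ j, ((e x).2 + ((d j + 1 : ℕ) : ZMod b)) = 0)) := by
    intro x
    rw [← map_eq_zero_iff e e.injective, map_prod, Prod.ext_iff, Prod.fst_prod, Prod.snd_prod]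
    simp only [map_add, map_natCast, Prod.fst_add, Prod.snd_add, Prod.fst_natCast,
      Prod.snd_natCast, Prod.fst_zero, Prod.snd_zero]
  exact (e.toEquiv.subtypeEquiv (p := fun x => ∏ j, (x + ((d j + 1 : ℕ) : ZMod (a * b))) = 0)
    (q := fun y : ZMod a × ZMod b => (∏ j, (y.1 + ((d j + 1 : ℕ) : ZMod a)) = 0) ∧
      (∏ j, (y.2 + ((d j + 1 : ℕ) : ZMod b)) = 0)) h1).trans
    (Equiv.subtypeProdEquivProd (p := fun y : ZMod a => ∏ j, (y + ((d j + 1 : ℕ) : ZMod a)) = 0)
      (q := fun y : ZMod b => ∏ j, (y + ((d j + 1 : ℕ) : ZMod b)) = 0))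

theorem NRt_prime {k : ℕ} (d : Fin k → ℕ) (p : ℕ) (hp : p.Prime) : NRt d p = rho d p := by
  have : Fact p.Prime := ⟨hp⟩
  unfold NRt rho
  rw [Nat.card_eq_fintype_card, Fintype.card_subtype]
  have h1 : (univ.filter fun x : ZMod p => ∏ j, (x + ((d j + 1 : ℕ) : ZMod p)) = 0) =
      univ.image fun j => -((d j + 1 : ℕ) : ZMod p) := by
    ext x
    simp only [mem_filter, mem_univ, true_and, mem_image, prod_eq_zero_iff]
    constructor
    · rintro ⟨j, hj⟩
      exact ⟨j, (eq_neg_of_add_eq_zero_left hj).symm⟩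
    · rintro ⟨j, hj⟩
      exact ⟨j, by rw [← hj]; simp⟩
  rw [h1]
  have h2 : (univ.image fun j => -((d j + 1 : ℕ) : ZMod p)) =
      (univ.image fun j => d j % p).image (fun m : ℕ => -((m + 1 : ℕ) : ZMod p)) := by
    rw [image_image]
    apply image_congr
    intro j _
    simp only [Function.comp_apply]
    push_cast
    rw [ZMod.natCast_mod]
  rw [h2]
  apply card_image_of_injOn
  intro m hm m' hm' h
  simp only [coe_image, Set.mem_image, coe_univ, Set.mem_univ, true_and] at hm hm'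
  obtain ⟨j, rfl⟩ := hm
  obtain ⟨j', rfl⟩ := hm'
  simp only at h
  rw [neg_inj] at h
  push_cast at h
  have h3 := add_right_cancel h
  have h4 := (ZMod.natCast_eq_natCast_iff' _ _ _).mp h3
  rwa [Nat.mod_mod, Nat.mod_mod] at h4

theorem periodic_dvd_fv {k : ℕ} (d : Fin k → ℕ) (l : ℕ) :
    Function.Periodic (fun x => l ∣ fv d x) l := by
  intro x
  simp only [eq_iff_iff]
  rw [← ZMod.natCast_eq_zero_iff, ← ZMod.natCast_eq_zero_iff, fv_cast, fv_cast]
  simp

theorem count_add_mul' (p : ℕ → Prop) [DecidablePred p] (d : ℕ) (hp : Function.Periodic p d)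
    (q r : ℕ) : Nat.count p (q * d + r) = q * Nat.count p d + Nat.count p r := by
  induction q with
  | zero => simp
  | succ q ih =>
    have h1 : (q + 1) * d + r = d + (q * d + r) := by ring
    rw [h1, Nat.count_add]
    have h2 : (fun k => p (d + k)) = p := by
      funext k
      rw [add_comm d k]
      exact hp k
    simp only [h2]
    rw [ih]; ring

theorem abs_count_sub' {k : ℕ} (e : Fin k → ℕ) (d N : ℕ) (hd : 0 < d) :
    |(Nat.count (fun x => d ∣ fv e x) N : ℝ) - N * (NRt e d : ℝ) / d| ≤ NRt e d := by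
  have h1 := count_add_mul' (fun x => d ∣ fv e x) d (periodic_dvd_fv e d) (N / d) (N % d)
  have h2 : N / d * d + N % d = N := Nat.div_add_mod' N d
  rw [h2, count_eq_NRt e d hd] at h1
  have h3 : Nat.count (fun x => d ∣ fv e x) (N % d) ≤ NRt e d := by
    rw [← count_eq_NRt e d hd]
    exact Nat.count_monotone _ (Nat.mod_lt N hd).le
  have h4 : ((N % d : ℕ) : ℝ) < d := by exact_mod_cast Nat.mod_lt N hd
  have h5 : (0:ℝ) ≤ ((N % d : ℕ) : ℝ) := Nat.cast_nonneg _
  have hd' : (0:ℝ) < d := by exact_mod_cast hd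
  have h6 : (N : ℝ) = ((N / d : ℕ) : ℝ) * d + ((N % d : ℕ) : ℝ) := by exact_mod_cast h2.symm
  rw [h1]
  have h7 : (N : ℝ) * (NRt e d : ℝ) / d =
      ((N / d : ℕ) : ℝ) * NRt e d + ((N % d : ℕ) : ℝ) * NRt e d / d := by
    rw [h6]
    field_simp
  rw [h7]
  push_cast
  set c : ℝ := (Nat.count (fun x => d ∣ fv e x) (N % d) : ℝ) with hc
  have h8 : c ≤ NRt e d := by rw [hc]; exact_mod_cast h3
  have h9 : 0 ≤ c := Nat.cast_nonneg _
  have h10 : ((N % d : ℕ) : ℝ) * NRt e d / d ≤ NRt e d := by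
    rw [div_le_iff₀ hd']
    have : (0:ℝ) ≤ NRt e d := Nat.cast_nonneg _
    nlinarith
  have h11 : 0 ≤ ((N % d : ℕ) : ℝ) * NRt e d / d := by positivity
  rw [abs_le]
  constructor <;> linarith

/-! ### the sieve -/

theorem PR_prime' {k y p : ℕ} (hp : p ∈ PR k y) : p.Prime ∧ k < p ∧ p ≤ y := by
  unfold PR at hp
  rw [mem_filter, mem_Ioc] at hp
  exact ⟨hp.2, hp.1.1, hp.1.2⟩

theorem PR_squarefree (k y : ℕ) : Squarefree (∏ p ∈ PR k y, p) := by
  refine Finset.squarefree_prod_of_pairwise_isCoprime (fun p hp q hq hpq => ?_) (fun p hp => ?_)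
  · exact Nat.coprime_iff_isRelPrime.mp
      ((Nat.coprime_primes (PR_prime' hp).1 (PR_prime' hq).1).mpr hpq)
  · exact (PR_prime' hp).1.prime.squarefree

theorem mem_PR_of_dvd {k y p : ℕ} (hp : p.Prime) (h : p ∣ ∏ p ∈ PR k y, p) : p ∈ PR k y := by
  rw [Prime.dvd_finsetProd_iff hp.prime] at h
  obtain ⟨q, hq, hpq⟩ := h
  rw [(Nat.prime_dvd_prime_iff_eq hp (PR_prime' hq).1).mp hpq]
  exact hq

/-- density -/
noncomputable def nuT {k : ℕ} (d : Fin k → ℕ) : ArithmeticFunction ℝ :=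
  ArithmeticFunction.prodPrimeFactors (fun p => (rho d p : ℝ) / p)

theorem nuT_prime {k : ℕ} (d : Fin k → ℕ) {p : ℕ} (hp : p.Prime) : nuT d p = (rho d p : ℝ) / p := by
  unfold nuT
  rw [ArithmeticFunction.prodPrimeFactors_apply hp.ne_zero, hp.primeFactors, prod_singleton]

theorem rho_pos {k : ℕ} (hk : 1 ≤ k) (d : Fin k → ℕ) (p : ℕ) : 0 < rho d p := by
  unfold rho
  rw [card_pos]
  exact ⟨_, mem_image_of_mem _ (mem_univ (⟨0, hk⟩ : Fin k))⟩

theorem rho_le {k : ℕ} (d : Fin k → ℕ) (p : ℕ) : rho d p ≤ k := by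
  unfold rho
  exact card_image_le.trans (by simp)

/-- the sieve instance -/
noncomputable def svT {k : ℕ} (hk : 1 ≤ k) (d : Fin k → ℕ) (x y : ℕ) : BoundingSieve where
  support := (range x).image (fun n => fv d n)
  prodPrimes := ∏ p ∈ PR k y, p
  prodPrimes_squarefree := PR_squarefree k y
  weights := fun _ => 1
  weights_nonneg := fun _ => zero_le_one
  totalMass := x
  nu := nuT d
  nu_mult := ArithmeticFunction.IsMultiplicative.prodPrimeFactors _
  nu_pos_of_prime := by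
    intro p hp _
    rw [nuT_prime d hp]
    have h1 : (0:ℝ) < rho d p := by exact_mod_cast rho_pos hk d p
    have h2 : (0:ℝ) < p := by exact_mod_cast hp.pos
    positivity
  nu_lt_one_of_prime := by
    intro p hp hpd
    rw [nuT_prime d hp]
    have h2 : (0:ℝ) < p := by exact_mod_cast hp.pos
    rw [div_lt_one h2]
    exact_mod_cast (rho_le d p).trans_lt (PR_prime' (mem_PR_of_dvd hp hpd)).2.1

theorem NRt_eq {k : ℕ} (hk : 1 ≤ k) (d : Fin k → ℕ) (y : ℕ) :
    ∀ l, l ∣ (∏ p ∈ PR k y, p) → NRt d l = ∏ p ∈ l.primeFactors, rho d p := by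
  have hsq := PR_squarefree k y
  intro l
  refine Nat.recOnPosPrimePosCoprime
    (motive := fun l => l ∣ (∏ p ∈ PR k y, p) → NRt d l = ∏ p ∈ l.primeFactors, rho d p)
    ?_ ?_ ?_ ?_ l
  · intro p m hp hm hl
    have hm1 : m = 1 := by
      have h1 := hsq.squarefree_of_dvd hl
      rcases (Nat.squarefree_pow_iff hp.ne_one hm.ne').mp h1 with ⟨_, h⟩
      exact h
    subst hm1
    rw [pow_one] at hl ⊢
    rw [hp.primeFactors, prod_singleton]
    exact NRt_prime d p hp
  · intro h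
    exact absurd (zero_dvd_iff.mp h) hsq.ne_zero
  · intro _
    simp [NRt_one hk]
  · intro a b _ _ hab ha hb hl
    rw [NRt_mul d a b hab, ha ((Nat.dvd_mul_right a b).trans hl), hb ((Nat.dvd_mul_left b a).trans hl),
      hab.primeFactors_mul, prod_union hab.disjoint_primeFactors]

theorem NRt_le {k : ℕ} (hk : 1 ≤ k) (d : Fin k → ℕ) (y : ℕ) (l : ℕ)
    (hl : l ∣ (∏ p ∈ PR k y, p)) : NRt d l ≤ l := by
  have hsq := PR_squarefree k y
  rw [NRt_eq hk d y l hl]
  conv_rhs => rw [← Nat.prod_primeFactors_of_squarefree (hsq.squarefree_of_dvd hl)]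
  apply prod_le_prod'
  intro p hp
  have hpp := Nat.prime_of_mem_primeFactors hp
  exact (rho_le d p).trans
    (PR_prime' (mem_PR_of_dvd hpp ((Nat.dvd_of_mem_primeFactors hp).trans hl))).2.1.le

theorem nuT_eq {k : ℕ} (hk : 1 ≤ k) (d : Fin k → ℕ) (y : ℕ) (l : ℕ)
    (hl : l ∣ (∏ p ∈ PR k y, p)) : nuT d l = (NRt d l : ℝ) / l := by
  have hsq := PR_squarefree k y
  have hl0 : l ≠ 0 := fun hc => hsq.ne_zero (by rw [hc] at hl; exact zero_dvd_iff.mp hl)
  rw [NRt_eq hk d y l hl]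
  have hdd : (l:ℝ) = ∏ p ∈ l.primeFactors, (p:ℝ) := by
    have h0 := Nat.prod_primeFactors_of_squarefree (hsq.squarefree_of_dvd hl)
    have h00 : ((∏ p ∈ l.primeFactors, p : ℕ) : ℝ) = (l : ℝ) := by rw [h0]
    rw [← h00]
    push_cast
    rfl
  have h1 : nuT d l = ∏ p ∈ l.primeFactors, (rho d p : ℝ) / p := by
    unfold nuT
    rw [ArithmeticFunction.prodPrimeFactors_apply hl0]
  rw [h1, prod_div_distrib, ← hdd]
  push_cast
  rfl

theorem fv_injective {k : ℕ} (hk : 1 ≤ k) (d : Fin k → ℕ) : Function.Injective (fv d) := by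
  have h : StrictMono (fv d) := by
    intro a b hab
    unfold fv
    apply prod_lt_prod_of_nonempty
    · intro j _; omega
    · intro j _; omega
    · exact ⟨⟨0, hk⟩, mem_univ _⟩
  exact h.injective

theorem multSum_eqT {k : ℕ} (hk : 1 ≤ k) (d : Fin k → ℕ) (x y l : ℕ) :
    (svT hk d x y).multSum l = (Nat.count (fun n => l ∣ fv d n) x : ℝ) := by
  unfold BoundingSieve.multSum
  change ∑ m ∈ (range x).image (fun n => fv d n), (if l ∣ m then (1:ℝ) else 0) = _
  rw [sum_image]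
  · rw [Nat.count_eq_card_filter_range, card_eq_sum_ones, sum_filter]
    push_cast
    rfl
  · intro a _ b _ hab
    exact fv_injective hk d hab

theorem rem_leT {k : ℕ} (hk : 1 ≤ k) (d : Fin k → ℕ) (x y l : ℕ)
    (hl : l ∣ (svT hk d x y).prodPrimes) : |(svT hk d x y).rem l| ≤ l := by
  have hl' : l ∣ (∏ p ∈ PR k y, p) := hl
  have hsq := PR_squarefree k y
  have hl0 : l ≠ 0 := fun hc => hsq.ne_zero (by rw [hc] at hl'; exact zero_dvd_iff.mp hl')
  unfold BoundingSieve.rem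
  rw [multSum_eqT]
  change |(Nat.count (fun n => l ∣ fv d n) x : ℝ) - nuT d l * x| ≤ l
  rw [nuT_eq hk d y l hl']
  have h1 := abs_count_sub' d l x (Nat.pos_of_ne_zero hl0)
  have h2 : (NRt d l : ℝ) / l * x = x * (NRt d l : ℝ) / l := by ring
  rw [h2]
  refine h1.trans ?_
  exact_mod_cast NRt_le hk d y l hl'

theorem nu_inv_leT {k : ℕ} (hk : 1 ≤ k) (d : Fin k → ℕ) (x y l : ℕ)
    (hl : l ∣ (svT hk d x y).prodPrimes) : ((svT hk d x y).nu l)⁻¹ ≤ l := by
  have hl' : l ∣ (∏ p ∈ PR k y, p) := hl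
  have hsq := PR_squarefree k y
  have hl0 : l ≠ 0 := fun hc => hsq.ne_zero (by rw [hc] at hl'; exact zero_dvd_iff.mp hl')
  change (nuT d l)⁻¹ ≤ l
  conv_rhs => rw [← Nat.prod_primeFactors_of_squarefree (hsq.squarefree_of_dvd hl')]
  unfold nuT
  rw [ArithmeticFunction.prodPrimeFactors_apply hl0, ← prod_inv_distrib]
  push_cast
  apply prod_le_prod
  · intro p _; positivity
  · intro p hp
    rw [inv_div]
    have h1 : (1:ℝ) ≤ rho d p := by exact_mod_cast rho_pos hk d p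
    exact div_le_self (Nat.cast_nonneg p) h1

theorem st_eqT {k : ℕ} (hk : 1 ≤ k) (d : Fin k → ℕ) (x y l : ℕ)
    (hl : l ∣ (∏ p ∈ PR k y, p)) :
    (svT hk d x y).selbergTerms l = ∏ p ∈ l.primeFactors, (rho d p : ℝ) / (p - rho d p) := by
  have hsq := PR_squarefree k y
  have hl0 : l ≠ 0 := fun hc => hsq.ne_zero (by rw [hc] at hl; exact zero_dvd_iff.mp hl)
  rw [BoundingSieve.selbergTerms_apply]
  change nuT d l * ∏ p ∈ l.primeFactors, (1 - nuT d p)⁻¹ = _
  have h1 : nuT d l = ∏ p ∈ l.primeFactors, (rho d p : ℝ) / p := by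
    unfold nuT; rw [ArithmeticFunction.prodPrimeFactors_apply hl0]
  rw [h1, ← prod_mul_distrib]
  apply prod_congr rfl
  intro p hp
  have hpp := Nat.prime_of_mem_primeFactors hp
  have hmem := mem_PR_of_dvd hpp ((Nat.dvd_of_mem_primeFactors hp).trans hl)
  rw [nuT_prime d hpp]
  have h2 : (0:ℝ) < p := by exact_mod_cast hpp.pos
  have h3 : (rho d p : ℝ) < p := by
    exact_mod_cast (rho_le d p).trans_lt (PR_prime' hmem).2.1
  have h4 : (p : ℝ) - rho d p ≠ 0 := (sub_pos.mpr h3).ne'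
  have h5 : 1 - (rho d p : ℝ) / p = (p - rho d p) / p := by field_simp
  rw [h5, inv_div]
  field_simp

theorem sifted_geT {k : ℕ} (hk : 1 ≤ k) (d : Fin k → ℕ) (x y : ℕ) :
    (#{n ∈ Icc 1 x | y < n ∧ ∀ j, (n + d j).Prime} : ℝ) ≤ (svT hk d x y).siftedSum := by
  unfold BoundingSieve.siftedSum
  change _ ≤ ∑ m ∈ (range x).image (fun n => fv d n),
    (if Nat.Coprime (∏ p ∈ PR k y, p) m then (1:ℝ) else 0)
  rw [sum_image (fun a _ b _ hab => fv_injective hk d hab)]
  have h1 : (#{n ∈ Icc 1 x | y < n ∧ ∀ j, (n + d j).Prime} : ℝ) =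
      ∑ n ∈ range x, if (y < n + 1 ∧ ∀ j, (n + 1 + d j).Prime) then (1 : ℝ) else 0 := by
    rw [card_eq_sum_ones, sum_filter]
    push_cast
    rw [← sum_image (s := range x) (g := fun n => n + 1)
      (f := fun n => if (y < n ∧ ∀ j, (n + d j).Prime) then (1 : ℝ) else 0)
      (fun a _ b _ hab => by simpa using hab)]
    apply sum_congr _ (fun _ _ => rfl)
    ext n
    simp only [mem_Icc, mem_image, mem_range]
    constructor
    · rintro ⟨h1, h2⟩
      exact ⟨n - 1, by omega, by omega⟩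
    · rintro ⟨m, hm, rfl⟩
      omega
  rw [h1]
  apply sum_le_sum
  intro n _
  by_cases hp : (y < n + 1 ∧ ∀ j, (n + 1 + d j).Prime)
  · rw [if_pos hp, if_pos]
    unfold fv
    apply Nat.Coprime.prod_right
    intro j _
    have hpj := hp.2 j
    have h2 : n + (d j + 1) = n + 1 + d j := by ring
    rw [h2]
    by_contra hcon
    have hdvd : n + 1 + d j ∣ ∏ p ∈ PR k y, p := by
      rw [Nat.coprime_comm, Nat.Prime.coprime_iff_not_dvd hpj] at hcon
      exact not_not.mp hcon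
    have := (PR_prime' (mem_PR_of_dvd hpj hdvd)).2.2
    omega
  · rw [if_neg hp]; split_ifs <;> norm_num

/-- Selberg upper bound sieve for prime tuples, in terms of the Selberg sum. -/
theorem tuple_selberg (k : ℕ) (hk : 1 ≤ k) (d : Fin k → ℕ) (hd : Function.Injective d)
    (x y z : ℕ) (hz : 1 ≤ z) :
    (#{n ∈ Icc 1 x | ∀ j, (n + d j).Prime} : ℝ) ≤
      y + x / (∑ l ∈ (∏ p ∈ PR k y, p).divisors with l ≤ z,
        ∏ p ∈ l.primeFactors, (rho d p : ℝ) / (p - rho d p)) + (z : ℝ) ^ 6 := by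
  have h1 : (#{n ∈ Icc 1 x | ∀ j, (n + d j).Prime} : ℝ) ≤
      y + (#{n ∈ Icc 1 x | y < n ∧ ∀ j, (n + d j).Prime} : ℝ) := by
    have h2 : ({n ∈ Icc 1 x | ∀ j, (n + d j).Prime} : Finset ℕ) ⊆
        Icc 1 y ∪ {n ∈ Icc 1 x | y < n ∧ ∀ j, (n + d j).Prime} := by
      intro n hn
      rw [mem_filter, mem_Icc] at hn
      rw [mem_union, mem_filter, mem_Icc, mem_Icc]
      by_cases h : y < n
      · exact Or.inr ⟨hn.1, h, hn.2⟩
      · exact Or.inl ⟨hn.1.1, by omega⟩
    have h3 := (card_le_card h2).trans (card_union_le _ _)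
    rw [Nat.card_Icc, Nat.add_sub_cancel] at h3
    exact_mod_cast h3
  have h4 := sifted_geT hk d x y
  have h5 := Pool.Agent.H646.Sel.selberg_bound (s := svT hk d x y) (z := z) hz
    (fun l hl => nu_inv_leT hk d x y l hl) (fun l hl => rem_leT hk d x y l hl)
  have h6 : Pool.Agent.H646.Sel.GS (svT hk d x y) z =
      ∑ l ∈ (∏ p ∈ PR k y, p).divisors with l ≤ z,
        ∏ p ∈ l.primeFactors, (rho d p : ℝ) / (p - rho d p) := by
    unfold Pool.Agent.H646.Sel.GS
    apply sum_congr rfl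
    intro l hl
    rw [mem_filter] at hl
    exact st_eqT hk d x y l (Nat.dvd_of_mem_divisors hl.1)
  rw [h6] at h5
  have h7 : (svT hk d x y).totalMass = x := rfl
  rw [h7] at h5
  linarith

end Pool.Agent.H646.Sv1M
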