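import Mathlib
import Pool.Agent.H646.Defs
import Pool.Agent.H646.Cheb
import Pool.Agent.H646.Tuples

namespace Pool.Agent.H646.CountM
open Finset
open Pool.Agent.H646.ChebM (P_le P_strictMono le_P)
open Pool.Agent.H646.TuplesM (tuple_count)




-- the following four theorems are proved elsewhere: leave their sorry





/-- the analytic bound used at the end of `count_fixed` -/
theorem final_bound (k : ℕ) (C C₀ C₁ K1 X lx H L W N ε ℓ : ℝ) (hC : 0 < C) (hC₀ : 1 ≤ C₀)
    (hC₁ : 1 ≤ C₁) (hK1 : 0 < K1) (hX0 : 0 ≤ X) (hX : X ≤ 4 * C₀ * N * ℓ) (hℓ : 0 < ℓ)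
    (hlx : ℓ ≤ lx)
    (hH0 : 0 ≤ H) (hH : H ≤ (C₁ + K1) * W * ℓ) (hL0 : 0 ≤ L) (hL : L ≤ K1 * ε * ℓ)
    (hN : 0 ≤ N) (hε : 0 < ε) :
    C * X / lx ^ (k + 3) * H ^ 2 * L ^ k ≤
      (C * 4 * C₀ * (C₁ + K1) ^ 2 * K1 ^ k) * W ^ 2 * ε ^ k * N := by
  have hlx0 : 0 < lx := lt_of_lt_of_le hℓ hlx
  calc C * X / lx ^ (k + 3) * H ^ 2 * L ^ k
      ≤ C * (4 * C₀ * N * ℓ) / ℓ ^ (k + 3) * ((C₁ + K1) * W * ℓ) ^ 2 * (K1 * ε * ℓ) ^ k := by
        gcongr
    _ = (C * 4 * C₀ * (C₁ + K1) ^ 2 * K1 ^ k) * W ^ 2 * ε ^ k * N := by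
        have hne : ℓ ≠ 0 := hℓ.ne'
        rw [pow_add ℓ k 3, mul_pow (K1 * ε) ℓ k, mul_pow K1 ε k]
        field_simp

theorem log_bound (C₀ : ℝ) (hC₀ : 1 ≤ C₀) (N W : ℕ) (hNW : W ≤ N) (hN2 : 2 ≤ N) (p : ℝ)
    (hp : p ≤ C₀ * (((N + W : ℕ) : ℝ) * Real.log ((N + W : ℕ) : ℝ))) :
    p ≤ 4 * C₀ * N * Real.log N := by
  have hN2' : (2 : ℝ) ≤ N := by exact_mod_cast hN2
  have hNpos : (0 : ℝ) < N := by linarith
  have h1 : ((N + W : ℕ) : ℝ) ≤ 2 * N := by
    have : N + W ≤ 2 * N := by omega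
    exact_mod_cast this
  have h0 : (1 : ℝ) ≤ ((N + W : ℕ) : ℝ) := by
    have : 1 ≤ N + W := by omega
    exact_mod_cast this
  have h2 : Real.log ((N + W : ℕ) : ℝ) ≤ 2 * Real.log N := by
    have h3 : ((N + W : ℕ) : ℝ) ≤ (N : ℝ) ^ 2 := by nlinarith
    calc Real.log ((N + W : ℕ) : ℝ) ≤ Real.log ((N : ℝ) ^ 2) :=
          Real.log_le_log (by linarith) h3
      _ = 2 * Real.log N := by rw [Real.log_pow]; norm_num
  have hl0 : 0 ≤ Real.log ((N + W : ℕ) : ℝ) := Real.log_nonneg h0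
  have hC0' : 0 ≤ C₀ := by linarith
  calc p ≤ C₀ * (((N + W : ℕ) : ℝ) * Real.log ((N + W : ℕ) : ℝ)) := hp
    _ ≤ C₀ * ((2 * N) * (2 * Real.log N)) := by gcongr
    _ = 4 * C₀ * N * Real.log N := by ring

/-- target 1: windows with a pattern for a fixed `(a, q, S)` -/
theorem count_fixed (k m : ℕ) (C₁ : ℝ) (hC₁ : 1 ≤ C₁) :
    ∃ C > (0 : ℝ), ∀ W : ℕ, 1 ≤ W → ∀ ε : ℝ, 0 < ε → ε ≤ 1 → ∃ N₀ : ℕ, ∀ N : ℕ, N₀ ≤ N →
      ∀ (a q : ℕ) (S : Finset ℕ), 1 ≤ q → a + q * m ≤ W → S ⊆ range (m + 1) → #S = k + 3 →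
      ∀ T : Finset ℕ, T ⊆ range N →
      (∀ n ∈ T, (P (n + W) : ℝ) - P n ≤ C₁ * W * Real.log N ∧
        ∃ s b : ℝ, ∀ σ ∈ S, |(P (n + a + q * σ) : ℝ) - (s * σ + b)| ≤ ε * Real.log N) →
      (#T : ℝ) ≤ C * W ^ 2 * ε ^ k * N := by
  obtain ⟨C, hC, x₀, htc⟩ := tuple_count k
  obtain ⟨C₀, hC₀, hP⟩ := P_le
  set K1 : ℝ := 5 * (1 + m) with hK1
  have hK1pos : 0 < K1 := by positivity
  refine ⟨C * 4 * C₀ * (C₁ + K1) ^ 2 * K1 ^ k, by positivity, ?_⟩
  intro W hW ε hε hε1
  refine ⟨max (max x₀ W) (max 2 ⌈Real.exp (1 / ε)⌉₊), ?_⟩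
  intro N hN a q S hq haq hS hSc T hT hTn
  have hNx₀ : x₀ ≤ N := le_trans (le_trans (le_max_left _ _) (le_max_left _ _)) hN
  have hNW : W ≤ N := le_trans (le_trans (le_max_right _ _) (le_max_left _ _)) hN
  have hN2 : 2 ≤ N := le_trans (le_trans (le_max_left _ _) (le_max_right _ _)) hN
  have hNe : ⌈Real.exp (1 / ε)⌉₊ ≤ N := le_trans (le_trans (le_max_right _ _) (le_max_right _ _)) hN
  have hNpos : (0 : ℝ) < N := by
    have : 0 < N := by omega
    exact_mod_cast this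
  have hexp : Real.exp (1 / ε) ≤ N := le_trans (Nat.le_ceil _) (by exact_mod_cast hNe)
  set ℓ := Real.log N with hℓ
  have hℓε : 1 / ε ≤ ℓ := by
    rw [hℓ, Real.le_log_iff_exp_le hNpos]
    exact hexp
  have hη1 : 1 ≤ ε * ℓ := by
    have := mul_le_mul_of_nonneg_left hℓε hε.le
    rwa [mul_one_div, div_self hε.ne'] at this
  have hℓ1 : 1 ≤ ℓ := by
    have : 1 ≤ 1 / ε := by rw [le_div_iff₀ hε]; linarith
    linarith
  have hW1 : (1 : ℝ) ≤ W := by exact_mod_cast hW
  have hm0 : (0 : ℝ) ≤ m := Nat.cast_nonneg _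
  set η := ε * ℓ with hη
  set L : ℕ := ⌊4 * (1 + m) * η⌋₊ + 1 with hL
  set H : ℕ := ⌊C₁ * W * ℓ⌋₊ + L with hH
  have hη0 : 0 ≤ η := by linarith
  have hLr : (L : ℝ) ≤ K1 * ε * ℓ := by
    have h1 : ((⌊4 * (1 + m) * η⌋₊ : ℕ) : ℝ) ≤ 4 * (1 + m) * η := Nat.floor_le (by positivity)
    rw [hL, Nat.cast_add, Nat.cast_one]
    have h2 : K1 * ε * ℓ = 4 * (1 + m) * η + (1 + m) * η := by rw [hK1, hη]; ring
    rw [h2]
    nlinarith
  have hHr : (H : ℝ) ≤ (C₁ + K1) * W * ℓ := by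
    have h1 : ((⌊C₁ * W * ℓ⌋₊ : ℕ) : ℝ) ≤ C₁ * W * ℓ := Nat.floor_le (by positivity)
    rw [hH, Nat.cast_add]
    have h3 : K1 * ε * ℓ ≤ K1 * W * ℓ := by
      have : ε ≤ W := by linarith
      gcongr
    calc ((⌊C₁ * W * ℓ⌋₊ : ℕ) : ℝ) + (L : ℝ) ≤ C₁ * W * ℓ + K1 * W * ℓ := by linarith
      _ = (C₁ + K1) * W * ℓ := by ring
  -- the index embedding
  set e := S.orderEmbOfFin hSc with he
  have heS : ∀ j, e j ∈ S := fun j => S.orderEmbOfFin_mem hSc j
  have hem : ∀ j, e j ≤ m := by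
    intro j
    have := hS (heS j)
    rw [Finset.mem_range] at this
    omega
  have h01 : (0 : Fin (k + 3)) < 1 := by
    rw [Fin.lt_def]; simp
  have he01 : e 0 < e 1 := e.strictMono h01
  have he0 : ∀ j, e 0 ≤ e j := fun j => e.monotone (Fin.zero_le j)
  have haqe : ∀ j, a + q * e j ≤ W := by
    intro j
    have : q * e j ≤ q * m := Nat.mul_le_mul_left _ (hem j)
    omega
  -- the parametrisation
  let F : ℕ → ℕ × (Fin (k + 3) → ℕ) :=
    fun n => (P (n + a + q * e 0), fun j => P (n + a + q * e j) - P (n + a + q * e 0))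
  let lo : ℕ → Fin (k + 3) → ℤ := fun d j =>
    ⌈((e j : ℝ) - e 0) / ((e 1 : ℝ) - e 0) * d - 2 * (1 + m) * η⌉
  have hxN : N ≤ P (N + W) := by
    have := le_P (N + W)
    omega
  have hmain := htc (P (N + W)) (le_trans hNx₀ hxN) H L (by omega) (by omega) lo
  have hcard : #T ≤ #{w ∈ Icc 1 (P (N + W)) ×ˢ Fintype.piFinset (fun _ : Fin (k + 3) => Icc 0 H) |
          StrictMono w.2 ∧ w.2 0 = 0 ∧
          (∀ j : Fin (k + 3), 2 ≤ (j : ℕ) → lo (w.2 1) j ≤ w.2 j ∧ (w.2 j : ℤ) < lo (w.2 1) j + L) ∧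
          ∀ j, (w.1 + w.2 j).Prime} := by
    apply Finset.card_le_card_of_injOn F
    · intro n hn
      have hn' : n ∈ T := hn
      have hnN : n < N := Finset.mem_range.1 (hT hn')
      obtain ⟨hgap, s, b, hsb⟩ := hTn n hn'
      have hle0 : ∀ j, P (n + a + q * e 0) ≤ P (n + a + q * e j) := by
        intro j
        apply P_strictMono.monotone
        have := Nat.mul_le_mul_left q (he0 j)
        omega
      have hstrict : ∀ i j, i < j → P (n + a + q * e i) < P (n + a + q * e j) := by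
        intro i j hij
        apply P_strictMono
        have := Nat.mul_lt_mul_of_pos_left (e.strictMono hij) (by omega : 0 < q)
        omega
      have hcastsub : ∀ j, ((P (n + a + q * e j) - P (n + a + q * e 0) : ℕ) : ℝ) =
          (P (n + a + q * e j) : ℝ) - P (n + a + q * e 0) := fun j => Nat.cast_sub (hle0 j)
      rw [Finset.mem_coe, Finset.mem_filter, Finset.mem_product]
      refine ⟨⟨?_, ?_⟩, ?_, ?_, ?_, ?_⟩
      · rw [Finset.mem_Icc]
        refine ⟨?_, ?_⟩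
        · show 1 ≤ P (n + a + q * e 0)
          have := le_P (n + a + q * e 0)
          omega
        · show P (n + a + q * e 0) ≤ P (N + W)
          apply P_strictMono.monotone
          have := haqe 0
          omega
      · rw [Fintype.mem_piFinset]
        intro j
        rw [Finset.mem_Icc]
        refine ⟨Nat.zero_le _, ?_⟩
        show P (n + a + q * e j) - P (n + a + q * e 0) ≤ H
        have h1 : P (n + a + q * e j) - P (n + a + q * e 0) ≤ ⌊C₁ * W * ℓ⌋₊ := by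
          apply Nat.le_floor
          rw [hcastsub]
          have h2 : (P (n + a + q * e j) : ℝ) ≤ P (n + W) := by
            have : P (n + a + q * e j) ≤ P (n + W) := by
              apply P_strictMono.monotone
              have := haqe j
              omega
            exact_mod_cast this
          have h3 : (P n : ℝ) ≤ P (n + a + q * e 0) := by
            have : P n ≤ P (n + a + q * e 0) := by
              apply P_strictMono.monotone
              omega
            exact_mod_cast this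
          linarith
        omega
      · intro i j hij
        show P (n + a + q * e i) - P (n + a + q * e 0) < P (n + a + q * e j) - P (n + a + q * e 0)
        have h1 := hstrict i j hij
        have h2 := hle0 i
        omega
      · show P (n + a + q * e 0) - P (n + a + q * e 0) = 0
        omega
      · intro j _
        show lo (P (n + a + q * e 1) - P (n + a + q * e 0)) j ≤
            ((P (n + a + q * e j) - P (n + a + q * e 0) : ℕ) : ℤ) ∧
          ((P (n + a + q * e j) - P (n + a + q * e 0) : ℕ) : ℤ) <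
            lo (P (n + a + q * e 1) - P (n + a + q * e 0)) j + L
        set r : ℝ := ((e j : ℝ) - e 0) / ((e 1 : ℝ) - e 0) with hr
        have hd : (1 : ℝ) ≤ (e 1 : ℝ) - e 0 := by
          have : e 0 + 1 ≤ e 1 := he01
          have : ((e 0 : ℕ) : ℝ) + 1 ≤ e 1 := by exact_mod_cast this
          linarith
        have hnum0 : (0 : ℝ) ≤ (e j : ℝ) - e 0 := by
          have : ((e 0 : ℕ) : ℝ) ≤ e j := by exact_mod_cast he0 j
          linarith
        have hnumm : (e j : ℝ) - e 0 ≤ m := by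
          have h1 : ((e j : ℕ) : ℝ) ≤ m := by exact_mod_cast hem j
          have h2 : (0 : ℝ) ≤ ((e 0 : ℕ) : ℝ) := Nat.cast_nonneg _
          linarith
        have hr0 : 0 ≤ r := div_nonneg hnum0 (by linarith)
        have hrm : r ≤ m := by
          rw [hr, div_le_iff₀ (by linarith)]
          nlinarith
        have hrd : r * ((e 1 : ℝ) - e 0) = (e j : ℝ) - e 0 := by
          rw [hr]; field_simp
        have E0 := hsb (e 0) (heS 0)
        have E1 := hsb (e 1) (heS 1)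
        have Ej := hsb (e j) (heS j)
        rw [abs_le] at E0 E1 Ej
        have hs1 : s * (r * ((e 1 : ℝ) - e 0)) = s * ((e j : ℝ) - e 0) := by rw [hrd]
        -- deviation
        have hdev : |((P (n + a + q * e j) : ℝ) - P (n + a + q * e 0)) -
            r * ((P (n + a + q * e 1) : ℝ) - P (n + a + q * e 0))| ≤ 2 * (1 + m) * η := by
          have hident : ((P (n + a + q * e j) : ℝ) - P (n + a + q * e 0)) -
            r * ((P (n + a + q * e 1) : ℝ) - P (n + a + q * e 0)) =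
              (((P (n + a + q * e j) : ℝ) - (s * (e j : ℕ) + b)) -
                ((P (n + a + q * e 0) : ℝ) - (s * (e 0 : ℕ) + b))) -
              r * (((P (n + a + q * e 1) : ℝ) - (s * (e 1 : ℕ) + b)) -
                ((P (n + a + q * e 0) : ℝ) - (s * (e 0 : ℕ) + b))) := by
            linear_combination -hs1
          rw [hident]
          have hA : |((P (n + a + q * e j) : ℝ) - (s * (e j : ℕ) + b)) -
                ((P (n + a + q * e 0) : ℝ) - (s * (e 0 : ℕ) + b))| ≤ 2 * η := by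
            rw [abs_le]; constructor <;> linarith [E0.1, E0.2, Ej.1, Ej.2]
          have hB : |((P (n + a + q * e 1) : ℝ) - (s * (e 1 : ℕ) + b)) -
                ((P (n + a + q * e 0) : ℝ) - (s * (e 0 : ℕ) + b))| ≤ 2 * η := by
            rw [abs_le]; constructor <;> linarith [E0.1, E0.2, E1.1, E1.2]
          refine le_trans (abs_sub _ _) ?_
          rw [abs_mul, abs_of_nonneg hr0]
          have : r * |((P (n + a + q * e 1) : ℝ) - (s * (e 1 : ℕ) + b)) -
                ((P (n + a + q * e 0) : ℝ) - (s * (e 0 : ℕ) + b))| ≤ m * (2 * η) := by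
            apply mul_le_mul hrm hB (abs_nonneg _) hm0
          linarith
        rw [abs_le] at hdev
        have hc1 := hcastsub 1
        have hcj := hcastsub j
        constructor
        · apply Int.ceil_le.2
          rw [Int.cast_natCast, hcj, hc1]
          linarith [hdev.1]
        · have h4 := Int.le_ceil (r * ((P (n + a + q * e 1) - P (n + a + q * e 0) : ℕ) : ℝ) -
            2 * (1 + m) * η)
          have h5 : 4 * (1 + m) * η < (L : ℝ) := by
            rw [hL, Nat.cast_add, Nat.cast_one]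
            exact Nat.lt_floor_add_one _
          have h6 : (((P (n + a + q * e j) - P (n + a + q * e 0) : ℕ) : ℤ) : ℝ) <
              ((⌈r * ((P (n + a + q * e 1) - P (n + a + q * e 0) : ℕ) : ℝ) -
                2 * (1 + m) * η⌉ + (L : ℤ) : ℤ) : ℝ) := by
            rw [Int.cast_natCast, Int.cast_add, Int.cast_natCast, hcj]
            rw [hc1] at h4 ⊢
            linarith [hdev.2]
          exact Int.cast_lt.mp h6
      · intro j
        show (P (n + a + q * e 0) + (P (n + a + q * e j) - P (n + a + q * e 0))).Prime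
        rw [Nat.add_sub_cancel' (hle0 j)]
        exact Nat.prime_nth_prime _
    · intro n hn n' hn' hF
      have h1 : P (n + a + q * e 0) = P (n' + a + q * e 0) := congrArg Prod.fst hF
      have h2 := P_strictMono.injective h1
      omega
  have hcardR : (#T : ℝ) ≤ C * (P (N + W) : ℕ) / (Real.log (P (N + W) : ℕ)) ^ (k + 3) *
      (H : ℝ) ^ 2 * (L : ℝ) ^ k := by
    refine le_trans ?_ hmain
    exact_mod_cast hcard
  refine le_trans hcardR ?_
  apply final_bound k C C₀ C₁ K1 (P (N + W) : ℕ) (Real.log (P (N + W) : ℕ)) H L W N ε ℓ hC hC₀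
    hC₁ hK1pos (Nat.cast_nonneg _) ?_ (by linarith) ?_ (Nat.cast_nonneg _) hHr
    (Nat.cast_nonneg _) hLr hNpos.le hε
  · exact log_bound C₀ hC₀ N W hNW hN2 _ (hP (N + W) (by omega))
  · apply Real.log_le_log hNpos
    exact_mod_cast hxN

/-- target 2: windows with any pattern -/
theorem count_structured (k m : ℕ) (C₁ : ℝ) (hC₁ : 1 ≤ C₁) :
    ∃ C > (0 : ℝ), ∀ W : ℕ, 1 ≤ W → ∀ ε : ℝ, 0 < ε → ε ≤ 1 → ∃ N₀ : ℕ, ∀ N : ℕ, N₀ ≤ N →
      ∀ T : Finset ℕ, T ⊆ range N →
      (∀ n ∈ T, (P (n + W) : ℝ) - P n ≤ C₁ * W * Real.log N ∧ Str W m k ε N n) →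
      (#T : ℝ) ≤ C * W ^ 4 * ε ^ k * N := by
  classical
  obtain ⟨C, hC, hcf⟩ := count_fixed k m C₁ hC₁
  refine ⟨2 ^ (m + 2) * C, by positivity, ?_⟩
  intro W hW ε hε hε1
  obtain ⟨N₀, hN₀⟩ := hcf W hW ε hε hε1
  refine ⟨N₀, ?_⟩
  intro N hN T hT hTn
  set Tr : Finset (ℕ × ℕ × Finset ℕ) :=
    ((range (W + 1)) ×ˢ (Icc 1 W) ×ˢ (range (m + 1)).powerset).filter
      (fun t => t.1 + t.2.1 * m ≤ W ∧ #t.2.2 = k + 3) with hTr
  let sub : ℕ × ℕ × Finset ℕ → Finset ℕ := fun t => T.filter (fun n =>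
    ∃ s b : ℝ, ∀ σ ∈ t.2.2, |(P (n + t.1 + t.2.1 * σ) : ℝ) - (s * σ + b)| ≤ ε * Real.log N)
  have hcover : T ⊆ Tr.biUnion sub := by
    intro n hn
    obtain ⟨hgap, a, q, S, s, b, hq, haq, hS, hSc, hsb⟩ := hTn n hn
    have hm2 : k + 3 ≤ m + 1 := by
      rw [← hSc]
      have := Finset.card_le_card hS
      rwa [Finset.card_range] at this
    have hqm : q ≤ q * m := Nat.le_mul_of_pos_right q (by omega)
    rw [Finset.mem_biUnion]
    refine ⟨(a, q, S), ?_, ?_⟩
    · rw [hTr, Finset.mem_filter, Finset.mem_product, Finset.mem_product, Finset.mem_range,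
        Finset.mem_Icc, Finset.mem_powerset]
      refine ⟨⟨?_, ⟨hq, ?_⟩, hS⟩, haq, hSc⟩
      · show a < W + 1
        omega
      · show q ≤ W
        omega
    · exact Finset.mem_filter.2 ⟨hn, s, b, hsb⟩
  have hTrc : (#Tr : ℝ) ≤ 2 ^ (m + 2) * W ^ 2 := by
    have h1 : #Tr ≤ (W + 1) * (W * 2 ^ (m + 1)) := by
      refine le_trans (Finset.card_filter_le _ _) ?_
      rw [Finset.card_product, Finset.card_product, Finset.card_range, Nat.card_Icc,
        Finset.card_powerset, Finset.card_range]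
      simp
    have h2 : (W + 1) * (W * 2 ^ (m + 1)) ≤ 2 ^ (m + 2) * W ^ 2 := by
      calc (W + 1) * (W * 2 ^ (m + 1)) ≤ (2 * W) * (W * 2 ^ (m + 1)) :=
            Nat.mul_le_mul_right _ (by omega)
        _ = 2 ^ (m + 2) * W ^ 2 := by ring
    exact_mod_cast le_trans h1 h2
  have hsubc : ∀ t ∈ Tr, (#(sub t) : ℝ) ≤ C * W ^ 2 * ε ^ k * N := by
    intro t ht
    rw [hTr, Finset.mem_filter, Finset.mem_product, Finset.mem_product, Finset.mem_range,
        Finset.mem_Icc, Finset.mem_powerset] at ht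
    obtain ⟨⟨-, ⟨hq, -⟩, hS⟩, haq, hSc⟩ := ht
    apply hN₀ N hN t.1 t.2.1 t.2.2 hq haq hS hSc (sub t)
      (le_trans (Finset.filter_subset _ _) hT)
    intro n hn
    have hn' := Finset.mem_filter.1 hn
    exact ⟨(hTn n hn'.1).1, hn'.2⟩
  calc (#T : ℝ) ≤ #(Tr.biUnion sub) := by exact_mod_cast Finset.card_le_card hcover
    _ ≤ ∑ t ∈ Tr, (#(sub t) : ℝ) := by exact_mod_cast Finset.card_biUnion_le
    _ ≤ ∑ t ∈ Tr, C * W ^ 2 * ε ^ k * N := Finset.sum_le_sum hsubc
    _ = #Tr * (C * W ^ 2 * ε ^ k * N) := by rw [Finset.sum_const, nsmul_eq_mul]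
    _ ≤ (2 ^ (m + 2) * W ^ 2) * (C * W ^ 2 * ε ^ k * N) := by gcongr
    _ = 2 ^ (m + 2) * C * W ^ 4 * ε ^ k * N := by ring

end Pool.Agent.H646.CountM
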