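import Mathlib
import Pool.Agent.H646.Defs

namespace Pool.Agent.H646.Phase1aM
open Finset


theorem tele (g : ℤ → ℝ) (a b : ℤ) (h : a ≤ b) : ∑ x ∈ Ico a b, (g (x + 1) - g x) = g b - g a := by
  induction b, h using Int.leInduction with
  | base => simp
  | succ b hb ih =>
    have e : Ico a (b + 1) = insert b (Ico a b) := by
      ext x
      simp only [mem_Ico, mem_insert]
      omega
    rw [e, sum_insert (by simp), ih]
    ring

theorem tele_T (f : ℤ → ℝ) (hf : Monotone f) (v w : ℤ) (T : ℕ) (h : v + T ≤ w) :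
    ∑ x ∈ Ico (v + T) w, (f x - f (x - T)) ≤ T * (f w - f v) := by
  have h1 : ∀ x, f x - f (x - T) = ∑ i ∈ range T, (f (x - i) - f (x - i - 1)) := by
    intro x
    have := Finset.sum_range_sub' (fun i : ℕ => f (x - i)) T
    simp only [Nat.cast_zero, sub_zero] at this
    rw [← this]
    refine sum_congr rfl fun i _ => ?_
    push_cast
    rw [sub_sub]
  simp only [h1]
  rw [sum_comm]
  have h2 : ∀ i ∈ range T, ∑ x ∈ Ico (v + T) w, (f (x - i) - f (x - i - 1)) ≤ f w - f v := by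
    intro i hi
    rw [mem_range] at hi
    have := tele (fun x => f (x - i - 1)) (v + T) w h
    have e : ∀ x : ℤ, x + 1 - (i : ℤ) - 1 = x - i := fun x => by ring
    simp only [e] at this
    rw [this]
    have h3 : f (w - i - 1) ≤ f w := hf (by omega)
    have h4 : f v ≤ f (v + T - i - 1) := hf (by omega)
    linarith
  refine (sum_le_sum h2).trans ?_
  rw [sum_const, card_range, nsmul_eq_mul]

theorem sum_blocks (S : Finset ℤ) (l n : ℕ) :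
    ∑ j ∈ range n, #(S ∩ Ico ((j : ℤ) * l) (((j : ℤ) + 1) * l)) = #(S ∩ Ico (0 : ℤ) ((n : ℤ) * l)) := by
  induction n with
  | zero => simp
  | succ n ih =>
    rw [sum_range_succ, ih]
    have e : Ico (0 : ℤ) (((n + 1 : ℕ) : ℤ) * l) = Ico (0 : ℤ) ((n : ℤ) * l) ∪ Ico ((n : ℤ) * l) (((n : ℤ) + 1) * l) := by
      push_cast
      rw [Ico_union_Ico_eq_Ico]
      · positivity
      · nlinarith [(Int.natCast_nonneg l : (0 : ℤ) ≤ l)]
    rw [e, inter_union_distrib_left, card_union_of_disjoint]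
    refine Finset.disjoint_left.2 fun x hx hx' => ?_
    have h1 := (mem_Ico.1 (mem_inter.1 hx).2).2
    have h2 := (mem_Ico.1 (mem_inter.1 hx').2).1
    omega

open Classical in
theorem blockA (δ C η' : ℝ) (hδ : 0 < δ) (hC : 0 < C) (hη' : 0 < η') (W l T : ℕ) (hl : 1 ≤ l)
    (hlW : (l : ℝ) ≤ δ * W / 4) (hlW' : l ≤ W) (f : ℤ → ℝ) (G : Finset ℤ) (hf : Monotone f)
    (hfW : f W - f 0 ≤ C * W) (hG : G ⊆ Ico (0 : ℤ) W) (hGc : δ * W ≤ #G)
    (hE : (#{x ∈ Ico (0 : ℤ) W | (∃ u ∈ G, x - l ≤ u ∧ u ≤ x) ∧ ¬ ∃ u ∈ G, x - T ≤ u ∧ u ≤ x} : ℝ) ≤ η' * W) :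
    ∃ v w : ℤ, 0 ≤ v ∧ v ≤ w ∧ w ≤ W ∧ w - v ≤ l ∧ δ / 4 * l ≤ #(G ∩ Ico v w) ∧
      (#(G ∩ Ico v w) : ℝ) ≤ w - v ∧ f w - f v ≤ 4 * C / δ * (w - v) ∧
      (#{x ∈ Ico v w | ¬ ∃ u ∈ G, x - T ≤ u ∧ u ≤ x} : ℝ) ≤ 4 * η' / δ * (w - v) := by
  set SE := {x ∈ Ico (0 : ℤ) W | (∃ u ∈ G, x - l ≤ u ∧ u ≤ x) ∧ ¬ ∃ u ∈ G, x - T ≤ u ∧ u ≤ x} with hSE
  set nb := W / l with hnb
  have hl0 : (0 : ℝ) < l := by exact_mod_cast hl
  have hnb1 : 1 ≤ nb := (Nat.one_le_div_iff (by omega)).2 hlW'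
  have hnbW : nb * l ≤ W := Nat.div_mul_le_self W l
  have hnbW' : W < nb * l + l := by
    have := Nat.lt_div_mul_add (a := W) (b := l) (by omega)
    exact this
  have hnbWz : (nb : ℤ) * l ≤ W := by exact_mod_cast hnbW
  have hnbWz' : (W : ℤ) < (nb : ℤ) * l + l := by exact_mod_cast hnbW'
  have hnbWr : (nb : ℝ) * l ≤ W := by exact_mod_cast hnbW
  -- the three sums
  have s1 : δ * W - l ≤ ∑ j ∈ range nb, (#(G ∩ Ico ((j : ℤ) * l) (((j : ℤ) + 1) * l)) : ℝ) := by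
    have h1 : (∑ j ∈ range nb, (#(G ∩ Ico ((j : ℤ) * l) (((j : ℤ) + 1) * l)) : ℝ)) =
        (#(G ∩ Ico (0 : ℤ) ((nb : ℤ) * l)) : ℝ) := by
      rw [← sum_blocks]; push_cast; rfl
    rw [h1]
    have h2 : G ⊆ (G ∩ Ico (0 : ℤ) ((nb : ℤ) * l)) ∪ Ico ((nb : ℤ) * l) W := by
      intro x hx
      have hx' := mem_Ico.1 (hG hx)
      by_cases hxx : x < (nb : ℤ) * l
      · exact mem_union_left _ (mem_inter.2 ⟨hx, mem_Ico.2 ⟨hx'.1, hxx⟩⟩)
      · exact mem_union_right _ (mem_Ico.2 ⟨not_lt.1 hxx, hx'.2⟩)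
    have h3 := (card_le_card h2).trans (card_union_le _ _)
    rw [Int.card_Ico] at h3
    have h4 : ((W : ℤ) - (nb : ℤ) * l).toNat ≤ l := by omega
    have h6 : #G ≤ #(G ∩ Ico (0 : ℤ) ((nb : ℤ) * l)) + l := h3.trans (Nat.add_le_add_left h4 _)
    have h5 : (#G : ℝ) ≤ #(G ∩ Ico (0 : ℤ) ((nb : ℤ) * l)) + l := by
      exact_mod_cast h6
    linarith
  have s2 : ∑ j ∈ range nb, (#(SE ∩ Ico ((j : ℤ) * l) (((j : ℤ) + 1) * l)) : ℝ) ≤ η' * W := by
    have h1 : (∑ j ∈ range nb, (#(SE ∩ Ico ((j : ℤ) * l) (((j : ℤ) + 1) * l)) : ℝ)) =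
        (#(SE ∩ Ico (0 : ℤ) ((nb : ℤ) * l)) : ℝ) := by
      rw [← sum_blocks]; push_cast; rfl
    rw [h1]
    refine le_trans ?_ hE
    exact_mod_cast card_le_card inter_subset_left
  have s3 : ∑ j ∈ range nb, (f (((j : ℤ) + 1) * l) - f ((j : ℤ) * l)) ≤ C * W := by
    have h1 := Finset.sum_range_sub (fun j : ℕ => f ((j : ℤ) * l)) nb
    simp only [Nat.cast_zero, zero_mul, Nat.cast_add, Nat.cast_one] at h1
    rw [h1]
    have := hf hnbWz
    linarith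
  have hsum : ∑ _j ∈ range nb, (δ / 4 * l) ≤ ∑ j ∈ range nb,
      ((#(G ∩ Ico ((j : ℤ) * l) (((j : ℤ) + 1) * l)) : ℝ)
        - δ / (4 * η') * #(SE ∩ Ico ((j : ℤ) * l) (((j : ℤ) + 1) * l))
        - δ / (4 * C) * (f (((j : ℤ) + 1) * l) - f ((j : ℤ) * l))) := by
    rw [sum_const, card_range, nsmul_eq_mul, sum_sub_distrib, sum_sub_distrib, ← mul_sum, ← mul_sum]
    have h1 := mul_le_mul_of_nonneg_left s2 (by positivity : 0 ≤ δ / (4 * η'))
    have h2 := mul_le_mul_of_nonneg_left s3 (by positivity : 0 ≤ δ / (4 * C))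
    have h3 : δ / (4 * η') * (η' * W) = δ * W / 4 := by field_simp
    have h4 : δ / (4 * C) * (C * W) = δ * W / 4 := by field_simp
    rw [h3] at h1
    rw [h4] at h2
    have h5 : (nb : ℝ) * (δ / 4 * l) ≤ δ * W / 4 := by
      have := mul_le_mul_of_nonneg_left hnbWr (by positivity : 0 ≤ δ / 4)
      linarith
    linarith
  obtain ⟨j, hj, hj'⟩ := exists_le_of_sum_le (by simpa using (by omega : nb ≠ 0)) hsum
  rw [mem_range] at hj
  set V := Ico ((j : ℤ) * l) (((j : ℤ) + 1) * l) with hV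
  have hdf : 0 ≤ f (((j : ℤ) + 1) * l) - f ((j : ℤ) * l) := by
    have := hf (show (j : ℤ) * l ≤ ((j : ℤ) + 1) * l by nlinarith [(Int.natCast_nonneg l : (0 : ℤ) ≤ l)])
    linarith
  have hE0 : (0 : ℝ) ≤ #(SE ∩ V) := by positivity
  have p2 : 0 ≤ δ / (4 * η') * (#(SE ∩ V) : ℝ) := by positivity
  have p3 : 0 ≤ δ / (4 * C) * (f (((j : ℤ) + 1) * l) - f ((j : ℤ) * l)) := mul_nonneg (by positivity) hdf
  have q0 : 0 < δ / 4 * l := by positivity
  have q1 : δ / 4 * l ≤ (#(G ∩ V) : ℝ) := by linarith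
  have q2 : (#(SE ∩ V) : ℝ) ≤ 4 * η' / δ * #(G ∩ V) := by
    have h1 : δ / (4 * η') * (#(SE ∩ V) : ℝ) ≤ #(G ∩ V) := by linarith
    rw [div_mul_eq_mul_div, div_le_iff₀ (by positivity)] at h1
    rw [div_mul_eq_mul_div, le_div_iff₀ hδ]
    linarith
  have q3 : f (((j : ℤ) + 1) * l) - f ((j : ℤ) * l) ≤ 4 * C / δ * #(G ∩ V) := by
    have h1 : δ / (4 * C) * (f (((j : ℤ) + 1) * l) - f ((j : ℤ) * l)) ≤ #(G ∩ V) := by linarith
    rw [div_mul_eq_mul_div, div_le_iff₀ (by positivity)] at h1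
    rw [div_mul_eq_mul_div, le_div_iff₀ hδ]
    linarith
  have hne : (G ∩ V).Nonempty := by
    rw [← card_pos]
    have : (0 : ℝ) < #(G ∩ V) := q0.trans_le q1
    exact_mod_cast this
  set v := (G ∩ V).min' hne with hv
  set w : ℤ := ((j : ℤ) + 1) * l with hw
  have hvm : v ∈ G ∩ V := min'_mem _ _
  have hvG : v ∈ G := (mem_inter.1 hvm).1
  have hvV := mem_Ico.1 (mem_inter.1 hvm).2
  have hGV : G ∩ Ico v w = G ∩ V := by
    ext x
    simp only [mem_inter, hV, mem_Ico]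
    constructor
    · rintro ⟨h1, h2, h3⟩
      exact ⟨h1, hvV.1.trans h2, h3⟩
    · rintro ⟨h1, h2, h3⟩
      refine ⟨h1, min'_le _ _ ?_, h3⟩
      rw [hV]
      exact mem_inter.2 ⟨h1, mem_Ico.2 ⟨h2, h3⟩⟩
  have hwW : w ≤ W := by
    have h1 : ((j : ℤ) + 1) * l ≤ (nb : ℤ) * l := by
      have : (j : ℤ) + 1 ≤ nb := by exact_mod_cast hj
      exact mul_le_mul_of_nonneg_right this (Int.natCast_nonneg l)
    exact h1.trans hnbWz
  have hvw : w - v ≤ l := by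
    have h1 : w = (j : ℤ) * l + l := by rw [hw]; ring
    linarith [hvV.1]
  have hcw : (#(G ∩ Ico v w) : ℝ) ≤ w - v := by
    have h1 := card_le_card (inter_subset_right : G ∩ Ico v w ⊆ Ico v w)
    rw [Int.card_Ico] at h1
    have h2 : ((w - v).toNat : ℤ) = w - v := Int.toNat_of_nonneg (by linarith [hvV.2])
    have h3 : (#(G ∩ Ico v w) : ℤ) ≤ w - v := by rw [← h2]; exact_mod_cast h1
    exact_mod_cast h3
  refine ⟨v, w, ?_, hvV.2.le, hwW, hvw, ?_, hcw, ?_, ?_⟩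
  · exact (mem_Ico.1 (hG hvG)).1
  · rw [hGV]; exact q1
  · have h1 : f ((j : ℤ) * l) ≤ f v := hf hvV.1
    rw [← hGV] at q3
    have h2 := mul_le_mul_of_nonneg_left hcw (by positivity : 0 ≤ 4 * C / δ)
    linarith
  · rw [← hGV] at q2
    have h2 := mul_le_mul_of_nonneg_left hcw (by positivity : 0 ≤ 4 * η' / δ)
    refine le_trans ?_ (q2.trans h2)
    have h3 : {x ∈ Ico v w | ¬ ∃ u ∈ G, x - T ≤ u ∧ u ≤ x} ⊆ SE ∩ V := by
      intro x hx
      rw [mem_filter, mem_Ico] at hx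
      have h0v : 0 ≤ v := (mem_Ico.1 (hG hvG)).1
      refine mem_inter.2 ⟨?_, ?_⟩
      · rw [hSE, mem_filter, mem_Ico]
        refine ⟨⟨h0v.trans hx.1.1, hx.1.2.trans_le hwW⟩, ⟨v, hvG, ?_, hx.1.1⟩, hx.2⟩
        linarith [hx.1.2]
      · rw [hV, mem_Ico]
        exact ⟨hvV.1.trans hx.1.1, hx.1.2⟩
    exact_mod_cast card_le_card h3

set_option maxHeartbeats 1000000 in
open Classical in
/-- choice of a scale `T` and an interval `[v, w)` in which almost every point is within `T` of `G` -/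
theorem phase1a (δ C η : ℝ) (hδ : 0 < δ) (hδ1 : δ ≤ 1) (hC : 1 ≤ C) (hη : 0 < η) :
    ∃ K : ℝ, 1 ≤ K ∧ ∀ A : ℕ, 1 ≤ A → ∃ c > (0 : ℝ), ∃ W₀ : ℕ, ∀ W : ℕ, W₀ ≤ W →
      ∀ (f : ℤ → ℝ) (G : Finset ℤ), Monotone f → f W - f 0 ≤ C * W →
        G ⊆ Ico (0 : ℤ) W → δ * W ≤ #G →
        ∃ (v w : ℤ) (T : ℕ), 0 ≤ v ∧ v ≤ w ∧ w ≤ W ∧ 1 ≤ T ∧ (W : ℝ) ^ c ≤ T ∧
          (T : ℝ) ^ A ≤ 8 / δ * (w - v) ∧ f w - f v ≤ 4 * C / δ * (w - v) ∧
          δ / 4 * (w - v) ≤ #(G ∩ Ico v w) ∧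
          (#{x ∈ Ico v w | ¬ (v ≤ x - T ∧ f x - f (x - T) ≤ K * T ∧ ∃ u ∈ G, x - T ≤ u ∧ u ≤ x)} : ℝ)
            ≤ η * (w - v) := by
  set η' : ℝ := δ * η / 12 with hη'
  have hη'0 : 0 < η' := by positivity
  refine ⟨max 1 (12 * C / (δ * η)), le_max_left _ _, ?_⟩
  set K : ℝ := max 1 (12 * C / (δ * η)) with hK
  have hK1 : 12 * C / (δ * η) ≤ K := le_max_right _ _
  have hK0 : 0 < K := lt_of_lt_of_le one_pos (le_max_left _ _)
  intro A hA
  obtain ⟨N, hN⟩ := exists_nat_gt (1 / η')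
  have hNpos : 0 < N := by
    have : (0 : ℝ) < N := lt_trans (by positivity) hN
    exact_mod_cast this
  set A' : ℕ := max A 2 with hA'
  have hA'2 : 2 ≤ A' := le_max_right _ _
  have hA'r : (2 : ℝ) ≤ A' := by exact_mod_cast hA'2
  have hA'0 : (0 : ℝ) < A' := by linarith
  set κ : ℕ → ℝ := fun m => 1 / 2 * (A' : ℝ) ^ m / (A' : ℝ) ^ N with hκ
  have hκpos : ∀ m, 0 < κ m := fun m => by rw [hκ]; positivity
  have hκs : ∀ m, κ (m + 1) = κ m * A' := fun m => by rw [hκ]; simp only; rw [pow_succ]; ring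
  have hκmono : ∀ m n, m ≤ n → κ m ≤ κ n := fun m n h => by
    rw [hκ]
    simp only
    have : (A' : ℝ) ^ m ≤ (A' : ℝ) ^ n := pow_le_pow_right₀ (by linarith) h
    exact div_le_div_of_nonneg_right (by linarith) (by positivity)
  have hκN : κ N = 1 / 2 := by
    rw [hκ]; simp only
    rw [mul_div_assoc, div_self (by positivity), mul_one]
  set c : ℝ := κ 0 / 2 with hc
  have hc0 : 0 < c := by have := hκpos 0; positivity
  refine ⟨c, hc0, ?_⟩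
  have ev : ∀ᶠ W : ℕ in Filter.atTop, 1 ≤ W ∧ (2 : ℝ) ≤ (W : ℝ) ^ c ∧ 24 / (η * δ) ≤ (W : ℝ) ^ c ∧
      4 / δ ≤ (W : ℝ) ^ (1 / 2 : ℝ) := by
    have t1 : Filter.Tendsto (fun W : ℕ => (W : ℝ) ^ c) Filter.atTop Filter.atTop :=
      (tendsto_rpow_atTop hc0).comp tendsto_natCast_atTop_atTop
    have t2 : Filter.Tendsto (fun W : ℕ => (W : ℝ) ^ (1 / 2 : ℝ)) Filter.atTop Filter.atTop :=
      (tendsto_rpow_atTop (by norm_num)).comp tendsto_natCast_atTop_atTop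
    filter_upwards [Filter.eventually_ge_atTop 1, t1.eventually_ge_atTop 2,
      t1.eventually_ge_atTop (24 / (η * δ)), t2.eventually_ge_atTop (4 / δ)] with W h1 h2 h3 h4
    exact ⟨h1, h2, h3, h4⟩
  obtain ⟨W₀, hW₀⟩ := Filter.eventually_atTop.1 ev
  refine ⟨W₀, fun W hW f G hf hfW hG hGc => ?_⟩
  obtain ⟨hW1, hWc2, hWc24, hWh⟩ := hW₀ W hW
  have hW1r : (1 : ℝ) ≤ W := by exact_mod_cast hW1
  have hW0r : (0 : ℝ) < W := by linarith
  -- scales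
  set Ts : ℕ → ℕ := fun m => ⌊(W : ℝ) ^ κ m⌋₊ with hTs
  have hTs1 : ∀ m, 1 ≤ Ts m := fun m => by
    rw [hTs]; simp only
    rw [Nat.one_le_floor_iff]
    exact Real.one_le_rpow hW1r (hκpos m).le
  have hTsle : ∀ m, (Ts m : ℝ) ≤ (W : ℝ) ^ κ m := fun m => Nat.floor_le (by positivity)
  have hTslt : ∀ m, (W : ℝ) ^ κ m < Ts m + 1 := fun m => Nat.lt_floor_add_one _
  have hTsmono : ∀ m n, m ≤ n → Ts m ≤ Ts n := fun m n h =>
    Nat.floor_le_floor (Real.rpow_le_rpow_of_exponent_le hW1r (hκmono m n h))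
  have hTspow : ∀ m, (Ts m : ℝ) ^ A' ≤ 2 * Ts (m + 1) := fun m => by
    have h1 : (Ts m : ℝ) ^ A' ≤ ((W : ℝ) ^ κ m) ^ A' := pow_le_pow_left₀ (by positivity) (hTsle m) _
    have h2 : ((W : ℝ) ^ κ m) ^ A' = (W : ℝ) ^ κ (m + 1) := by
      rw [hκs, Real.rpow_mul hW0r.le, Real.rpow_natCast]
    have h3 : (1 : ℝ) ≤ Ts (m + 1) := by exact_mod_cast hTs1 (m + 1)
    have h4 := hTslt (m + 1)
    linarith
  have hTsc : ∀ m, (W : ℝ) ^ c ≤ Ts m := fun m => by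
    have h1 : (Ts 0 : ℝ) ≤ Ts m := by exact_mod_cast hTsmono 0 m (Nat.zero_le m)
    have h2 := hTslt 0
    have h3 : (W : ℝ) ^ κ 0 = (W : ℝ) ^ c * (W : ℝ) ^ c := by
      rw [← Real.rpow_add hW0r]; congr 1; rw [hc]; ring
    nlinarith
  -- the counting function
  set d : ℕ → ℕ := fun t => #{x ∈ Ico (0 : ℤ) W | ∃ u ∈ G, x - t ≤ u ∧ u ≤ x} with hd
  have hdsub : ∀ s t : ℕ, s ≤ t → {x ∈ Ico (0 : ℤ) W | ∃ u ∈ G, x - s ≤ u ∧ u ≤ x} ⊆
      {x ∈ Ico (0 : ℤ) W | ∃ u ∈ G, x - t ≤ u ∧ u ≤ x} := by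
    intro s t hst x hx
    rw [mem_filter] at hx ⊢
    obtain ⟨hx1, u, hu1, hu2, hu3⟩ := hx
    exact ⟨hx1, u, hu1, by omega, hu3⟩
  have hdW : ∀ t, d t ≤ W := fun t => by
    exact (card_le_card (filter_subset (fun x : ℤ => ∃ u ∈ G, x - t ≤ u ∧ u ≤ x) (Ico (0 : ℤ) W))).trans (by simp)
  have hpig : ∃ m ∈ range N, ((d (Ts (m + 1)) : ℝ) - d (Ts m)) ≤ η' * W := by
    refine exists_le_of_sum_le (by simpa using hNpos.ne') ?_
    rw [Finset.sum_range_sub (fun m => (d (Ts m) : ℝ)), sum_const, card_range, nsmul_eq_mul]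
    have h1 : (d (Ts N) : ℝ) ≤ W := by exact_mod_cast hdW _
    have h2 : (0 : ℝ) ≤ d (Ts 0) := by positivity
    have h3 : 1 ≤ (N : ℝ) * η' := by
      rw [div_lt_iff₀ hη'0] at hN; exact hN.le
    have h4 := mul_le_mul_of_nonneg_right h3 hW0r.le
    linarith
  obtain ⟨m, hm, hmd⟩ := hpig
  rw [mem_range] at hm
  have hTl : Ts m ≤ Ts (m + 1) := hTsmono m (m + 1) (Nat.le_succ m)
  have hE : (#{x ∈ Ico (0 : ℤ) W | (∃ u ∈ G, x - (Ts (m + 1) : ℕ) ≤ u ∧ u ≤ x) ∧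
      ¬ ∃ u ∈ G, x - (Ts m : ℕ) ≤ u ∧ u ≤ x} : ℝ) ≤ η' * W := by
    refine le_trans (le_of_eq ?_) hmd
    have h1 : {x ∈ Ico (0 : ℤ) W | (∃ u ∈ G, x - (Ts (m + 1) : ℕ) ≤ u ∧ u ≤ x) ∧
      ¬ ∃ u ∈ G, x - (Ts m : ℕ) ≤ u ∧ u ≤ x} = {x ∈ Ico (0 : ℤ) W | ∃ u ∈ G, x - (Ts (m + 1) : ℕ) ≤ u ∧ u ≤ x} \
        {x ∈ Ico (0 : ℤ) W | ∃ u ∈ G, x - (Ts m : ℕ) ≤ u ∧ u ≤ x} := by
      ext x
      rw [mem_sdiff, mem_filter, mem_filter, mem_filter]
      constructor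
      · rintro ⟨h1, h2, h3⟩
        exact ⟨⟨h1, h2⟩, fun h => h3 h.2⟩
      · rintro ⟨⟨h1, h2⟩, h3⟩
        exact ⟨h1, h2, fun h => h3 ⟨h1, h⟩⟩
    rw [h1, card_sdiff_of_subset (hdsub _ _ hTl), Nat.cast_sub (card_le_card (hdsub _ _ hTl))]
  have hhalf : (Ts (m + 1) : ℝ) ≤ (W : ℝ) ^ (1 / 2 : ℝ) := by
    refine (hTsle (m + 1)).trans ?_
    rw [← hκN]
    exact Real.rpow_le_rpow_of_exponent_le hW1r (hκmono _ _ hm)
  have hsq : (W : ℝ) ^ (1 / 2 : ℝ) * (W : ℝ) ^ (1 / 2 : ℝ) = W := by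
    rw [← Real.rpow_add hW0r]; norm_num
  have hlW : (Ts (m + 1) : ℝ) ≤ δ * W / 4 := by
    have h1 : (W : ℝ) ^ (1 / 2 : ℝ) ≤ δ * W / 4 := by
      rw [div_le_iff₀ hδ] at hWh
      have h2 : 0 < (W : ℝ) ^ (1 / 2 : ℝ) := by positivity
      nlinarith
    linarith
  have hlW' : Ts (m + 1) ≤ W := by
    have h1 : (Ts (m + 1) : ℝ) ≤ W := by
      refine hlW.trans ?_
      nlinarith
    exact_mod_cast h1
  obtain ⟨v, w, b1, b2, b3, b4, b5, b6, b7, b8⟩ := blockA δ C η' hδ (by linarith) hη'0 W (Ts (m + 1)) (Ts m)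
    (hTs1 _) hlW hlW' f G hf hfW hG hGc hE
  have b2r : (0 : ℝ) ≤ (w : ℝ) - v := by
    have : (v : ℝ) ≤ w := by exact_mod_cast b2
    linarith
  have b4r : (w : ℝ) - v ≤ Ts (m + 1) := by exact_mod_cast b4
  have hT0 : (0 : ℝ) < Ts m := by exact_mod_cast hTs1 m
  have hT1 : (1 : ℝ) ≤ Ts m := by exact_mod_cast hTs1 m
  refine ⟨v, w, Ts m, b1, b2, b3, hTs1 m, hTsc m, ?_, b7, ?_, ?_⟩
  · have h1 : (Ts m : ℝ) ^ A ≤ (Ts m : ℝ) ^ A' := pow_le_pow_right₀ hT1 (le_max_left _ _)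
    have h2 := hTspow m
    have h3 : (Ts (m + 1) : ℝ) ≤ 4 / δ * (w - v) := by
      have : δ / 4 * (Ts (m + 1) : ℝ) ≤ w - v := b5.trans b6
      rw [div_mul_eq_mul_div, le_div_iff₀ hδ]
      linarith
    have h4 : 8 / δ * ((w : ℝ) - v) = 2 * (4 / δ * (w - v)) := by ring
    rw [h4]; linarith
  · refine le_trans ?_ b5
    exact mul_le_mul_of_nonneg_left b4r (by positivity)
  · -- bad points
    set T := Ts m with hT
    set P1 := {x ∈ Ico v w | ¬ ∃ u ∈ G, x - (T : ℕ) ≤ u ∧ u ≤ x} with hP1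
    set P2 := Ico v (v + T) with hP2
    set P3 := {x ∈ Ico (v + T) w | K * T < f x - f (x - T)} with hP3
    have hsub : {x ∈ Ico v w | ¬ (v ≤ x - T ∧ f x - f (x - T) ≤ K * T ∧ ∃ u ∈ G, x - T ≤ u ∧ u ≤ x)} ⊆
        (P1 ∪ P2) ∪ P3 := by
      intro x hx
      rw [mem_filter, mem_Ico] at hx
      obtain ⟨⟨hx1, hx2⟩, hx3⟩ := hx
      by_cases h1 : ∃ u ∈ G, x - T ≤ u ∧ u ≤ x
      · by_cases h2 : v ≤ x - T
        · refine mem_union_right _ ?_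
          rw [hP3, mem_filter, mem_Ico]
          refine ⟨⟨by linarith, hx2⟩, ?_⟩
          by_contra h3
          exact hx3 ⟨h2, not_lt.1 h3, h1⟩
        · refine mem_union_left _ (mem_union_right _ ?_)
          rw [hP2, mem_Ico]
          exact ⟨hx1, by linarith⟩
      · refine mem_union_left _ (mem_union_left _ ?_)
        rw [hP1, mem_filter, mem_Ico]
        exact ⟨⟨hx1, hx2⟩, h1⟩
    have hcard := (card_le_card hsub).trans ((card_union_le _ _).trans (Nat.add_le_add_right (card_union_le _ _) _))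
    have hcardr : (#{x ∈ Ico v w | ¬ (v ≤ x - T ∧ f x - f (x - T) ≤ K * T ∧ ∃ u ∈ G, x - T ≤ u ∧ u ≤ x)} : ℝ)
        ≤ #P1 + #P2 + #P3 := by exact_mod_cast hcard
    have c1 : (#P1 : ℝ) ≤ η / 3 * (w - v) := by
      refine b8.trans (le_of_eq ?_)
      rw [hη']; field_simp; ring
    have c2 : (#P2 : ℝ) ≤ η / 3 * (w - v) := by
      have h1 : #P2 = T := by rw [hP2, Int.card_Ico]; simp
      rw [h1]
      have h2 : (T : ℝ) ^ 2 ≤ 2 * Ts (m + 1) :=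
        (pow_le_pow_right₀ hT1 hA'2).trans (hTspow m)
      have h3 : δ / 4 * (Ts (m + 1) : ℝ) ≤ w - v := b5.trans b6
      have h4 : 24 / (η * δ) ≤ T := hWc24.trans (hTsc m)
      rw [div_le_iff₀ (by positivity)] at h4
      have h5 : η / 3 * (δ / 4 * (Ts (m + 1) : ℝ)) ≤ η / 3 * (w - v) :=
        mul_le_mul_of_nonneg_left h3 (by positivity)
      have h6 : (T : ℝ) * 24 ≤ T * (T * (η * δ)) := mul_le_mul_of_nonneg_left h4 hT0.le
      have h7 : η * δ * (T : ℝ) ^ 2 ≤ η * δ * (2 * Ts (m + 1)) :=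
        mul_le_mul_of_nonneg_left h2 (by positivity)
      linarith
    have c3 : (#P3 : ℝ) ≤ η / 3 * (w - v) := by
      by_cases hvw : v + T ≤ w
      · have h1 := tele_T f hf v w T hvw
        have h2 : (#P3 : ℝ) * (K * T) ≤ ∑ x ∈ Ico (v + T) w, (f x - f (x - T)) := by
          calc (#P3 : ℝ) * (K * T) = ∑ x ∈ P3, K * T := by rw [sum_const, nsmul_eq_mul]
            _ ≤ ∑ x ∈ P3, (f x - f (x - T)) := by
                refine sum_le_sum fun x hx => ?_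
                rw [hP3, mem_filter] at hx
                exact hx.2.le
            _ ≤ ∑ x ∈ Ico (v + T) w, (f x - f (x - T)) := by
                refine sum_le_sum_of_subset_of_nonneg (filter_subset _ _) fun x _ _ => ?_
                have : f (x - T) ≤ f x := hf (by omega)
                linarith
        have h3 : (#P3 : ℝ) * (K * T) ≤ T * (4 * C / δ * (w - v)) :=
          (h2.trans h1).trans (mul_le_mul_of_nonneg_left b7 hT0.le)
        have h4 : (#P3 : ℝ) * K ≤ 4 * C / δ * (w - v) := by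
          refine le_of_mul_le_mul_right ?_ hT0
          linarith
        have h5 : 4 * C / δ ≤ η / 3 * K := by
          have : 4 * C / δ = η / 3 * (12 * C / (δ * η)) := by field_simp; ring
          rw [this]
          exact mul_le_mul_of_nonneg_left hK1 (by positivity)
        have h6 := mul_le_mul_of_nonneg_right h5 b2r
        refine le_of_mul_le_mul_right ?_ hK0
        linarith
      · have : P3 = ∅ := by
          rw [hP3, Ico_eq_empty (by omega)]; simp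
        rw [this]; simp; positivity
    linarith

end Pool.Agent.H646.Phase1aM
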