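import Mathlib
import Pool.Agent.H646.Defs
import Pool.Agent.H646.Conc
import Pool.Agent.H646.Walk

namespace Pool.Agent.H646.Phase1bM
open Finset
open Pool.Agent.H646.ConcM (approx_concave)
open Pool.Agent.H646.WalkM (biGood_card)





/-- greedy chain -/
theorem phase1b_chain (l : ℕ) (hl : 1 ≤ l) : ∀ (k : ℕ) (Y : Finset ℤ), #Y ≤ k → Y.Nonempty →
    ∃ (m : ℕ) (z : ℕ → ℤ), (∀ t ≤ m, z t ∈ Y) ∧ (∀ t < m, z t + l ≤ z (t + 1)) ∧
      (∀ y ∈ Y, ∃ t ≤ m, z t ≤ y ∧ y < z t + l) := by
  intro k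
  induction k with
  | zero =>
    intro Y hY hne
    exact absurd (Finset.card_pos.mpr hne) (by omega)
  | succ k ih =>
    intro Y hY hne
    set z0 := Y.min' hne with hz0
    have hz0mem : z0 ∈ Y := Y.min'_mem hne
    set Y1 := Y.filter (fun y => z0 + l ≤ y) with hY1
    by_cases hne1 : Y1.Nonempty
    · have hcard : #Y1 ≤ k := by
        have hlt : #Y1 < #Y := by
          apply Finset.card_lt_card
          rw [Finset.ssubset_iff_of_subset (Finset.filter_subset _ _)]
          refine ⟨z0, hz0mem, ?_⟩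
          simp only [hY1, Finset.mem_filter, not_and, not_le]
          intro _
          omega
        omega
      obtain ⟨m, z, h1, h2, h3⟩ := ih Y1 hcard hne1
      refine ⟨m + 1, fun t => Nat.casesOn t z0 (fun t => z t), ?_, ?_, ?_⟩
      · intro t ht
        cases t with
        | zero => exact hz0mem
        | succ t => exact (Finset.mem_filter.mp (h1 t (by omega))).1
      · intro t ht
        cases t with
        | zero => exact (Finset.mem_filter.mp (h1 0 (by omega))).2
        | succ t => exact h2 t (by omega)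
      · intro y hy
        by_cases hy1 : z0 + l ≤ y
        · obtain ⟨t, ht, h4, h5⟩ := h3 y (Finset.mem_filter.mpr ⟨hy, hy1⟩)
          exact ⟨t + 1, by omega, h4, h5⟩
        · exact ⟨0, by omega, Y.min'_le y hy, by simpa using hy1⟩
    · refine ⟨0, fun _ => z0, fun t _ => hz0mem, fun t ht => absurd ht (by omega), ?_⟩
      intro y hy
      refine ⟨0, le_refl _, Y.min'_le y hy, ?_⟩
      by_contra hcon
      exact hne1 ⟨y, Finset.mem_filter.mpr ⟨hy, by simpa using hcon⟩⟩

open Classical in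
/-- many good points -/
theorem phase1b_good (δ C : ℝ) (hδ : 0 < δ) (hδ1 : δ ≤ 1) (hC : 1 ≤ C) (n : ℕ) (v : ℤ)
    (f : ℤ → ℝ) (G : Finset ℤ) (X : Set ℤ) (hf : Monotone f)
    (hfC : f (v + n) - f v ≤ C * n) (hG : δ * n ≤ #(G ∩ Ico v (v + n)))
    (hX : (#{x ∈ Ico v (v + n) | x ∉ X} : ℝ) ≤ δ / 100 * n) :
    ∃ Y : Finset ℤ, Y ⊆ Ico v (v + n) ∧ 
      (∀ y ∈ Y, ∀ a b : ℤ, v ≤ a → a ≤ y → y ≤ b → b < v + n →
        8 * (#{t ∈ Icc a b | t ∉ X} : ℤ) ≤ b - a + 1) ∧
      (∀ y ∈ Y, ∀ b : ℤ, y ≤ b → b ≤ v + n → f b - f y ≤ (20 * C / δ) * ((b : ℝ) - y)) ∧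
      (74 / 100) * δ * n ≤ (#(G ∩ Y) : ℝ) := by
  set C5 : ℝ := 20 * C / δ with hC5
  have hC5pos : 0 < C5 := by positivity
  -- walks
  let s1 : ℕ → ℝ := fun j => (j : ℝ) / 8 - (#{t ∈ Ico v (v + j) | t ∉ X} : ℝ)
  let s2 : ℕ → ℝ := fun j => C5 * j - (f (v + j) - f v)
  have hcnt : ∀ a b c : ℤ, a ≤ b → b ≤ c →
      (#{t ∈ Ico a c | t ∉ X} : ℝ) = #{t ∈ Ico a b | t ∉ X} + #{t ∈ Ico b c | t ∉ X} := by
    intro a b c hab hbc
    rw [← Finset.Ico_union_Ico_eq_Ico hab hbc, Finset.filter_union, Finset.card_union_of_disjoint]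
    · push_cast; ring
    · apply Finset.disjoint_filter_filter
      exact Finset.Ico_disjoint_Ico_consecutive a b c
  have h1step : ∀ j < n, s1 (j + 1) - s1 j ≤ 1 / 8 := by
    intro j _
    have := hcnt v (v + j) (v + (j + 1 : ℕ)) (by omega) (by push_cast; omega)
    simp only [s1]
    rw [this]
    push_cast
    have h0 : (0 : ℝ) ≤ (#{t ∈ Ico (v + (j : ℤ)) (v + ((j : ℤ) + 1)) | t ∉ X} : ℝ) := by positivity
    linarith
  have h2step : ∀ j < n, s2 (j + 1) - s2 j ≤ C5 := by
    intro j _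
    simp only [s2]
    have : f (v + j) ≤ f (v + (j + 1 : ℕ)) := hf (by push_cast; omega)
    push_cast at this ⊢
    linarith
  have hb1 := biGood_card s1 n (1 / 8) (by norm_num) h1step
  have hb2 := biGood_card s2 n C5 hC5pos h2step
  set A1 := {j ∈ range (n + 1) | (∀ j' ∈ Icc j n, s1 j ≤ s1 j') ∧ (∀ j' ≤ j, s1 j' ≤ s1 j)} with hA1
  set A2 := {j ∈ range (n + 1) | (∀ j' ∈ Icc j n, s2 j ≤ s2 j') ∧ (∀ j' ≤ j, s2 j' ≤ s2 j)} with hA2
  have hs1 : (1 / 8 - δ / 100) * n ≤ s1 n - s1 0 := by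
    simp only [s1]
    simp
    linarith
  have hs2 : C5 * n - C * n ≤ s2 n - s2 0 := by
    simp only [s2]
    simp
    linarith
  have hb1' : (1 - 16 / 100 * δ) * n + 1 ≤ (#A1 : ℝ) := by
    have : (s1 n - s1 0) / (1 / 8) = 8 * (s1 n - s1 0) := by ring
    rw [this] at hb1
    nlinarith [hb1, hs1]
  have hb2' : (1 - 10 / 100 * δ) * n + 1 ≤ (#A2 : ℝ) := by
    have h3 : (C5 * n - C * n) / C5 ≤ (s2 n - s2 0) / C5 := by gcongr
    have h4 : (C5 * n - C * n) / C5 = n - δ / 20 * n := by
      rw [hC5]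
      field_simp
    rw [h4] at h3
    linarith
  -- complement counts
  have hc1 : (#(range (n + 1) \ A1) : ℝ) ≤ 16 / 100 * δ * n := by
    have h := Finset.card_sdiff_add_card_eq_card (Finset.filter_subset (fun j => (∀ j' ∈ Icc j n, s1 j ≤ s1 j') ∧ (∀ j' ≤ j, s1 j' ≤ s1 j)) (range (n + 1)))
    rw [← hA1, Finset.card_range] at h
    have h' : (#(range (n + 1) \ A1) : ℝ) + #A1 = n + 1 := by exact_mod_cast h
    nlinarith [h', hb1']
  have hc2 : (#(range (n + 1) \ A2) : ℝ) ≤ 10 / 100 * δ * n := by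
    have h := Finset.card_sdiff_add_card_eq_card (Finset.filter_subset (fun j => (∀ j' ∈ Icc j n, s2 j ≤ s2 j') ∧ (∀ j' ≤ j, s2 j' ≤ s2 j)) (range (n + 1)))
    rw [← hA2, Finset.card_range] at h
    have h' : (#(range (n + 1) \ A2) : ℝ) + #A2 = n + 1 := by exact_mod_cast h
    nlinarith [h', hb2']
  refine ⟨{y ∈ Ico v (v + n) | (y - v).toNat ∈ A1 ∧ (y - v).toNat ∈ A2}, Finset.filter_subset _ _,
    ?_, ?_, ?_⟩
  · intro y hy a b hva hay hyb hb
    obtain ⟨hyI, hy1, -⟩ := Finset.mem_filter.mp hy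
    rw [Finset.mem_Ico] at hyI
    obtain ⟨hyr, hyf, hyp⟩ := Finset.mem_filter.mp hy1
    have e1 := hyp (a - v).toNat (by omega)
    have e2 := hyf (b + 1 - v).toNat (by rw [Finset.mem_Icc]; omega)
    have e3 := e1.trans e2
    simp only [s1] at e3
    have ha' : v + (((a - v).toNat : ℕ) : ℤ) = a := by omega
    have hb' : v + (((b + 1 - v).toNat : ℕ) : ℤ) = b + 1 := by omega
    rw [ha', hb'] at e3
    have e4 := hcnt v a (b + 1) hva (by omega)
    have e5 : (((a - v).toNat : ℕ) : ℝ) = (a : ℝ) - v := by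
      have : (((a - v).toNat : ℕ) : ℤ) = a - v := by omega
      exact_mod_cast this
    have e6 : (((b + 1 - v).toNat : ℕ) : ℝ) = (b : ℝ) + 1 - v := by
      have : (((b + 1 - v).toNat : ℕ) : ℤ) = b + 1 - v := by omega
      exact_mod_cast this
    rw [e5, e6, e4] at e3
    have e7 : Icc a b = Ico a (b + 1) := by
      ext t; simp only [Finset.mem_Icc, Finset.mem_Ico]; omega
    rw [e7]
    have e8 : (8 : ℝ) * (#{t ∈ Ico a (b + 1) | t ∉ X} : ℝ) ≤ b - a + 1 := by linarith
    exact_mod_cast e8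
  · intro y hy b hyb hb
    obtain ⟨hyI, -, hy2⟩ := Finset.mem_filter.mp hy
    rw [Finset.mem_Ico] at hyI
    obtain ⟨hyr, hyf, hyp⟩ := Finset.mem_filter.mp hy2
    have e2 := hyf (b - v).toNat (by rw [Finset.mem_Icc]; omega)
    simp only [s2] at e2
    have ha' : v + (((y - v).toNat : ℕ) : ℤ) = y := by omega
    have hb' : v + (((b - v).toNat : ℕ) : ℤ) = b := by omega
    rw [ha', hb'] at e2
    have e5 : (((y - v).toNat : ℕ) : ℝ) = (y : ℝ) - v := by
      have : (((y - v).toNat : ℕ) : ℤ) = y - v := by omega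
      exact_mod_cast this
    have e6 : (((b - v).toNat : ℕ) : ℝ) = (b : ℝ) - v := by
      have : (((b - v).toNat : ℕ) : ℤ) = b - v := by omega
      exact_mod_cast this
    rw [e5, e6] at e2
    nlinarith [e2]
  · set Y := {y ∈ Ico v (v + n) | (y - v).toNat ∈ A1 ∧ (y - v).toNat ∈ A2} with hY
    have hsub : G ∩ Ico v (v + n) ⊆ (G ∩ Y) ∪
        (((range (n + 1) \ A1).image (fun j : ℕ => v + (j : ℤ))) ∪
         ((range (n + 1) \ A2).image (fun j : ℕ => v + (j : ℤ)))) := by
      intro y hy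
      rw [Finset.mem_inter] at hy
      obtain ⟨hyG, hyI⟩ := hy
      have hyI' := Finset.mem_Ico.mp hyI
      by_cases h1 : (y - v).toNat ∈ A1
      · by_cases h2 : (y - v).toNat ∈ A2
        · exact Finset.mem_union_left _ (Finset.mem_inter.mpr ⟨hyG, Finset.mem_filter.mpr ⟨hyI, h1, h2⟩⟩)
        · apply Finset.mem_union_right
          apply Finset.mem_union_right
          rw [Finset.mem_image]
          refine ⟨(y - v).toNat, Finset.mem_sdiff.mpr ⟨Finset.mem_range.mpr (by omega), h2⟩, by omega⟩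
      · apply Finset.mem_union_right
        apply Finset.mem_union_left
        rw [Finset.mem_image]
        refine ⟨(y - v).toNat, Finset.mem_sdiff.mpr ⟨Finset.mem_range.mpr (by omega), h1⟩, by omega⟩
    have h1 := Finset.card_le_card hsub
    have h2 := Finset.card_union_le (G ∩ Y) (((range (n + 1) \ A1).image (fun j : ℕ => v + (j : ℤ))) ∪
         ((range (n + 1) \ A2).image (fun j : ℕ => v + (j : ℤ))))
    have h3 := Finset.card_union_le ((range (n + 1) \ A1).image (fun j : ℕ => v + (j : ℤ)))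
         ((range (n + 1) \ A2).image (fun j : ℕ => v + (j : ℤ)))
    have h4 := Finset.card_image_le (s := range (n + 1) \ A1) (f := fun j : ℕ => v + (j : ℤ))
    have h5 := Finset.card_image_le (s := range (n + 1) \ A2) (f := fun j : ℕ => v + (j : ℤ))
    have h6 : #(G ∩ Ico v (v + n)) ≤ #(G ∩ Y) + (#(range (n + 1) \ A1) + #(range (n + 1) \ A2)) := by
      omega
    have h7 : (#(G ∩ Ico v (v + n)) : ℝ) ≤ #(G ∩ Y) + (#(range (n + 1) \ A1) + #(range (n + 1) \ A2)) := by
      exact_mod_cast h6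
    linarith

open Classical in
/-- target: a subinterval of length about `√n` on which `f` is nearly linear on many points of `G` -/
theorem phase1b (δ C : ℝ) (hδ : 0 < δ) (hδ1 : δ ≤ 1) (hC : 1 ≤ C) :
    ∃ D : ℝ, 1 ≤ D ∧ ∃ n₀ : ℕ, ∀ n : ℕ, n₀ ≤ n → ∀ (τ : ℝ) (v : ℤ) (f : ℤ → ℝ) (G : Finset ℤ) (X : Set ℤ),
      1 ≤ τ → Monotone f → f (v + n) - f v ≤ C * n → δ * n ≤ #(G ∩ Ico v (v + n)) →
      MidConc X τ f → (#{x ∈ Ico v (v + n) | x ∉ X} : ℝ) ≤ δ / 100 * n →
      ∃ (v₁ : ℤ) (s b : ℝ) (G₁ : Finset ℤ), v ≤ v₁ ∧ v₁ + Nat.sqrt n ≤ v + n ∧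
        G₁ ⊆ G ∩ Ico v₁ (v₁ + Nat.sqrt n) ∧ δ / 4 * Nat.sqrt n ≤ #G₁ ∧
        ∀ x ∈ G₁, |f x - (s * x + b)| ≤ D * τ := by
  set C5 : ℝ := 20 * C / δ with hC5
  have hC5pos : 0 < C5 := by positivity
  set C8 : ℝ := 10 * (C5 + 48) / δ with hC8
  have hC8pos : 0 < C8 := by positivity
  refine ⟨C8 + 12, by linarith, (Nat.ceil (6 / δ) + 1) ^ 2, ?_⟩
  intro n hn τ v f G X hτ hf hfC hG hMC hX
  set l := Nat.sqrt n with hl
  have hl0 : Nat.ceil (6 / δ) + 1 ≤ l := by
    rw [hl, Nat.le_sqrt']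
    exact hn
  have hlbig : 6 / δ < l := by
    have h1 : 6 / δ ≤ (Nat.ceil (6 / δ) : ℝ) := Nat.le_ceil _
    have h2 : ((Nat.ceil (6 / δ) + 1 : ℕ) : ℝ) ≤ l := by exact_mod_cast hl0
    push_cast at h2
    linarith
  have hl1 : 1 ≤ l := by omega
  have hlpos : (0 : ℝ) < l := by exact_mod_cast hl1
  have hl6 : 6 < δ * l := by
    rw [div_lt_iff₀ hδ] at hlbig
    linarith
  have hlsq : (l : ℝ) * l ≤ n := by
    have := Nat.sqrt_le n
    exact_mod_cast this
  have hlsq2 : (n : ℝ) ≤ 4 * l * l := by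
    have h1 : n < (l + 1) * (l + 1) := Nat.lt_succ_sqrt n
    have h2 : (n : ℝ) < (l + 1) * (l + 1) := by exact_mod_cast h1
    have h3 : (1 : ℝ) ≤ l := by exact_mod_cast hl1
    nlinarith
  have hnpos : (0 : ℝ) < n := lt_of_lt_of_le (by positivity) hlsq
  obtain ⟨Y, hYI, hY1, hY2, hYG⟩ := phase1b_good δ C hδ hδ1 hC n v f G X hf hfC hG hX
  rw [← hC5] at hY2
  have hYX : ∀ y ∈ Y, y ∈ X := by
    intro y hy
    by_contra hcon
    have hyI := Finset.mem_Ico.mp (hYI hy)
    have := hY1 y hy y y hyI.1 le_rfl le_rfl hyI.2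
    have h2 : #{t ∈ Icc y y | t ∉ X} = 1 := by
      rw [Finset.Icc_self, Finset.filter_singleton, if_pos hcon, Finset.card_singleton]
    rw [h2] at this
    norm_num at this
  have hconc : ∀ y ∈ Y, ∀ z ∈ Y, y < z → ∀ x ∈ X, y ≤ x → x ≤ z →
      ((z : ℝ) - x) * f y + ((x : ℝ) - y) * f z ≤ ((z : ℝ) - y) * f x + 6 * τ * ((z : ℝ) - y) := by
    intro y hy z hz hyz x hx hyx hxz
    have hyI := Finset.mem_Ico.mp (hYI hy)
    have hzI := Finset.mem_Ico.mp (hYI hz)
    apply approx_concave X τ (by linarith) f hMC y z hyz _ _ x hx hyx hxz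
    · intro r hr
      have := hY1 y hy y (y + r) hyI.1 le_rfl (by omega) (by omega)
      have h2 : 8 * (#{t ∈ Icc y (y + (r : ℤ)) | t ∉ X} : ℤ) ≤ r + 1 := by linarith
      exact_mod_cast h2
    · intro r hr
      have := hY1 z hz (z - r) z (by omega) (by omega) le_rfl (by omega)
      have h2 : 8 * (#{t ∈ Icc (z - (r : ℤ)) z | t ∉ X} : ℤ) ≤ r + 1 := by linarith
      exact_mod_cast h2
  have hYne : Y.Nonempty := by
    rw [Finset.nonempty_iff_ne_empty]
    intro h0
    rw [h0] at hYG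
    simp at hYG
    have : 0 < 74 / 100 * δ * n := by positivity
    linarith
  obtain ⟨m, z, hz1, hz2, hz3⟩ := phase1b_chain l hl1 (#Y) Y le_rfl hYne
  have hzI : ∀ t ≤ m, v ≤ z t ∧ z t < v + n := fun t ht => Finset.mem_Ico.mp (hYI (hz1 t ht))
  -- m * l < n
  have hzlow : ∀ t ≤ m, z 0 + t * l ≤ z t := by
    intro t
    induction t with
    | zero => intro _; simp
    | succ t ih =>
      intro ht
      have h1 := ih (by omega)
      have h2 := hz2 t (by omega)
      push_cast
      linarith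
  have hml : (m : ℝ) * l ≤ n := by
    have h1 := hzlow m le_rfl
    have h2 := hzI m le_rfl
    have h3 := hzI 0 (by omega)
    have h4 : (m : ℤ) * l ≤ n := by linarith
    exact_mod_cast h4
  -- g
  let g : ℕ → ℕ := fun t => #((G ∩ Y) ∩ Ico (z t) (z t + l))
  have hgl : ∀ t, (g t : ℝ) ≤ l := by
    intro t
    have h1 : g t ≤ #(Ico (z t) (z t + l)) := Finset.card_le_card Finset.inter_subset_right
    rw [Int.card_Ico] at h1
    have h2 : g t ≤ l := by omega
    exact_mod_cast h2
  have hgsum : (74 / 100) * δ * n ≤ ∑ t ∈ range (m + 1), (g t : ℝ) := by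
    refine hYG.trans ?_
    have hsub : G ∩ Y ⊆ (range (m + 1)).biUnion (fun t => (G ∩ Y) ∩ Ico (z t) (z t + l)) := by
      intro y hy
      obtain ⟨t, ht, h1, h2⟩ := hz3 y (Finset.mem_inter.mp hy).2
      rw [Finset.mem_biUnion]
      exact ⟨t, Finset.mem_range.mpr (by omega), Finset.mem_inter.mpr ⟨hy, Finset.mem_Ico.mpr ⟨h1, h2⟩⟩⟩
    have h1 := (Finset.card_le_card hsub).trans Finset.card_biUnion_le
    exact_mod_cast h1
  -- slopes
  let sg : ℕ → ℝ := fun t => (f (z (t + 1)) - f (z t)) / ((z (t + 1) : ℝ) - z t)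
  have hgap : ∀ t < m, (l : ℝ) ≤ (z (t + 1) : ℝ) - z t := by
    intro t ht
    have := hz2 t ht
    have h2 : (l : ℤ) ≤ z (t + 1) - z t := by linarith
    exact_mod_cast h2
  have hsg0 : ∀ t < m, 0 ≤ sg t := by
    intro t ht
    have h1 := hgap t ht
    apply div_nonneg
    · have : z t ≤ z (t + 1) := by have := hz2 t ht; omega
      have := hf this
      linarith
    · linarith
  have hsgC : ∀ t < m, sg t ≤ C5 := by
    intro t ht
    have h1 := hgap t ht
    rw [div_le_iff₀ (by linarith)]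
    apply hY2 (z t) (hz1 t ht.le) (z (t + 1)) (by have := hz2 t ht; omega)
    exact (hzI (t + 1) ht).2.le
  have hD : ∀ t, t + 1 < m → 0 ≤ sg t - sg (t + 1) + 12 * τ / l := by
    intro t ht
    have h1 := hgap t (by omega)
    have h2 := hgap (t + 1) ht
    have h3 := hconc (z t) (hz1 t (by omega)) (z (t + 1 + 1)) (hz1 _ (by omega))
      (by have := hz2 t (by omega); have := hz2 (t + 1) (by omega); omega)
      (z (t + 1)) (hYX _ (hz1 _ (by omega)))
      (by have := hz2 t (by omega); omega) (by have := hz2 (t + 1) (by omega); omega)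
    set p : ℝ := (z (t + 1) : ℝ) - z t with hp
    set q : ℝ := (z (t + 1 + 1) : ℝ) - z (t + 1) with hq
    have hpq : (z (t + 1 + 1) : ℝ) - z t = p + q := by rw [hp, hq]; ring
    rw [hpq] at h3
    have hp0 : 0 < p := by linarith
    have hq0 : 0 < q := by linarith
    have h4 : (f (z (t + 1 + 1)) - f (z (t + 1))) / q ≤
        (f (z (t + 1)) - f (z t)) / p + (6 * τ / q + 6 * τ / p) := by
      rw [div_le_iff₀ hq0]
      have : ((f (z (t + 1)) - f (z t)) / p + (6 * τ / q + 6 * τ / p)) * q =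
        (q * (f (z (t + 1)) - f (z t)) + 6 * τ * (p + q)) / p := by
        field_simp
      rw [this, le_div_iff₀ hp0]
      nlinarith [h3]
    have h5 : 6 * τ / q ≤ 6 * τ / l := by
      apply div_le_div_of_nonneg_left (by linarith) hlpos h2
    have h6 : 6 * τ / p ≤ 6 * τ / l := by
      apply div_le_div_of_nonneg_left (by linarith) hlpos h1
    have h7 : 12 * τ / l = 6 * τ / l + 6 * τ / l := by ring
    simp only [sg]
    rw [h7]
    linarith
  -- main pigeonhole
  have hmain : ∃ t, t + 1 < m ∧ δ / 4 * l ≤ (g (t + 1) : ℝ) ∧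
      sg t - sg (t + 1) + 12 * τ / l ≤ C8 * τ / l := by
    by_contra hcon
    push Not at hcon
    have hnl : 6 * (l : ℝ) < δ * n := by nlinarith
    rcases Nat.eq_zero_or_pos m with hm0 | hmpos
    · rw [hm0] at hgsum
      simp at hgsum
      have := hgl 0
      nlinarith
    · obtain ⟨k, rfl⟩ : ∃ k, m = k + 1 := ⟨m - 1, by omega⟩
      rw [Finset.sum_range_succ, Finset.sum_range_succ'] at hgsum
      have h0 := hgl 0
      have h1 := hgl (k + 1)
      have hbd : ∀ t ∈ range k, (g (t + 1) : ℝ) ≤ δ / 4 * l + l * l / (C8 * τ) * (sg t - sg (t + 1) + 12 * τ / l) := by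
        intro t ht
        rw [Finset.mem_range] at ht
        have hDt := hD t (by omega)
        by_cases hgt : δ / 4 * l ≤ (g (t + 1) : ℝ)
        · have h2 := hcon t (by omega) hgt
          have h3 : (l : ℝ) * l / (C8 * τ) * (C8 * τ / l) ≤ l * l / (C8 * τ) * (sg t - sg (t + 1) + 12 * τ / l) := by
            gcongr
          have h4 : (l : ℝ) * l / (C8 * τ) * (C8 * τ / l) = l := by
            field_simp
          have h5 := hgl (t + 1)
          have h6 : 0 ≤ δ / 4 * (l : ℝ) := by positivity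
          linarith
        · push Not at hgt
          have h3 : 0 ≤ (l : ℝ) * l / (C8 * τ) * (sg t - sg (t + 1) + 12 * τ / l) := by positivity
          linarith
      have hsum := Finset.sum_le_sum hbd
      have hs3 : ∑ i ∈ range k, (δ / 4 * (l : ℝ) + l * l / (C8 * τ) * (sg i - sg (i + 1) + 12 * τ / l)) =
          k * (δ / 4 * l) + l * l / (C8 * τ) * (sg 0 - sg k + k * (12 * τ / l)) := by
        rw [Finset.sum_add_distrib, ← Finset.mul_sum (range k) (fun i => sg i - sg (i + 1) + 12 * τ / l),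
          Finset.sum_add_distrib, Finset.sum_range_sub',
          Finset.sum_const, Finset.sum_const, Finset.card_range, nsmul_eq_mul, nsmul_eq_mul]
      rw [hs3] at hsum
      have hk0 := hsgC 0 (by omega)
      have hkk := hsg0 k (by omega)
      have hkl : (k : ℝ) * l ≤ n := by
        push_cast at hml
        have h30 : ((k : ℝ) + 1) * l = k * l + l := by ring
        rw [h30] at hml
        linarith
      have h8 : sg 0 - sg k + k * (12 * τ / l) ≤ (C5 + 48) * τ := by
        have h9 : (k : ℝ) * (12 * τ / l) ≤ 48 * τ := by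
          have : (k : ℝ) * (12 * τ / l) = (k * l) * (12 * τ) / (l * l) := by
            field_simp
          rw [this, div_le_iff₀ (by positivity)]
          calc (k : ℝ) * l * (12 * τ) ≤ (4 * l * l) * (12 * τ) := by
                apply mul_le_mul_of_nonneg_right _ (by linarith)
                linarith
            _ = 48 * τ * (l * l) := by ring
        have h31 : C5 * 1 ≤ C5 * τ := by gcongr
        have h32 : (C5 + 48) * τ = C5 * τ + 48 * τ := by ring
        rw [h32]
        linarith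
      have h10 : (l : ℝ) * l / (C8 * τ) * (sg 0 - sg k + k * (12 * τ / l)) ≤ δ / 10 * n := by
        calc (l : ℝ) * l / (C8 * τ) * (sg 0 - sg k + k * (12 * τ / l)) 
            ≤ (l : ℝ) * l / (C8 * τ) * ((C5 + 48) * τ) := by gcongr
          _ = δ / 10 * (l * l) := by
              rw [hC8]; field_simp
          _ ≤ δ / 10 * n := by gcongr
      have h11 : (k : ℝ) * (δ / 4 * l) ≤ δ / 4 * n := by
        calc (k : ℝ) * (δ / 4 * l) = δ / 4 * (k * l) := by ring
          _ ≤ δ / 4 * n := by gcongr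
      linarith
  obtain ⟨t, htm, htg, htD⟩ := hmain
  have hgapm := hgap t (by omega)
  have hgapp := hgap (t + 1) htm
  refine ⟨z (t + 1), sg (t + 1), f (z (t + 1)) - sg (t + 1) * z (t + 1), (G ∩ Y) ∩ Ico (z (t + 1)) (z (t + 1) + l),
    (hzI _ (by omega)).1, ?_, ?_, htg, ?_⟩
  · have h1 := hz2 (t + 1) htm
    have h2 := hzI (t + 1 + 1) (by omega)
    linarith
  · apply Finset.inter_subset_inter_right
    exact Finset.inter_subset_left
  · intro x hx
    rw [Finset.mem_inter, Finset.mem_inter, Finset.mem_Ico] at hx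
    obtain ⟨⟨hxG, hxY⟩, hx1, hx2⟩ := hx
    rcases eq_or_lt_of_le hx1 with heq | hlt
    · rw [← heq]
      have : f (z (t + 1)) - (sg (t + 1) * (z (t + 1) : ℝ) + (f (z (t + 1)) - sg (t + 1) * (z (t + 1) : ℝ))) = 0 := by ring
      rw [this, abs_zero]
      positivity
    · have hx1' : (z (t + 1) : ℝ) < x := by exact_mod_cast hlt
      have hx2' : (x : ℝ) < z (t + 1) + l := by exact_mod_cast hx2
      have hlow := hconc (z (t + 1)) (hz1 _ (by omega)) (z (t + 1 + 1)) (hz1 _ (by omega))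
        (by have := hz2 (t + 1) htm; omega) x (hYX x hxY) hx1 (by have := hz2 (t + 1) htm; omega)
      have hup := hconc (z t) (hz1 _ (by omega)) x hxY (by have := hz2 t (by omega); omega)
        (z (t + 1)) (hYX _ (hz1 _ (by omega))) (by have := hz2 t (by omega); omega) hx1
      set p : ℝ := (z (t + 1) : ℝ) - z t with hp
      set q : ℝ := (z (t + 1 + 1) : ℝ) - z (t + 1) with hq
      set w : ℝ := (x : ℝ) - z (t + 1) with hw
      have hp0 : 0 < p := by linarith
      have hq0 : 0 < q := by linarith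
      have hw0 : 0 < w := by linarith
      have hwl : w ≤ l := by linarith
      have hsgt : sg t * p = f (z (t + 1)) - f (z t) := by
        simp only [sg]
        rw [← hp]
        field_simp
      have hsgt1 : sg (t + 1) * q = f (z (t + 1 + 1)) - f (z (t + 1)) := by
        simp only [sg]
        rw [← hq]
        field_simp
      have e1 : (z (t + 1 + 1) : ℝ) - x = q - w := by rw [hq, hw]; ring
      have e2 : (x : ℝ) - z t = w + p := by rw [hp, hw]; ring
      rw [e1] at hlow
      rw [e2] at hup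
      have hlow' : f (z (t + 1)) + sg (t + 1) * w - 6 * τ ≤ f x := by
        have : q * (f (z (t + 1)) + sg (t + 1) * w - 6 * τ) ≤ q * f x := by
          have h20 : q * (f (z (t + 1)) + sg (t + 1) * w - 6 * τ) =
            q * f (z (t + 1)) + w * (sg (t + 1) * q) - 6 * τ * q := by ring
          rw [h20, hsgt1]
          linarith
        exact le_of_mul_le_mul_left this hq0
      have hup' : f x ≤ f (z (t + 1)) + sg t * w + 12 * τ := by
        have h1 : p * f x ≤ p * (f (z (t + 1)) + sg t * w) + 6 * τ * (w + p) := by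
          have h20 : p * (f (z (t + 1)) + sg t * w) =
            p * f (z (t + 1)) + w * (sg t * p) := by ring
          rw [h20, hsgt]
          linarith
        have h2 : 6 * τ * (w + p) ≤ 6 * τ * (2 * p) := by
          apply mul_le_mul_of_nonneg_left _ (by linarith)
          linarith
        have : p * f x ≤ p * (f (z (t + 1)) + sg t * w + 12 * τ) := by
          have h21 : p * (f (z (t + 1)) + sg t * w + 12 * τ) = p * (f (z (t + 1)) + sg t * w) + 6 * τ * (2 * p) := by ring
          rw [h21]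
          linarith
        exact le_of_mul_le_mul_left this hp0
      have hDw : (sg t - sg (t + 1)) * w ≤ C8 * τ := by
        have h1 : sg t - sg (t + 1) ≤ C8 * τ / l := by
          have : 0 ≤ 12 * τ / l := by positivity
          linarith
        calc (sg t - sg (t + 1)) * w ≤ (C8 * τ / l) * w := by gcongr
          _ ≤ (C8 * τ / l) * l := by gcongr
          _ = C8 * τ := by field_simp
      have e3 : f x - (sg (t + 1) * (x : ℝ) + (f (z (t + 1)) - sg (t + 1) * (z (t + 1) : ℝ))) =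
          f x - f (z (t + 1)) - sg (t + 1) * w := by rw [hw]; ring
      rw [e3, abs_le]
      have h12 : 0 ≤ C8 * τ := by positivity
      constructor
      · linarith
      · linarith

end Pool.Agent.H646.Phase1bM
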