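import Mathlib
import Pool.Agent.H646.Defs
import Pool.Agent.H646.Phase1a
import Pool.Agent.H646.Phase1b

namespace Pool.Agent.H646.Phase1M
open Finset
open Pool.Agent.H646.Phase1aM (phase1a)
open Pool.Agent.H646.Phase1bM (phase1b)





theorem phase1 (δ C : ℝ) (hδ : 0 < δ) (hδ1 : δ ≤ 1) (hC : 1 ≤ C) (B : ℕ) (hB : 1 ≤ B) :
    ∃ c > (0 : ℝ), ∃ W₀ : ℕ, ∀ W : ℕ, W₀ ≤ W → ∀ (f : ℤ → ℝ) (G : Finset ℤ),
      Monotone f → f W - f 0 ≤ C * W → G ⊆ Ico (0 : ℤ) W → δ * W ≤ #G →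
      (∀ x ∈ G, ∀ i : ℤ, 0 ≤ i → i ≤ W → f (x + i) + f (x - i) ≤ 2 * f x) →
      ∃ (v : ℤ) (l : ℕ) (G₁ : Finset ℤ) (s b : ℝ), 0 ≤ v ∧ v + l ≤ W ∧ (W : ℝ) ^ c ≤ l ∧ G₁ ⊆ G ∧
        G₁ ⊆ Ico v (v + l) ∧ δ / 16 * l ≤ #G₁ ∧
        ∀ x ∈ G₁, |f x - (s * x + b)| ≤ (l : ℝ) ^ ((1 : ℝ) / B) := by
  classical
  obtain ⟨D, hD1, n₀, hb⟩ := phase1b (δ / 4) (4 * C / δ) (by positivity) (by linarith)
    (by rw [le_div_iff₀ hδ]; nlinarith)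
  obtain ⟨K, hK1, ha⟩ := phase1a δ C (δ / 400) hδ hδ1 hC (by positivity)
  obtain ⟨c, hc, W₁, ha⟩ := ha (4 * B) (by omega)
  set Q : ℝ := (D * K) ^ B + 1 with hQ
  have hQ1 : 1 ≤ Q := by have : 0 ≤ (D * K) ^ B := by positivity
                         linarith
  -- size threshold for `T`
  set T₀ : ℝ := 8 / δ * (Q ^ 2 + n₀ + 1) with hT₀
  obtain ⟨W₂, hW₂⟩ : ∃ W₂ : ℕ, ∀ W : ℕ, W₂ ≤ W → T₀ ≤ (W : ℝ) ^ c := by
    have h := (tendsto_rpow_atTop hc).comp tendsto_natCast_atTop_atTop (α := ℕ)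
    obtain ⟨W₂, h2⟩ := Filter.eventually_atTop.mp (h.eventually (Filter.eventually_ge_atTop T₀))
    exact ⟨W₂, fun W hW => h2 W hW⟩
  refine ⟨c, hc, max W₁ W₂, ?_⟩
  intro W hW f G hf hr hG hGc hgood
  obtain ⟨v, w, T, hv0, hvw, hwW, hT1, hWT, hTA, hfw, hGv, hbad⟩ :=
    ha W (le_trans (le_max_left _ _) hW) f G hf hr hG hGc
  have hTT : T₀ ≤ T := (hW₂ W (le_trans (le_max_right _ _) hW)).trans hWT
  obtain ⟨n, hn⟩ : ∃ n : ℕ, w = v + n := ⟨(w - v).toNat, by omega⟩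
  subst hn
  have hcast : (((v + n : ℤ) : ℝ) - v) = n := by push_cast; ring
  rw [hcast] at hTA hfw hGv hbad
  have hT1' : (1 : ℝ) ≤ T := by exact_mod_cast hT1
  have hnT : (δ / 8) * (T : ℝ) ^ (4 * B) ≤ n := by
    have : (T : ℝ) ^ (4 * B) * (δ / 8) ≤ (8 / δ * n) * (δ / 8) := by gcongr
    have e : (8 / δ * (n : ℝ)) * (δ / 8) = n := by field_simp
    rw [e] at this; linarith
  have hT2B : (T : ℝ) ≤ (T : ℝ) ^ (2 * B) := by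
    calc (T : ℝ) = (T : ℝ) ^ 1 := (pow_one _).symm
      _ ≤ (T : ℝ) ^ (2 * B) := pow_le_pow_right₀ hT1' (by omega)
  have hT4B : (T : ℝ) ^ (4 * B) = (T : ℝ) ^ (2 * B) * (T : ℝ) ^ (2 * B) := by
    rw [← pow_add]; congr 1; omega
  have hTQ : Q ^ 2 + n₀ + 1 ≤ (δ / 8) * (T : ℝ) ^ (2 * B) := by
    have h1 : T₀ ≤ (T : ℝ) ^ (2 * B) := hTT.trans hT2B
    rw [hT₀] at h1
    have h2 : (δ / 8) * (8 / δ * (Q ^ 2 + n₀ + 1)) ≤ (δ / 8) * (T : ℝ) ^ (2 * B) := by gcongr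
    have e : (δ / 8) * (8 / δ * (Q ^ 2 + n₀ + 1)) = Q ^ 2 + n₀ + 1 := by field_simp
    rw [e] at h2; exact h2
  have hT2B1 : (1 : ℝ) ≤ (T : ℝ) ^ (2 * B) := hT1'.trans hT2B
  have hnn : (Q ^ 2 + n₀ + 1) * (T : ℝ) ^ (2 * B) ≤ n := by
    calc (Q ^ 2 + n₀ + 1) * (T : ℝ) ^ (2 * B) ≤ ((δ / 8) * (T : ℝ) ^ (2 * B)) * (T : ℝ) ^ (2 * B) := by gcongr
      _ = (δ / 8) * (T : ℝ) ^ (4 * B) := by rw [hT4B]; ring
      _ ≤ n := hnT
  have hn0 : n₀ ≤ n := by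
    have : (n₀ : ℝ) ≤ n := by
      have : (n₀ : ℝ) * 1 ≤ (Q ^ 2 + n₀ + 1) * (T : ℝ) ^ (2 * B) := by
        apply mul_le_mul _ hT2B1 (by norm_num) (by positivity)
        nlinarith [sq_nonneg Q]
      linarith
    exact_mod_cast this
  -- the set X
  obtain ⟨X, hX⟩ : ∃ X : Set ℤ, ∀ x, x ∈ X ↔ (x ∈ Ico v (v + (n : ℤ)) ∧ (v ≤ x - T ∧ f x - f (x - T) ≤ K * T ∧ ∃ u ∈ G, x - T ≤ u ∧ u ≤ x)) :=
    ⟨{x | x ∈ Ico v (v + (n : ℤ)) ∧ (v ≤ x - T ∧ f x - f (x - T) ≤ K * T ∧ ∃ u ∈ G, x - T ≤ u ∧ u ≤ x)}, fun x => Iff.rfl⟩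
  have hKT : 1 ≤ K * T := by nlinarith
  have hmid : MidConc X (K * T) f := by
    have key : ∀ x ∈ X, ∀ i : ℤ, 0 ≤ i → x + i ∈ X → x - i ∈ X → f (x + i) + f (x - i) ≤ 2 * f x + 2 * (K * T) := by
      intro x hx i hi hx1 hx2
      obtain ⟨hxI, -, -, u, huG, hu1, hu2⟩ := (hX x).mp hx
      obtain ⟨hxI1, -, hf1, -⟩ := (hX _).mp hx1
      obtain ⟨-, -, hf2, -⟩ := (hX _).mp hx2
      rw [mem_Ico] at hxI hxI1
      have hiW : i ≤ W := by omega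
      have h1 := hgood u huG i hi hiW
      have h2 : f u ≤ f x := hf hu2
      have h3 : f (x + i - T) ≤ f (u + i) := hf (by omega)
      have h4 : f (x - i - T) ≤ f (u - i) := hf (by omega)
      linarith
    intro x hx i hx1 hx2
    rcases le_total 0 i with hi | hi
    · exact key x hx i hi hx1 hx2
    · have e1 : x + -i = x - i := by ring
      have e2 : x - -i = x + i := by ring
      have := key x hx (-i) (by omega) (by rw [e1]; exact hx2) (by rw [e2]; exact hx1)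
      rw [e1, e2] at this
      linarith
  obtain ⟨v₁, s, b, G₁, hv1, hv2, hG1, hG1c, hdev⟩ := hb n hn0 (K * T) v f G X hKT hf hfw hGv hmid (by
    refine le_trans ?_ (hbad.trans (le_of_eq (by ring)))
    refine Nat.cast_le.mpr (card_le_card ?_)
    intro y hy
    rw [mem_filter] at hy ⊢
    exact ⟨hy.1, fun hcon => hy.2 ((hX y).mpr ⟨hy.1, hcon⟩)⟩)
  -- lower bound for sqrt n
  have hsq : Q * (T : ℝ) ^ B ≤ Nat.sqrt n + 1 := by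
    have h1 : (n : ℝ) < ((Nat.sqrt n : ℝ) + 1) ^ 2 := by
      have := Nat.lt_succ_sqrt' n
      exact_mod_cast this
    have h2 : (Q * (T : ℝ) ^ B) ^ 2 ≤ n := by
      calc (Q * (T : ℝ) ^ B) ^ 2 = Q ^ 2 * (T : ℝ) ^ (2 * B) := by rw [mul_pow, ← pow_mul, mul_comm B 2]
        _ ≤ (Q ^ 2 + n₀ + 1) * (T : ℝ) ^ (2 * B) := by gcongr; linarith [Nat.cast_nonneg (α := ℝ) n₀]
        _ ≤ n := hnn
    have h3 : (Q * (T : ℝ) ^ B) ^ 2 ≤ ((Nat.sqrt n : ℝ) + 1) ^ 2 := h2.trans h1.le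
    exact le_of_sq_le_sq h3 (by positivity)
  have hTB : (T : ℝ) ≤ (T : ℝ) ^ B := by
    calc (T : ℝ) = (T : ℝ) ^ 1 := (pow_one _).symm
      _ ≤ (T : ℝ) ^ B := pow_le_pow_right₀ hT1' (by omega)
  have hTB1 : (1 : ℝ) ≤ (T : ℝ) ^ B := hT1'.trans hTB
  have hDK : (D * K) ^ B * (T : ℝ) ^ B ≤ Nat.sqrt n := by
    have : ((D * K) ^ B + 1) * (T : ℝ) ^ B ≤ Nat.sqrt n + 1 := hsq
    nlinarith
  have hDK1 : (1 : ℝ) ≤ (D * K) ^ B := one_le_pow₀ (by nlinarith)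
  refine ⟨v₁, Nat.sqrt n, G₁, s, b, by omega, by omega, ?_, ?_, ?_, ?_, ?_⟩
  · calc (W : ℝ) ^ c ≤ T := hWT
      _ ≤ (T : ℝ) ^ B := hTB
      _ = 1 * (T : ℝ) ^ B := (one_mul _).symm
      _ ≤ (D * K) ^ B * (T : ℝ) ^ B := by gcongr
      _ ≤ _ := hDK
  · exact hG1.trans inter_subset_left
  · exact hG1.trans inter_subset_right
  · calc δ / 16 * (Nat.sqrt n : ℝ) = δ / 4 / 4 * (Nat.sqrt n : ℝ) := by ring
      _ ≤ _ := hG1c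
  · intro x hx
    refine (hdev x hx).trans ?_
    have hBpos : (0 : ℝ) < B := by exact_mod_cast hB
    have h1 : (D * (K * T)) ^ B ≤ (Nat.sqrt n : ℝ) := by
      calc (D * (K * T)) ^ B = (D * K) ^ B * (T : ℝ) ^ B := by rw [← mul_pow]; ring
        _ ≤ _ := hDK
    have h2 : 0 ≤ D * (K * T) := by positivity
    calc D * (K * T) = ((D * (K * T)) ^ (B : ℝ)) ^ ((1 : ℝ) / B) := by
          rw [← Real.rpow_mul h2]
          rw [mul_one_div_cancel hBpos.ne', Real.rpow_one]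
      _ = ((D * (K * T)) ^ B) ^ ((1 : ℝ) / B) := by rw [Real.rpow_natCast]
      _ ≤ (Nat.sqrt n : ℝ) ^ ((1 : ℝ) / B) := by
          apply Real.rpow_le_rpow (by positivity) h1 (by positivity)

end Pool.Agent.H646.Phase1M
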