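import Mathlib
import Pool.Agent.H646.Defs

namespace Pool.Agent.H646.StabM
open Finset


/-- density increment on arithmetic progressions, with polynomial length loss -/
theorem stabilize (η δ : ℝ) (hη : 0 < η) (hδ : 0 < δ) :
    ∃ c > (0 : ℝ), c ≤ 1 ∧ ∀ (L : ℕ), 1 ≤ L → ∀ G : Finset ℤ, G ⊆ Ico (0 : ℤ) L → δ * L ≤ #G →
      ∃ (a q : ℤ) (M : ℕ), 0 ≤ a ∧ 1 ≤ q ∧ 1 ≤ M ∧ a + q * (M - 1) < L ∧ (L : ℝ) ^ c ≤ M ∧
        ∃ g : ℝ, δ ≤ g ∧ g ≤ 1 ∧ g * M ≤ #{j ∈ Ico (0 : ℤ) M | a + q * j ∈ G} ∧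
          ∀ (a' q' : ℤ) (M' : ℕ), 0 ≤ a' → 1 ≤ q' → 1 ≤ M' → a' + q' * (M' - 1) < M →
            (M : ℝ) ^ ((1 : ℝ) / 4) ≤ M' →
            (#{j ∈ Ico (0 : ℤ) M' | a + q * (a' + q' * j) ∈ G} : ℝ) ≤ (g + η) * M' := by
  have count_le : ∀ (G : Finset ℤ) (a q : ℤ) (M : ℕ),
      (#{j ∈ Ico (0 : ℤ) M | a + q * j ∈ G} : ℝ) ≤ M := by
    intro G a q M
    have h1 : #{j ∈ Ico (0 : ℤ) M | a + q * j ∈ G} ≤ #(Ico (0 : ℤ) M) := card_filter_le _ _
    have h2 : #(Ico (0 : ℤ) M) = M := by simp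
    rw [h2] at h1
    exact_mod_cast h1
  have key : ∀ (L : ℕ) (G : Finset ℤ) (n : ℕ) (g : ℝ), δ ≤ g → 1 < g + n * η →
      ∀ (a q : ℤ) (M : ℕ), 0 ≤ a → 1 ≤ q → 1 ≤ M → a + q * (M - 1) < L →
        g * M ≤ #{j ∈ Ico (0 : ℤ) M | a + q * j ∈ G} →
      ∃ (a₁ q₁ : ℤ) (M₁ : ℕ), 0 ≤ a₁ ∧ 1 ≤ q₁ ∧ 1 ≤ M₁ ∧ a₁ + q₁ * (M₁ - 1) < L ∧
        (M : ℝ) ^ (((1 : ℝ) / 4) ^ n) ≤ M₁ ∧
        ∃ g₁ : ℝ, δ ≤ g₁ ∧ g₁ ≤ 1 ∧ g₁ * M₁ ≤ #{j ∈ Ico (0 : ℤ) M₁ | a₁ + q₁ * j ∈ G} ∧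
          ∀ (a' q' : ℤ) (M' : ℕ), 0 ≤ a' → 1 ≤ q' → 1 ≤ M' → a' + q' * (M' - 1) < M₁ →
            (M₁ : ℝ) ^ ((1 : ℝ) / 4) ≤ M' →
            (#{j ∈ Ico (0 : ℤ) M' | a₁ + q₁ * (a' + q' * j) ∈ G} : ℝ) ≤ (g₁ + η) * M' := by
    intro L G n
    induction n with
    | zero =>
      intro g _ hg a q M _ _ hM _ hc
      exfalso
      have h1 := count_le G a q M
      have hM' : (1 : ℝ) ≤ M := by exact_mod_cast hM
      have hg' : 1 < g := by simpa using hg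
      nlinarith
    | succ n ih =>
      intro g hδg hg a q M ha hq hM haq hc
      have hM' : (1 : ℝ) ≤ M := by exact_mod_cast hM
      have hg1 : g ≤ 1 := by
        have h1 := count_le G a q M
        by_contra hcon
        push Not at hcon
        nlinarith
      by_cases hst : ∀ (a' q' : ℤ) (M' : ℕ), 0 ≤ a' → 1 ≤ q' → 1 ≤ M' → a' + q' * (M' - 1) < M →
            (M : ℝ) ^ ((1 : ℝ) / 4) ≤ M' →
            (#{j ∈ Ico (0 : ℤ) M' | a + q * (a' + q' * j) ∈ G} : ℝ) ≤ (g + η) * M'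
      · refine ⟨a, q, M, ha, hq, hM, haq, ?_, g, hδg, hg1, hc, hst⟩
        calc (M : ℝ) ^ (((1 : ℝ) / 4) ^ (n + 1)) ≤ (M : ℝ) ^ (1 : ℝ) := by
              apply Real.rpow_le_rpow_of_exponent_le hM'
              exact pow_le_one₀ (by norm_num) (by norm_num)
          _ = M := Real.rpow_one _
      · push Not at hst
        obtain ⟨a', q', M', ha', hq', hM1, hlt, hpow, hcount⟩ := hst
        have hM'' : (1 : ℝ) ≤ M' := by exact_mod_cast hM1
        have hM1z : (1 : ℤ) ≤ M' := by exact_mod_cast hM1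
        have h1 : 1 < (g + η) + n * η := by
          push_cast at hg
          linarith
        obtain ⟨a₁, q₁, M₁, h₁, h₂, h₃, h₄, h₅, h₆⟩ := ih (g + η) (by linarith) h1
          (a + q * a') (q * q') M' (by positivity) (by nlinarith) hM1
          (by
            have : a + q * a' + q * q' * ((M' : ℤ) - 1) = a + q * (a' + q' * ((M' : ℤ) - 1)) := by ring
            rw [this]
            have h5 : a' + q' * ((M' : ℤ) - 1) ≤ (M : ℤ) - 1 := by omega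
            have h6 : q * (a' + q' * ((M' : ℤ) - 1)) ≤ q * ((M : ℤ) - 1) :=
              mul_le_mul_of_nonneg_left h5 (by omega)
            linarith)
          (by
            refine le_trans hcount.le ?_
            have : ∀ j : ℤ, a + q * a' + q * q' * j = a + q * (a' + q' * j) := by
              intro j; ring
            simp only [this]
            exact le_rfl)
        refine ⟨a₁, q₁, M₁, h₁, h₂, h₃, h₄, ?_, h₆⟩
        refine le_trans ?_ h₅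
        calc (M : ℝ) ^ (((1 : ℝ) / 4) ^ (n + 1))
            = ((M : ℝ) ^ ((1 : ℝ) / 4)) ^ (((1 : ℝ) / 4) ^ n) := by
              rw [← Real.rpow_mul (by positivity), pow_succ, mul_comm]
          _ ≤ (M' : ℝ) ^ (((1 : ℝ) / 4) ^ n) := by
              apply Real.rpow_le_rpow (by positivity) hpow (by positivity)
  obtain ⟨n, hn⟩ := exists_nat_gt (1 / η)
  have hn' : 1 < n * η := by
    rw [div_lt_iff₀ hη] at hn
    exact hn
  refine ⟨((1 : ℝ) / 4) ^ n, by positivity, pow_le_one₀ (by norm_num) (by norm_num), ?_⟩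
  intro L hL G hG hGc
  have hfil : {j ∈ Ico (0 : ℤ) (L : ℤ) | (0 : ℤ) + 1 * j ∈ G} = G := by
    ext j
    simp only [mem_filter, zero_add, one_mul]
    constructor
    · exact fun h => h.2
    · exact fun h => ⟨hG h, h⟩
  exact key L G n δ le_rfl (by linarith) 0 1 L le_rfl le_rfl hL (by omega) (by rw [hfil]; exact hGc)

end Pool.Agent.H646.StabM
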