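import Mathlib
import Pool.Agent.H646.Defs
import Pool.Agent.H646.Conv

namespace Pool.Agent.H646.StepM
open Finset
open Pool.Agent.H646.ConvM (conv_sq_le)



theorem quant (X : Finset ℤ) (h : ℤ → ℝ) (e : ℝ) (he : 0 < e) (hX : e ≤ #X) :
    ∃ t : ℝ, e ≤ #{x ∈ X | h x ≤ t} ∧ (#{x ∈ X | h x < t} : ℝ) < e := by
  classical
  set V := (X.image h).filter (fun t => e ≤ #{x ∈ X | h x ≤ t}) with hV
  have hne : X.Nonempty := by
    rw [← Finset.card_pos]; exact_mod_cast lt_of_lt_of_le he hX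
  have hVne : V.Nonempty := by
    obtain ⟨m, hm, hmax⟩ := X.exists_max_image h hne
    refine ⟨h m, ?_⟩
    rw [hV, mem_filter]
    refine ⟨mem_image_of_mem h hm, ?_⟩
    have : X.filter (fun x => h x ≤ h m) = X := filter_true_of_mem (fun x hx => hmax x hx)
    rw [this]; exact hX
  obtain ⟨t, ht, hmin⟩ := V.exists_min_image id hVne
  refine ⟨t, (mem_filter.mp ht).2, ?_⟩
  by_contra hcon
  push Not at hcon
  have hne2 : (X.filter (fun x => h x < t)).Nonempty := by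
    rw [← Finset.card_pos]; exact_mod_cast lt_of_lt_of_le he hcon
  obtain ⟨m, hm, hmax⟩ := (X.filter (fun x => h x < t)).exists_max_image h hne2
  rw [mem_filter] at hm
  have hmV : h m ∈ V := by
    rw [hV, mem_filter]
    refine ⟨mem_image_of_mem h hm.1, hcon.trans ?_⟩
    exact_mod_cast card_le_card (fun x hx => by
      rw [mem_filter] at hx ⊢
      exact ⟨hx.1, hmax x (mem_filter.mpr hx)⟩)
  have := hmin _ hmV
  simp at this
  linarith [hm.2]

theorem sq_count (B : Finset ℤ) (W : ℤ → ℝ) (κ g : ℝ) (ρ : ℕ) (l : ℝ) (hl : 0 < l) (hg : 0 < g)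
    (h1 : ∑ n ∈ B, (W n) ^ 2 ≤ (κ * ρ) ^ 2 * l)
    (h2 : ∀ n ∈ B, W n < - (g / 2 * l)) : (#B : ℝ) * (g ^ 2 * l) ≤ 4 * κ ^ 2 * ρ ^ 2 := by
  have h3 : (#B : ℝ) * (g / 2 * l) ^ 2 ≤ ∑ n ∈ B, (W n) ^ 2 := by
    rw [← nsmul_eq_mul, ← Finset.sum_const]
    apply Finset.sum_le_sum
    intro n hn
    have h4 := h2 n hn
    have h5 : 0 < g / 2 * l := by positivity
    nlinarith
  have h6 : (#B : ℝ) * (g ^ 2 * l) * l ≤ 4 * κ ^ 2 * ρ ^ 2 * l := by
    nlinarith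
  exact le_of_mul_le_mul_right h6 hl

section cnt
variable (G : Finset ℤ) (g κ : ℝ) (ρ : ℕ)

/-- the balanced function -/
noncomputable def FF (n : ℤ) : ℝ :=
  if n ∈ Icc (-(64 * ρ : ℤ)) (64 * ρ) then ((if n ∈ G then (1 : ℝ) else 0) - g) else 0

theorem FF_out (n : ℤ) (hn : n ∉ Icc (-(64 * ρ : ℤ)) (64 * ρ)) : FF G g ρ n = 0 := by
  unfold FF; rw [if_neg hn]

theorem FF_in (n : ℤ) (hn : n ∈ Icc (-(64 * ρ : ℤ)) (64 * ρ)) :
    FF G g ρ n = (if n ∈ G then (1 : ℝ) else 0) - g := by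
  unfold FF; rw [if_pos hn]

theorem FF_sum
    (hU : ∀ θ : ℝ, ‖∑ n ∈ Icc (-(64 * ρ : ℤ)) (64 * ρ), ((if n ∈ G then (1 : ℂ) else 0) - (g : ℂ)) *
        Complex.exp (2 * Real.pi * Complex.I * θ * n)‖ ≤ κ * ρ) (θ : ℝ) :
    ‖∑ n ∈ Icc (-(64 * ρ : ℤ)) (64 * ρ), (FF G g ρ n : ℂ) *
        Complex.exp (2 * Real.pi * Complex.I * θ * n)‖ ≤ κ * ρ := by
  refine le_trans (le_of_eq ?_) (hU θ)
  congr 1
  apply Finset.sum_congr rfl
  intro n hn
  rw [FF_in G g ρ n hn]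
  congr 1
  split_ifs <;> simp

theorem FF_sum_neg
    (hU : ∀ θ : ℝ, ‖∑ n ∈ Icc (-(64 * ρ : ℤ)) (64 * ρ), ((if n ∈ G then (1 : ℂ) else 0) - (g : ℂ)) *
        Complex.exp (2 * Real.pi * Complex.I * θ * n)‖ ≤ κ * ρ) (θ : ℝ) :
    ‖∑ n ∈ Icc (-(64 * ρ : ℤ)) (64 * ρ), (FF G g ρ (-n) : ℂ) *
        Complex.exp (2 * Real.pi * Complex.I * θ * n)‖ ≤ κ * ρ := by
  refine le_trans (le_of_eq ?_) (FF_sum G g κ ρ hU (-θ))
  congr 1
  apply Finset.sum_nbij' (fun n => -n) (fun n => -n)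
  · intro n hn; rw [mem_Icc] at hn ⊢; constructor <;> linarith [hn.1, hn.2]
  · intro n hn; rw [mem_Icc] at hn ⊢; constructor <;> linarith [hn.1, hn.2]
  · intro n _; simp
  · intro n _; simp
  · intro n _
    congr 2
    push_cast
    ring

theorem ff_eval (L : Finset ℤ) (c : ℤ → ℤ) (hc : ∀ x ∈ L, c x ∈ Icc (-(64 * ρ : ℤ)) (64 * ρ)) :
    ∑ x ∈ L, FF G g ρ (c x) = (#{x ∈ L | c x ∈ G} : ℝ) - g * #L := by
  have h1 : ∑ x ∈ L, FF G g ρ (c x) = ∑ x ∈ L, ((if c x ∈ G then (1 : ℝ) else 0) - g) :=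
    Finset.sum_congr rfl (fun x hx => FF_in G g ρ _ (hc x hx))
  rw [h1, Finset.sum_sub_distrib, Finset.sum_boole, Finset.sum_const, nsmul_eq_mul]
  ring

theorem cntA
    (hU : ∀ θ : ℝ, ‖∑ n ∈ Icc (-(64 * ρ : ℤ)) (64 * ρ), ((if n ∈ G then (1 : ℂ) else 0) - (g : ℂ)) *
        Complex.exp (2 * Real.pi * Complex.I * θ * n)‖ ≤ κ * ρ)
    (hg : 0 < g)
    (L B : Finset ℤ) (hL : L ⊆ Icc (-(16 * ρ : ℤ)) (16 * ρ)) (hB : B ⊆ Icc (-(16 * ρ : ℤ)) (16 * ρ))
    (hne : (0 : ℝ) < #L)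
    (hc : ∀ c ∈ B, (#{x ∈ L | 2 * x - c ∈ G} : ℝ) < g / 2 * #L) :
    (#B : ℝ) * (g ^ 2 * #L) ≤ 4 * κ ^ 2 * ρ ^ 2 := by
  have h0 := conv_sq_le (fun n => FF G g ρ (-n)) (Icc (-(64 * ρ : ℤ)) (64 * ρ))
    (fun n hn => FF_out G g ρ (-n) (by
      intro h; apply hn; rw [mem_Icc] at h ⊢; constructor <;> linarith [h.1, h.2]))
    (κ * ρ) (FF_sum_neg G g κ ρ hU) (L.image (fun x => 2 * x)) B
  have hinj : Function.Injective (fun x : ℤ => 2 * x) := fun x y h => by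
    simpa using h
  rw [Finset.card_image_of_injective _ hinj] at h0
  apply sq_count B _ κ g ρ (#L : ℝ) hne hg h0
  intro c hcB
  rw [Finset.sum_image (fun x _ y _ h => hinj h)]
  have h1 : ∑ x ∈ L, FF G g ρ (-(c - 2 * x)) = ∑ x ∈ L, FF G g ρ (2 * x - c) := by
    apply Finset.sum_congr rfl
    intro x _
    congr 1
    ring
  rw [h1, ff_eval G g ρ L (fun x => 2 * x - c)]
  · have := hc c hcB
    linarith
  · intro x hx
    have h2 := mem_Icc.mp (hL hx)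
    have h3 := mem_Icc.mp (hB hcB)
    rw [mem_Icc]
    constructor <;> linarith [h2.1, h2.2, h3.1, h3.2]

theorem cntB
    (hU : ∀ θ : ℝ, ‖∑ n ∈ Icc (-(64 * ρ : ℤ)) (64 * ρ), ((if n ∈ G then (1 : ℂ) else 0) - (g : ℂ)) *
        Complex.exp (2 * Real.pi * Complex.I * θ * n)‖ ≤ κ * ρ)
    (hg : 0 < g)
    (L B : Finset ℤ) (hL : L ⊆ Icc (-(16 * ρ : ℤ)) (16 * ρ)) (hB : B ⊆ Icc (-(16 * ρ : ℤ)) (16 * ρ))
    (hne : (0 : ℝ) < #L)
    (hc : ∀ x ∈ B, (#{c ∈ L | 2 * x - c ∈ G} : ℝ) < g / 2 * #L) :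
    (#B : ℝ) * (g ^ 2 * #L) ≤ 4 * κ ^ 2 * ρ ^ 2 := by
  have h0 := conv_sq_le (FF G g ρ) (Icc (-(64 * ρ : ℤ)) (64 * ρ))
    (fun n hn => FF_out G g ρ n hn)
    (κ * ρ) (FF_sum G g κ ρ hU) L (B.image (fun x => 2 * x))
  have hinj : Function.Injective (fun x : ℤ => 2 * x) := fun x y h => by
    simpa using h
  rw [Finset.sum_image (fun x _ y _ h => hinj h)] at h0
  apply sq_count B _ κ g ρ (#L : ℝ) hne hg h0
  intro x hxB
  rw [ff_eval G g ρ L (fun c => 2 * x - c)]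
  · have := hc x hxB
    linarith
  · intro c hcL
    have h2 := mem_Icc.mp (hL hcL)
    have h3 := mem_Icc.mp (hB hxB)
    rw [mem_Icc]
    constructor <;> linarith [h2.1, h2.2, h3.1, h3.2]

end cnt

theorem canc (n l g δ κ ρ e : ℝ) (hn : 0 ≤ n) (hδ : 0 < δ) (hg : δ ≤ g) (hρ : 0 < ρ) (he : 0 < e)
    (hl : e * ρ ≤ l) (h : n * (g ^ 2 * l) ≤ 4 * κ ^ 2 * ρ ^ 2) :
    n * (δ ^ 2 * e) ≤ 4 * κ ^ 2 * ρ := by
  have h1 : δ ^ 2 ≤ g ^ 2 := pow_le_pow_left₀ hδ.le hg 2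
  have h2 : δ ^ 2 * (e * ρ) ≤ g ^ 2 * l := by
    apply mul_le_mul h1 hl (by positivity) (by positivity)
  have h3 : n * (δ ^ 2 * (e * ρ)) ≤ 4 * κ ^ 2 * ρ ^ 2 := (mul_le_mul_of_nonneg_left h2 hn).trans h
  have h4 : n * (δ ^ 2 * e) * ρ ≤ 4 * κ ^ 2 * ρ * ρ := by nlinarith
  exact le_of_mul_le_mul_right h4 hρ

/-- one oscillation-halving step -/
theorem osc_step (δ : ℝ) (hδ : 0 < δ) (hδ1 : δ ≤ 1) :
    ∃ κ > (0 : ℝ), ∃ η > (0 : ℝ), κ ≤ 1 ∧ η ≤ δ / 4 ∧ ∀ ρ : ℕ, 1 ≤ ρ →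
      ∀ (G : Finset ℤ) (g : ℝ) (h : ℤ → ℝ) (a b : ℝ), δ ≤ g → g ≤ 1 → a ≤ b →
      (∀ x ∈ G, ∀ i : ℤ, x + i ∈ G → x - i ∈ G → h (x + i) + h (x - i) ≤ 2 * h x) →
      (∀ θ : ℝ, ‖∑ n ∈ Icc (-(64 * ρ : ℤ)) (64 * ρ), ((if n ∈ G then (1 : ℂ) else 0) - (g : ℂ)) *
        Complex.exp (2 * Real.pi * Complex.I * θ * n)‖ ≤ κ * ρ) →
      g / 2 * ρ ≤ #(G ∩ Icc (-(ρ : ℤ)) ρ) →
      (#{x ∈ G ∩ Icc (-(64 * ρ : ℤ)) (64 * ρ) | h x < a ∨ b < h x} : ℝ) ≤ η * (64 * ρ) →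
      ∃ a' b' : ℝ, a' ≤ b' ∧ b' - a' ≤ (b - a) / 2 ∧
        (#{x ∈ G ∩ Icc (-(ρ : ℤ)) ρ | h x < a' ∨ b' < h x} : ℝ) ≤ η * ρ := by
  have hδ2 : δ ^ 2 ≤ δ := by nlinarith
  have hp : ∀ k : ℕ, 0 < δ ^ k := fun k => pow_pos hδ k
  have hp1 : ∀ k : ℕ, δ ^ k ≤ 1 := fun k => pow_le_one₀ hδ.le hδ1
  refine ⟨δ ^ 4 / 100000, by have := hp 4; positivity, δ ^ 2 / 2000, by have := hp 2; positivity,
    by linarith [hp1 4], by linarith, ?_⟩
  intro ρ hρ G g h a b hgδ hg1 hab hmid hU hG hE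
  have hg : 0 < g := lt_of_lt_of_le hδ hgδ
  have hρ' : (1 : ℝ) ≤ ρ := by exact_mod_cast hρ
  have hρ0 : (0 : ℝ) < ρ := by linarith
  have hρz : (1 : ℤ) ≤ ρ := by exact_mod_cast hρ
  set κ : ℝ := δ ^ 4 / 100000 with hκ
  set η : ℝ := δ ^ 2 / 2000 with hη
  set e10 : ℝ := δ ^ 2 / 4000 with he10
  set e8 : ℝ := δ ^ 3 / 16000 with he8
  have he10p : 0 < e10 := by have := hp 2; positivity
  have he8p : 0 < e8 := by have := hp 3; positivity
  set E := {x ∈ G ∩ Icc (-(64 * ρ : ℤ)) (64 * ρ) | h x < a ∨ b < h x} with hEdef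
  -- Step A
  set L0 := G ∩ Icc (-(16 * ρ : ℤ)) (16 * ρ) with hL0
  have hL0card : g / 2 * ρ ≤ #L0 := by
    refine hG.trans ?_
    exact_mod_cast card_le_card (by
      apply Finset.inter_subset_inter_left
      apply Finset.Icc_subset_Icc <;> linarith)
  have hL0pos : (0 : ℝ) < #L0 := lt_of_lt_of_le (by positivity) hL0card
  set B0 := {x ∈ G ∩ Icc (-(16 * ρ : ℤ)) (16 * ρ) | h x < a} with hB0
  have hB0sub : B0 ⊆ Icc (-(16 * ρ : ℤ)) (16 * ρ) := fun x hx =>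
    (mem_inter.mp (mem_filter.mp hx).1).2
  have hA := cntB G g κ ρ hU hg L0 B0 Finset.inter_subset_right hB0sub hL0pos (by
    intro x hx
    by_contra hcon
    push Not at hcon
    -- C
    have hxG : x ∈ G := (mem_inter.mp (mem_filter.mp hx).1).1
    have hxI := mem_Icc.mp (hB0sub hx)
    have hxa : h x < a := (mem_filter.mp hx).2
    have hCsub : (L0.filter (fun c => 2 * x - c ∈ G)) ⊆ E ∪ E.image (fun y => 2 * x - y) := by
      intro c hc
      rw [mem_filter] at hc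
      have hcG : c ∈ G := (mem_inter.mp hc.1).1
      have hcI := mem_Icc.mp (mem_inter.mp hc.1).2
      by_cases h1 : h c < a
      · apply mem_union_left
        rw [hEdef, mem_filter, mem_inter, mem_Icc]
        exact ⟨⟨hcG, by constructor <;> linarith [hcI.1, hcI.2]⟩, Or.inl h1⟩
      · by_cases h2 : h (2 * x - c) < a
        · apply mem_union_right
          rw [mem_image]
          refine ⟨2 * x - c, ?_, by ring⟩
          rw [hEdef, mem_filter, mem_inter, mem_Icc]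
          exact ⟨⟨hc.2, by constructor <;> linarith [hcI.1, hcI.2, hxI.1, hxI.2]⟩, Or.inl h2⟩
        · exfalso
          have h3 := hmid x hxG (c - x) (by rw [show x + (c - x) = c by ring]; exact hcG)
            (by rw [show x - (c - x) = 2 * x - c by ring]; exact hc.2)
          rw [show x + (c - x) = c by ring, show x - (c - x) = 2 * x - c by ring] at h3
          push Not at h1 h2
          linarith
    have h4 : (#(L0.filter (fun c => 2 * x - c ∈ G)) : ℝ) ≤ 2 * #E := by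
      have h5 := card_le_card hCsub
      have h6 := card_union_le E (E.image (fun y => 2 * x - y))
      have h7 : #(E.image (fun y => 2 * x - y)) ≤ #E := card_image_le
      exact_mod_cast (by omega : #(L0.filter (fun c => 2 * x - c ∈ G)) ≤ 2 * #E)
    have h8 : g / 2 * (g / 2 * ρ) ≤ g / 2 * #L0 := by
      apply mul_le_mul_of_nonneg_left hL0card; positivity
    have h9 : δ ^ 2 ≤ g ^ 2 := by nlinarith
    have h10 : δ ^ 2 * ρ ≤ g ^ 2 * ρ := mul_le_mul_of_nonneg_right h9 hρ0.le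
    have h11 : 0 < δ ^ 2 * ρ := by have := hp 2; positivity
    rw [hη] at hE
    nlinarith)
  -- |B0| ≤ k1 ρ
  have hB0card : (#B0 : ℝ) ≤ (8 * δ ^ 5 / 10 ^ 10) * ρ := by
    have h1 := canc (#B0) (#L0) g δ κ ρ (δ / 2) (Nat.cast_nonneg _) hδ hgδ hρ0 (by positivity)
      (by nlinarith) hA
    have h2 : δ ^ 3 * (#B0 : ℝ) ≤ δ ^ 3 * ((8 * δ ^ 5 / 10 ^ 10) * ρ) := by
      rw [hκ] at h1
      nlinarith
    exact le_of_mul_le_mul_left h2 (hp 3)
  have hX4card : g / 2 * ρ ≤ #(G ∩ Icc (-(4 * ρ : ℤ)) (4 * ρ)) := by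
    refine hG.trans ?_
    exact Nat.cast_le.mpr (card_le_card (by
      apply Finset.inter_subset_inter_left
      apply Finset.Icc_subset_Icc <;> linarith))
  have he10s : e10 ≤ δ / 4000 := by rw [he10]; linarith
  have he8s : e8 = δ / 4 * e10 := by rw [he8, he10]; ring
  have he8l : e8 ≤ e10 / 4 := by rw [he8s]; nlinarith
  have he10g : e10 * ρ ≤ g / 4000 * ρ := mul_le_mul_of_nonneg_right (by linarith) hρ0.le
  have he8g : e8 * ρ ≤ e10 * ρ / 4 := by nlinarith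
  -- Step B
  obtain ⟨a1, ha1, ha1'⟩ := quant (G ∩ Icc (-(4 * ρ : ℤ)) (4 * ρ)) h (e8 * ρ) (by positivity)
    (by nlinarith)
  set L1 := {x ∈ G ∩ Icc (-(4 * ρ : ℤ)) (4 * ρ) | h x ≤ a1} with hL1
  set M1 := {x ∈ G ∩ Icc (-(4 * ρ : ℤ)) (4 * ρ) | h x < a1} with hM1
  set B1 := {x ∈ G ∩ Icc (-(4 * ρ : ℤ)) (4 * ρ) | 2 * a1 - a < h x} with hB1
  have hL1sub : L1 ⊆ Icc (-(16 * ρ : ℤ)) (16 * ρ) := fun x hx => by
    have := mem_Icc.mp (mem_inter.mp (mem_filter.mp hx).1).2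
    rw [mem_Icc]; constructor <;> linarith [this.1, this.2]
  have hB1sub : B1 ⊆ Icc (-(16 * ρ : ℤ)) (16 * ρ) := fun x hx => by
    have := mem_Icc.mp (mem_inter.mp (mem_filter.mp hx).1).2
    rw [mem_Icc]; constructor <;> linarith [this.1, this.2]
  have hL1pos : (0 : ℝ) < #L1 := lt_of_lt_of_le (by positivity) ha1
  have hp5 : δ ^ 5 ≤ δ ^ 4 := pow_le_pow_of_le_one hδ.le hδ1 (by norm_num)
  have hk1 : (8 * δ ^ 5 / 10 ^ 10) * ρ < δ / 2 * (e8 * ρ) := by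
    have h1 : 8 * δ ^ 5 / 10 ^ 10 < δ / 2 * e8 := by
      rw [he8]
      have h2 : δ / 2 * (δ ^ 3 / 16000) = δ ^ 4 / 32000 := by ring
      rw [h2]
      have := hp 4
      linarith
    calc (8 * δ ^ 5 / 10 ^ 10) * ρ < δ / 2 * e8 * ρ := mul_lt_mul_of_pos_right h1 hρ0
      _ = δ / 2 * (e8 * ρ) := by ring
  have hBB := cntA G g κ ρ hU hg L1 B1 hL1sub hB1sub hL1pos (by
    intro c hc
    by_contra hcon
    push Not at hcon
    have hcG : c ∈ G := (mem_inter.mp (mem_filter.mp hc).1).1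
    have hcI := mem_Icc.mp (mem_inter.mp (mem_filter.mp hc).1).2
    have hca : 2 * a1 - a < h c := (mem_filter.mp hc).2
    have hsub : (L1.filter (fun x => 2 * x - c ∈ G)).image (fun x => 2 * x - c) ⊆ B0 := by
      intro y hy
      rw [mem_image] at hy
      obtain ⟨x, hx, rfl⟩ := hy
      rw [mem_filter] at hx
      have hxG : x ∈ G := (mem_inter.mp (mem_filter.mp hx.1).1).1
      have hxI := mem_Icc.mp (mem_inter.mp (mem_filter.mp hx.1).1).2
      have hxa : h x ≤ a1 := (mem_filter.mp hx.1).2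
      rw [hB0, mem_filter, mem_inter, mem_Icc]
      refine ⟨⟨hx.2, by constructor <;> linarith [hcI.1, hcI.2, hxI.1, hxI.2]⟩, ?_⟩
      have h3 := hmid x hxG (c - x) (by rw [show x + (c - x) = c by ring]; exact hcG)
        (by rw [show x - (c - x) = 2 * x - c by ring]; exact hx.2)
      rw [show x + (c - x) = c by ring, show x - (c - x) = 2 * x - c by ring] at h3
      linarith
    have h4 : #(L1.filter (fun x => 2 * x - c ∈ G)) ≤ #B0 := by
      rw [← Finset.card_image_of_injective (L1.filter (fun x => 2 * x - c ∈ G))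
        (f := fun x => 2 * x - c) (fun x y hxy => by simpa using hxy)]
      exact card_le_card hsub
    have h5 : (#(L1.filter (fun x => 2 * x - c ∈ G)) : ℝ) ≤ #B0 := by exact_mod_cast h4
    have h6 : g / 2 * (e8 * ρ) ≤ g / 2 * #L1 := mul_le_mul_of_nonneg_left ha1 (by positivity)
    have h7 : δ / 2 * (e8 * ρ) ≤ g / 2 * (e8 * ρ) :=
      mul_le_mul_of_nonneg_right (by linarith) (by positivity)
    linarith)
  have hB1card : (#B1 : ℝ) ≤ (64000 * δ ^ 3 / 10 ^ 10) * ρ := by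
    have h1 := canc (#B1) (#L1) g δ κ ρ e8 (Nat.cast_nonneg _) hδ hgδ hρ0 he8p ha1 hBB
    have h2 : δ ^ 5 * (#B1 : ℝ) ≤ δ ^ 5 * ((64000 * δ ^ 3 / 10 ^ 10) * ρ) := by
      rw [hκ, he8] at h1
      nlinarith
    exact le_of_mul_le_mul_left h2 (hp 5)
  have haa1 : a ≤ a1 := by
    by_contra hcon
    push Not at hcon
    have h1 : L1 ⊆ B0 := by
      intro x hx
      have h2 := hL1sub hx
      rw [hB0, mem_filter, mem_inter]
      exact ⟨⟨(mem_inter.mp (mem_filter.mp hx).1).1, h2⟩,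
        lt_of_le_of_lt (mem_filter.mp hx).2 hcon⟩
    have h3 : (#L1 : ℝ) ≤ #B0 := by exact_mod_cast card_le_card h1
    have h4 : δ / 2 * (e8 * ρ) ≤ 1 * (e8 * ρ) :=
      mul_le_mul_of_nonneg_right (by linarith) (by positivity)
    linarith
  have ha1b : a1 ≤ b := by
    by_contra hcon
    push Not at hcon
    have h1 : G ∩ Icc (-(4 * ρ : ℤ)) (4 * ρ) ⊆ M1 ∪ E := by
      intro x hx
      by_cases h2 : h x ≤ b
      · apply mem_union_left
        rw [hM1, mem_filter]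
        exact ⟨hx, lt_of_le_of_lt h2 hcon⟩
      · apply mem_union_right
        have := mem_Icc.mp (mem_inter.mp hx).2
        rw [hEdef, mem_filter, mem_inter, mem_Icc]
        push Not at h2
        exact ⟨⟨(mem_inter.mp hx).1, by constructor <;> linarith [this.1, this.2]⟩, Or.inr h2⟩
    have h3 : (#(G ∩ Icc (-(4 * ρ : ℤ)) (4 * ρ)) : ℝ) ≤ #M1 + #E := by
      exact_mod_cast (card_le_card h1).trans (card_union_le _ _)
    have h4 : η * (64 * ρ) ≤ δ * (64 / 2000) * ρ := by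
      rw [hη]
      nlinarith
    have h5 : δ * ρ ≤ g * ρ := mul_le_mul_of_nonneg_right hgδ hρ0.le
    have h6 : 0 < δ * ρ := by positivity
    nlinarith
  -- Step C
  obtain ⟨a2, ha2, ha2'⟩ := quant (G ∩ Icc (-(ρ : ℤ)) ρ) h (e10 * ρ) (by positivity)
    (by nlinarith)
  set L2 := {x ∈ G ∩ Icc (-(ρ : ℤ)) ρ | h x ≤ a2} with hL2
  set M2 := {x ∈ G ∩ Icc (-(ρ : ℤ)) ρ | h x < a2} with hM2
  set B2 := {x ∈ G ∩ Icc (-(ρ : ℤ)) ρ | 2 * a2 - a1 < h x} with hB2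
  have hL2sub : L2 ⊆ Icc (-(16 * ρ : ℤ)) (16 * ρ) := fun x hx => by
    have := mem_Icc.mp (mem_inter.mp (mem_filter.mp hx).1).2
    rw [mem_Icc]; constructor <;> linarith [this.1, this.2]
  have hB2sub : B2 ⊆ Icc (-(16 * ρ : ℤ)) (16 * ρ) := fun x hx => by
    have := mem_Icc.mp (mem_inter.mp (mem_filter.mp hx).1).2
    rw [mem_Icc]; constructor <;> linarith [this.1, this.2]
  have hL2pos : (0 : ℝ) < #L2 := lt_of_lt_of_le (by positivity) ha2
  have hCC := cntA G g κ ρ hU hg L2 B2 hL2sub hB2sub hL2pos (by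
    intro c hc
    by_contra hcon
    push Not at hcon
    have hcG : c ∈ G := (mem_inter.mp (mem_filter.mp hc).1).1
    have hcI := mem_Icc.mp (mem_inter.mp (mem_filter.mp hc).1).2
    have hca : 2 * a2 - a1 < h c := (mem_filter.mp hc).2
    have hsub : (L2.filter (fun x => 2 * x - c ∈ G)).image (fun x => 2 * x - c) ⊆ M1 := by
      intro y hy
      rw [mem_image] at hy
      obtain ⟨x, hx, rfl⟩ := hy
      rw [mem_filter] at hx
      have hxG : x ∈ G := (mem_inter.mp (mem_filter.mp hx.1).1).1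
      have hxI := mem_Icc.mp (mem_inter.mp (mem_filter.mp hx.1).1).2
      have hxa : h x ≤ a2 := (mem_filter.mp hx.1).2
      rw [hM1, mem_filter, mem_inter, mem_Icc]
      refine ⟨⟨hx.2, by constructor <;> linarith [hcI.1, hcI.2, hxI.1, hxI.2]⟩, ?_⟩
      have h3 := hmid x hxG (c - x) (by rw [show x + (c - x) = c by ring]; exact hcG)
        (by rw [show x - (c - x) = 2 * x - c by ring]; exact hx.2)
      rw [show x + (c - x) = c by ring, show x - (c - x) = 2 * x - c by ring] at h3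
      linarith
    have h4 : #(L2.filter (fun x => 2 * x - c ∈ G)) ≤ #M1 := by
      rw [← Finset.card_image_of_injective (L2.filter (fun x => 2 * x - c ∈ G))
        (f := fun x => 2 * x - c) (fun x y hxy => by simpa using hxy)]
      exact card_le_card hsub
    have h5 : (#(L2.filter (fun x => 2 * x - c ∈ G)) : ℝ) ≤ #M1 := by exact_mod_cast h4
    have h6 : g / 2 * (e10 * ρ) ≤ g / 2 * #L2 := mul_le_mul_of_nonneg_left ha2 (by positivity)
    have h7 : δ / 4 * (e10 * ρ) ≤ g / 2 * (e10 * ρ) :=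
      mul_le_mul_of_nonneg_right (by linarith) (by positivity)
    have h8 : e8 * ρ = δ / 4 * (e10 * ρ) := by rw [he8s]; ring
    linarith)
  have hB2card : (#B2 : ℝ) ≤ (16000 * δ ^ 4 / 10 ^ 10) * ρ := by
    have h1 := canc (#B2) (#L2) g δ κ ρ e10 (Nat.cast_nonneg _) hδ hgδ hρ0 he10p ha2 hCC
    have h2 : δ ^ 4 * (#B2 : ℝ) ≤ δ ^ 4 * ((16000 * δ ^ 4 / 10 ^ 10) * ρ) := by
      rw [hκ, he10] at h1
      nlinarith
    exact le_of_mul_le_mul_left h2 (hp 4)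
  have ha12 : a1 ≤ a2 := by
    by_contra hcon
    push Not at hcon
    have h1 : L2 ⊆ M1 := by
      intro x hx
      have h2 := mem_Icc.mp (mem_inter.mp (mem_filter.mp hx).1).2
      rw [hM1, mem_filter, mem_inter, mem_Icc]
      exact ⟨⟨(mem_inter.mp (mem_filter.mp hx).1).1, by constructor <;> linarith [h2.1, h2.2]⟩,
        lt_of_le_of_lt (mem_filter.mp hx).2 hcon⟩
    have h3 : (#L2 : ℝ) ≤ #M1 := by exact_mod_cast card_le_card h1
    have h4 : 0 < e10 * ρ := by positivity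
    linarith
  have hp3 : δ ^ 3 ≤ δ ^ 2 := pow_le_pow_of_le_one hδ.le hδ1 (by norm_num)
  have hp4 : δ ^ 4 ≤ δ ^ 2 := pow_le_pow_of_le_one hδ.le hδ1 (by norm_num)
  have hk2 : (64000 * δ ^ 3 / 10 ^ 10) * ρ + (16000 * δ ^ 4 / 10 ^ 10) * ρ ≤ e10 * ρ := by
    rw [← add_mul]
    apply mul_le_mul_of_nonneg_right _ hρ0.le
    rw [he10]
    have := hp 2
    linarith
  have hk3 : 0 ≤ (16000 * δ ^ 4 / 10 ^ 10) * (ρ : ℝ) := by have := hp 4; positivity
  have ha2u : a2 ≤ 2 * a1 - a := by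
    by_contra hcon
    push Not at hcon
    have h1 : G ∩ Icc (-(ρ : ℤ)) ρ ⊆ M2 ∪ B1 := by
      intro x hx
      by_cases h2 : h x ≤ 2 * a1 - a
      · apply mem_union_left
        rw [hM2, mem_filter]
        exact ⟨hx, lt_of_le_of_lt h2 hcon⟩
      · apply mem_union_right
        have := mem_Icc.mp (mem_inter.mp hx).2
        rw [hB1, mem_filter, mem_inter, mem_Icc]
        push Not at h2
        exact ⟨⟨(mem_inter.mp hx).1, by constructor <;> linarith [this.1, this.2]⟩, h2⟩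
    have h3 : (#(G ∩ Icc (-(ρ : ℤ)) ρ) : ℝ) ≤ #M2 + #B1 := by
      exact_mod_cast (card_le_card h1).trans (card_union_le _ _)
    have h4 : 0 < g * ρ := by positivity
    linarith
  refine ⟨a2, min (2 * a2 - a1) (2 * a1 - a), ?_, ?_, ?_⟩
  · apply le_min
    · linarith
    · exact ha2u
  · have h1 := min_le_left (2 * a2 - a1) (2 * a1 - a)
    have h2 := min_le_right (2 * a2 - a1) (2 * a1 - a)
    linarith
  · have h1 : {x ∈ G ∩ Icc (-(ρ : ℤ)) ρ | h x < a2 ∨ min (2 * a2 - a1) (2 * a1 - a) < h x} ⊆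
        M2 ∪ (B1 ∪ B2) := by
      intro x hx
      rw [mem_filter] at hx
      obtain ⟨hx, h2 | h2⟩ := hx
      · apply mem_union_left
        rw [hM2, mem_filter]
        exact ⟨hx, h2⟩
      · apply mem_union_right
        rw [min_lt_iff] at h2
        rcases h2 with h2 | h2
        · apply mem_union_right
          rw [hB2, mem_filter]
          exact ⟨hx, h2⟩
        · apply mem_union_left
          have := mem_Icc.mp (mem_inter.mp hx).2
          rw [hB1, mem_filter, mem_inter, mem_Icc]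
          exact ⟨⟨(mem_inter.mp hx).1, by constructor <;> linarith [this.1, this.2]⟩, h2⟩
    have h3 : (#{x ∈ G ∩ Icc (-(ρ : ℤ)) ρ | h x < a2 ∨ min (2 * a2 - a1) (2 * a1 - a) < h x} : ℝ) ≤
        #M2 + (#B1 + #B2) := by
      have h4 := (card_le_card h1).trans (card_union_le _ _)
      have h5 := card_union_le B1 B2
      exact_mod_cast h4.trans (by omega)
    have h6 : η * ρ = 2 * (e10 * ρ) := by rw [hη, he10]; ring
    linarith

end Pool.Agent.H646.StepM
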