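import Mathlib
import Pool.Agent.H646.Defs

namespace Pool.Agent.H646.UnifM
open Finset


theorem slide {E : Type*} [AddCommMonoid E] (Φ : ℤ → E) (I T : Finset ℤ) (s : ℤ)
    (h0 : ∀ n, n ∉ I → Φ n = 0) (hsub : ∀ n ∈ I, n - s ∈ T) :
    ∑ t ∈ T, Φ (t + s) = ∑ n ∈ I, Φ n := by
  have h1 : ∑ n ∈ I, Φ n = ∑ n ∈ T.map (addRightEmbedding s), Φ n := by
    apply Finset.sum_subset
    · intro n hn
      rw [Finset.mem_map]
      exact ⟨n - s, hsub n hn, by simp⟩
    · intro n _ hn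
      exact h0 n hn
  rw [h1, Finset.sum_map]
  rfl

theorem phase_bound (θ : ℝ) (p q j : ℤ) (M Q : ℕ) (hj0 : 0 ≤ j) (hjM : j < M)
    (hpq : |(q : ℝ) * θ - p| ≤ 1 / (Q + 1)) :
    ‖Complex.exp (2 * Real.pi * Complex.I * θ * ((q * j : ℤ) : ℂ)) - 1‖ ≤ 2 * Real.pi * (M / (Q + 1)) := by
  have h1 : Complex.exp (2 * Real.pi * Complex.I * θ * ((q * j : ℤ) : ℂ)) =
      Complex.exp (Complex.I * ((2 * Real.pi * (((q : ℝ) * θ - p) * j) : ℝ) : ℂ)) := by
    have h2 : (2 * Real.pi * Complex.I * θ * ((q * j : ℤ) : ℂ) : ℂ) =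
      Complex.I * ((2 * Real.pi * (((q : ℝ) * θ - p) * j) : ℝ) : ℂ) + ((p * j : ℤ) : ℂ) * (2 * Real.pi * Complex.I) := by
      push_cast; ring
    rw [h2, Complex.exp_add, Complex.exp_int_mul_two_pi_mul_I, mul_one]
  rw [h1]
  refine (Real.norm_exp_I_mul_ofReal_sub_one_le).trans ?_
  rw [Real.norm_eq_abs, abs_mul, abs_of_pos (by positivity : (0:ℝ) < 2 * Real.pi)]
  apply mul_le_mul_of_nonneg_left _ (by positivity)
  rw [abs_mul]
  have hj1 : |(j : ℝ)| ≤ M := by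
    rw [abs_of_nonneg (by exact_mod_cast hj0)]
    exact_mod_cast hjM.le
  calc |(q : ℝ) * θ - p| * |(j : ℝ)| ≤ (1 / (Q + 1)) * M := by gcongr
    _ = _ := by ring

/-- no density increment on long progressions implies small Fourier coefficients -/
theorem uniform_of_stable (κ : ℝ) (hκ : 0 < κ) (hκ1 : κ ≤ 1) :
    ∃ η > (0 : ℝ), ∃ c > (0 : ℝ), ∃ r₀ : ℕ, ∀ r : ℕ, r₀ ≤ r → ∀ (G : Finset ℤ) (x : ℤ) (g : ℝ),
      0 ≤ g → g ≤ 1 →
      (g - η) * (2 * r + 1) ≤ #(G ∩ Icc (x - r) (x + r)) →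
      (∀ (a q : ℤ) (M : ℕ), 1 ≤ q → 1 ≤ M → x - r ≤ a → a + q * (M - 1) ≤ x + r →
        c * Real.sqrt r ≤ M → (#{j ∈ Ico (0 : ℤ) M | a + q * j ∈ G} : ℝ) ≤ (g + η) * M) →
      ∀ θ : ℝ, ‖∑ n ∈ Icc (x - r) (x + r), ((if n ∈ G then (1 : ℂ) else 0) - (g : ℂ)) *
        Complex.exp (2 * Real.pi * Complex.I * θ * n)‖ ≤ κ * r := by
  refine ⟨κ / 100, by positivity, κ / 1000, by positivity, ⌈(1000 / κ) ^ 2⌉₊ + 1, ?_⟩
  intro r hr G x g hg0 hg1 hdens hprog θ
  set c := κ / 1000 with hc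
  set η := κ / 100 with hη
  have hc0 : 0 < c := by positivity
  have hrR : (1000 / κ) ^ 2 + 1 ≤ (r : ℝ) := by
    have h1 : ((⌈(1000 / κ) ^ 2⌉₊ + 1 : ℕ) : ℝ) ≤ r := by exact_mod_cast hr
    have h2 := Nat.le_ceil ((1000 / κ) ^ 2)
    push_cast at h1
    linarith
  have hr1 : (1 : ℝ) ≤ r := by
    have : 0 ≤ (1000 / κ) ^ 2 := by positivity
    linarith
  have hsq : 1 ≤ c * Real.sqrt r := by
    have h1 : 1000 / κ ≤ Real.sqrt r := by
      apply Real.le_sqrt_of_sq_le; linarith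
    calc (1:ℝ) = c * (1000 / κ) := by rw [hc]; field_simp
      _ ≤ _ := by gcongr
  have hs1 : 1 ≤ Real.sqrt r := by
    rw [Real.one_le_sqrt]; exact hr1
  have hss : Real.sqrt r * Real.sqrt r = r := Real.mul_self_sqrt (by positivity)
  -- M and Q
  set M : ℕ := ⌈c * Real.sqrt r⌉₊ with hM
  have hM1 : c * Real.sqrt r ≤ M := Nat.le_ceil _
  have hM2 : (M : ℝ) ≤ 2 * c * Real.sqrt r := by
    have := (Nat.ceil_lt_add_one (by positivity : 0 ≤ c * Real.sqrt r)).le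
    linarith
  have hMpos : 1 ≤ M := by
    have : (1 : ℝ) ≤ M := hsq.trans hM1
    exact_mod_cast this
  set Q : ℕ := ⌈Real.sqrt r⌉₊ with hQ
  have hQ1 : Real.sqrt r ≤ Q := Nat.le_ceil _
  have hQ2 : (Q : ℝ) ≤ 2 * Real.sqrt r := by
    have := (Nat.ceil_lt_add_one (by positivity : 0 ≤ Real.sqrt r)).le
    linarith
  have hQpos : 0 < Q := by
    have : (1 : ℝ) ≤ Q := hs1.trans hQ1
    exact_mod_cast this
  obtain ⟨p, q, hq0, hqQ, hpq⟩ := Real.exists_int_int_abs_mul_sub_le θ hQpos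
  have hq1 : 1 ≤ q := hq0
  have hqR : (q : ℝ) ≤ 2 * Real.sqrt r := by
    have : (q : ℝ) ≤ Q := by exact_mod_cast hqQ
    linarith
  have hqR0 : (1 : ℝ) ≤ q := by exact_mod_cast hq1
  have hMR0 : (1 : ℝ) ≤ M := by exact_mod_cast hMpos
  have hqM : (q : ℝ) * M ≤ 4 * c * r := by
    calc (q : ℝ) * M ≤ (2 * Real.sqrt r) * (2 * c * Real.sqrt r) := by gcongr
      _ = 4 * c * (Real.sqrt r * Real.sqrt r) := by ring
      _ = 4 * c * r := by rw [hss]
  -- definitions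
  set I : Finset ℤ := Icc (x - r) (x + r) with hI
  set J : Finset ℤ := Ico (0 : ℤ) (M : ℤ) with hJ
  have hJc : (#J : ℝ) = M := by rw [hJ, Int.card_Ico]; simp
  have hIc : (#I : ℝ) = 2 * r + 1 := by
    rw [hI, Int.card_Icc]
    have : (x + (r:ℤ) + 1 - (x - r)).toNat = 2 * r + 1 := by omega
    rw [this]; push_cast; ring
  set T : Finset ℤ := Icc (x - r - q * (M - 1)) (x + r) with hT
  let F : ℤ → ℝ := fun n => if n ∈ I then (if n ∈ G then 1 else 0) - g else 0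
  let Ee : ℤ → ℂ := fun n => Complex.exp (2 * Real.pi * Complex.I * θ * (n : ℂ))
  have hF0 : ∀ n, n ∉ I → F n = 0 := fun n hn => if_neg hn
  have hF1 : ∀ n, |F n| ≤ 1 := by
    intro n
    simp only [F]
    split_ifs
    · rw [abs_le]; constructor <;> linarith
    · rw [abs_le]; constructor <;> linarith
    · simp
  have hE1 : ∀ n, ‖Ee n‖ = 1 := by
    intro n
    simp only [Ee]
    have : (2 * Real.pi * Complex.I * θ * (n : ℂ) : ℂ) = Complex.I * ((2 * Real.pi * θ * n : ℝ) : ℂ) := by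
      push_cast; ring
    rw [this, Complex.norm_exp_I_mul_ofReal]
  have hEadd : ∀ m n, Ee (m + n) = Ee m * Ee n := by
    intro m n
    simp only [Ee]
    rw [← Complex.exp_add]
    congr 1
    push_cast; ring
  have hsub : ∀ j ∈ J, ∀ n ∈ I, n - q * j ∈ T := by
    intro j hj n hn
    rw [hJ, mem_Ico] at hj
    rw [hI, mem_Icc] at hn
    rw [hT, mem_Icc]
    have h1 : q * j ≤ q * (M - 1) := by
      apply mul_le_mul_of_nonneg_left _ (by omega)
      omega
    have h2 : 0 ≤ q * j := mul_nonneg (by omega) hj.1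
    constructor <;> linarith [hn.1, hn.2]
  set S := ∑ n ∈ I, ((if n ∈ G then (1 : ℂ) else 0) - (g : ℂ)) *
        Complex.exp (2 * Real.pi * Complex.I * θ * n) with hS
  have hSF : S = ∑ n ∈ I, (F n : ℂ) * Ee n := by
    rw [hS]
    apply Finset.sum_congr rfl
    intro n hn
    simp only [F, Ee]
    rw [if_pos hn]
    split_ifs <;> simp
  -- double sum
  have hdouble : (M : ℂ) * S = ∑ t ∈ T, ∑ j ∈ J, (F (t + q * j) : ℂ) * Ee (t + q * j) := by
    rw [Finset.sum_comm]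
    have : ∀ j ∈ J, ∑ t ∈ T, (F (t + q * j) : ℂ) * Ee (t + q * j) = S := by
      intro j hj
      rw [hSF]
      exact slide (fun n => (F n : ℂ) * Ee n) I T (q * j) (fun n hn => by simp [hF0 n hn]) (hsub j hj)
    rw [Finset.sum_congr rfl this, Finset.sum_const, nsmul_eq_mul]
    congr 1
    have := hJc
    exact_mod_cast this.symm
  have habs : ∑ t ∈ T, ∑ j ∈ J, |F (t + q * j)| ≤ M * (2 * r + 1) := by
    rw [Finset.sum_comm]
    have : ∀ j ∈ J, ∑ t ∈ T, |F (t + q * j)| ≤ 2 * r + 1 := by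
      intro j hj
      rw [slide (fun n => |F n|) I T (q * j) (fun n hn => by simp [hF0 n hn]) (hsub j hj)]
      calc ∑ n ∈ I, |F n| ≤ ∑ _n ∈ I, (1:ℝ) := Finset.sum_le_sum (fun n _ => hF1 n)
        _ = 2 * r + 1 := by rw [Finset.sum_const, nsmul_eq_mul, mul_one, hIc]
    calc ∑ j ∈ J, ∑ t ∈ T, |F (t + q * j)| ≤ ∑ _j ∈ J, (2 * (r:ℝ) + 1) := Finset.sum_le_sum this
      _ = M * (2 * r + 1) := by rw [Finset.sum_const, nsmul_eq_mul, hJc]
  have hsigned : -(M * (η * (2 * r + 1))) ≤ ∑ t ∈ T, ∑ j ∈ J, F (t + q * j) := by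
    rw [Finset.sum_comm]
    have : ∀ j ∈ J, ∑ t ∈ T, F (t + q * j) = ∑ n ∈ I, F n := by
      intro j hj
      exact slide F I T (q * j) hF0 (hsub j hj)
    rw [Finset.sum_congr rfl this, Finset.sum_const, nsmul_eq_mul, hJc]
    have h2 : ∑ n ∈ I, F n = (#(G ∩ I) : ℝ) - g * (2 * r + 1) := by
      have : ∑ n ∈ I, F n = ∑ n ∈ I, ((if n ∈ G then (1:ℝ) else 0) - g) := by
        apply Finset.sum_congr rfl
        intro n hn
        simp only [F]; rw [if_pos hn]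
      rw [this, Finset.sum_sub_distrib, Finset.sum_const, nsmul_eq_mul, hIc, Finset.sum_boole]
      have h3 : I.filter (fun n => n ∈ G) = G ∩ I := by
        ext n; simp [and_comm]
      rw [h3]; ring
    rw [h2]
    have h3 : -(η * (2 * r + 1)) ≤ (#(G ∩ I) : ℝ) - g * (2 * r + 1) := by linarith
    calc -(M * (η * (2 * r + 1))) = M * (-(η * (2 * r + 1))) := by ring
      _ ≤ M * ((#(G ∩ I) : ℝ) - g * (2 * r + 1)) := by gcongr
  -- phase
  have hphase : ∀ j ∈ J, ‖Ee (q * j) - 1‖ ≤ κ / 40 := by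
    intro j hj
    rw [hJ, mem_Ico] at hj
    have h1 := phase_bound θ p q j M Q hj.1 hj.2 hpq
    refine h1.trans ?_
    have h2 : (M : ℝ) / (Q + 1) ≤ 2 * c := by
      rw [div_le_iff₀ (by positivity)]
      calc (M : ℝ) ≤ 2 * c * Real.sqrt r := hM2
        _ ≤ 2 * c * (Q + 1) := by gcongr; linarith
    have h3 : Real.pi < 3.15 := Real.pi_lt_d2
    calc 2 * Real.pi * (M / (Q + 1)) ≤ 2 * 3.15 * (2 * c) := by gcongr
      _ ≤ κ / 40 := by rw [hc]; linarith
  let A : ℤ → ℝ := fun t => ∑ j ∈ J, F (t + q * j)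
  have hper : ∀ t ∈ T, ‖∑ j ∈ J, (F (t + q * j) : ℂ) * Ee (t + q * j)‖ ≤
      |A t| + κ / 40 * ∑ j ∈ J, |F (t + q * j)| := by
    intro t _
    have h1 : ∑ j ∈ J, (F (t + q * j) : ℂ) * Ee (t + q * j) =
        Ee t * ((A t : ℂ) + ∑ j ∈ J, (F (t + q * j) : ℂ) * (Ee (q * j) - 1)) := by
      simp only [A]
      push_cast
      rw [← Finset.sum_add_distrib, Finset.mul_sum]
      apply Finset.sum_congr rfl
      intro j _
      rw [hEadd]; ring
    rw [h1, norm_mul, hE1, one_mul]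
    refine (norm_add_le _ _).trans ?_
    apply add_le_add
    · rw [Complex.norm_real, Real.norm_eq_abs]
    · refine (norm_sum_le _ _).trans ?_
      rw [Finset.mul_sum]
      apply Finset.sum_le_sum
      intro j hj
      rw [norm_mul, Complex.norm_real, Real.norm_eq_abs, mul_comm]
      exact mul_le_mul_of_nonneg_right (hphase j hj) (abs_nonneg _)
  have hAle : ∀ t, |A t| ≤ M := by
    intro t
    simp only [A]
    refine (Finset.abs_sum_le_sum_abs _ _).trans ?_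
    calc ∑ j ∈ J, |F (t + q * j)| ≤ ∑ _j ∈ J, (1:ℝ) := Finset.sum_le_sum (fun j _ => hF1 _)
      _ = M := by rw [Finset.sum_const, nsmul_eq_mul, mul_one, hJc]
  -- inside windows
  set Tin : Finset ℤ := T.filter (fun t => x - r ≤ t ∧ t + q * (M - 1) ≤ x + r) with hTin
  set Tout : Finset ℤ := T.filter (fun t => ¬ (x - r ≤ t ∧ t + q * (M - 1) ≤ x + r)) with hTout
  have hin : ∀ t ∈ Tin, |A t| ≤ 2 * (η * M) - A t := by
    intro t ht
    rw [hTin, mem_filter] at ht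
    obtain ⟨_, ht1, ht2⟩ := ht
    have hA : A t = (#{j ∈ Ico (0 : ℤ) M | t + q * j ∈ G} : ℝ) - g * M := by
      simp only [A]
      have : ∀ j ∈ J, F (t + q * j) = (if t + q * j ∈ G then (1:ℝ) else 0) - g := by
        intro j hj
        simp only [F]
        rw [if_pos]
        rw [hJ, mem_Ico] at hj
        rw [hI, mem_Icc]
        have h1 : q * j ≤ q * (M - 1) := by
          apply mul_le_mul_of_nonneg_left _ (by omega)
          omega
        have h2 : 0 ≤ q * j := mul_nonneg (by omega) hj.1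
        constructor <;> linarith
      rw [Finset.sum_congr rfl this, Finset.sum_sub_distrib, Finset.sum_const, nsmul_eq_mul, hJc, Finset.sum_boole]
      ring
    have hle : A t ≤ η * M := by
      have := hprog t q M hq1 hMpos ht1 ht2 hM1
      rw [hA]; linarith
    have hηM : 0 ≤ η * M := by positivity
    rw [abs_le]
    constructor
    · linarith [neg_abs_le (A t), abs_nonneg (A t)]
    · linarith
  have hinc : (#Tin : ℝ) ≤ 2 * r + 1 := by
    rw [← hIc]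
    have : Tin ⊆ I := by
      intro t ht
      rw [hTin, mem_filter] at ht
      obtain ⟨ht0, ht1, _⟩ := ht
      rw [hT, mem_Icc] at ht0
      rw [hI, mem_Icc]
      exact ⟨ht1, ht0.2⟩
    exact_mod_cast Finset.card_le_card this
  have houtc : (#Tout : ℝ) ≤ 2 * (q * M) := by
    have h1 : Tout ⊆ Ico (x - r - q * (M - 1)) (x - r) ∪ Ioc (x + r - q * (M - 1)) (x + r) := by
      intro t ht
      rw [hTout, mem_filter] at ht
      obtain ⟨ht0, ht1⟩ := ht
      rw [hT, mem_Icc] at ht0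
      rw [mem_union, mem_Ico, mem_Ioc]
      by_cases h : x - r ≤ t
      · right
        refine ⟨?_, ht0.2⟩
        by_contra h2
        exact ht1 ⟨h, by linarith⟩
      · left
        exact ⟨ht0.1, by linarith⟩
    have h2 := (Finset.card_le_card h1).trans (Finset.card_union_le _ _)
    rw [Int.card_Ico, Int.card_Ioc] at h2
    have h3 : (x - (r:ℤ) - (x - r - q * (M - 1))) = q * (M - 1) := by ring
    have h4 : (x + (r:ℤ) - (x + r - q * (M - 1))) = q * (M - 1) := by ring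
    rw [h3, h4] at h2
    have h5 : 0 ≤ q * ((M : ℤ) - 1) := mul_nonneg (by omega) (by omega)
    have h6 : (((q * ((M : ℤ) - 1)).toNat : ℕ) : ℝ) = q * (M - 1) := by
      have : (((q * ((M : ℤ) - 1)).toNat : ℕ) : ℤ) = q * (M - 1) := Int.toNat_of_nonneg h5
      have h7 : ((((q * ((M : ℤ) - 1)).toNat : ℕ) : ℤ) : ℝ) = ((q * (M - 1) : ℤ) : ℝ) := by rw [this]
      push_cast at h7
      rw [← h7]
    have h8 : (#Tout : ℝ) ≤ (((q * ((M : ℤ) - 1)).toNat : ℕ) : ℝ) + (((q * ((M : ℤ) - 1)).toNat : ℕ) : ℝ) := by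
      exact_mod_cast h2
    rw [h6] at h8
    linarith
  have hsplit : ∑ t ∈ T, |A t| = ∑ t ∈ Tin, |A t| + ∑ t ∈ Tout, |A t| := by
    rw [hTin, hTout, Finset.sum_filter_add_sum_filter_not]
  have hsplit2 : ∑ t ∈ T, A t = ∑ t ∈ Tin, A t + ∑ t ∈ Tout, A t := by
    rw [hTin, hTout, Finset.sum_filter_add_sum_filter_not]
  have hin2 : ∑ t ∈ Tin, |A t| ≤ (2 * r + 1) * (2 * (η * M)) - ∑ t ∈ Tin, A t := by
    calc ∑ t ∈ Tin, |A t| ≤ ∑ t ∈ Tin, (2 * (η * M) - A t) := Finset.sum_le_sum hin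
      _ = #Tin * (2 * (η * M)) - ∑ t ∈ Tin, A t := by
        rw [Finset.sum_sub_distrib, Finset.sum_const, nsmul_eq_mul]
      _ ≤ _ := by gcongr
  have hout2 : ∑ t ∈ Tout, (|A t| + A t) ≤ 2 * (q * M) * (2 * M) := by
    calc ∑ t ∈ Tout, (|A t| + A t) ≤ ∑ _t ∈ Tout, (2 * (M:ℝ)) := by
          apply Finset.sum_le_sum
          intro t _
          have := hAle t
          have h2 := le_abs_self (A t)
          linarith
      _ = #Tout * (2 * M) := by rw [Finset.sum_const, nsmul_eq_mul]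
      _ ≤ _ := by gcongr
  rw [Finset.sum_add_distrib] at hout2
  have hsigned' : -(M * (η * (2 * r + 1))) ≤ ∑ t ∈ T, A t := hsigned
  have hAabs : ∑ t ∈ T, |A t| ≤ 3 * (η * M) * (2 * r + 1) + 4 * (q * M) * M := by
    rw [hsplit]
    rw [hsplit2] at hsigned'
    nlinarith
  have hfinal : (M : ℝ) * ‖S‖ ≤ M * (3 * η * (2 * r + 1) + 4 * (q * M) + κ / 40 * (2 * r + 1)) := by
    have h1 : (M : ℝ) * ‖S‖ = ‖(M : ℂ) * S‖ := by
      rw [norm_mul, Complex.norm_natCast]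
    rw [h1, hdouble]
    calc ‖∑ t ∈ T, ∑ j ∈ J, (F (t + q * j) : ℂ) * Ee (t + q * j)‖
        ≤ ∑ t ∈ T, ‖∑ j ∈ J, (F (t + q * j) : ℂ) * Ee (t + q * j)‖ := norm_sum_le _ _
      _ ≤ ∑ t ∈ T, (|A t| + κ / 40 * ∑ j ∈ J, |F (t + q * j)|) := Finset.sum_le_sum hper
      _ = ∑ t ∈ T, |A t| + κ / 40 * ∑ t ∈ T, ∑ j ∈ J, |F (t + q * j)| := by
        rw [Finset.sum_add_distrib, ← Finset.mul_sum]
      _ ≤ (3 * (η * M) * (2 * r + 1) + 4 * (q * M) * M) + κ / 40 * (M * (2 * r + 1)) := by gcongr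
      _ = _ := by ring
  have hMp : (0 : ℝ) < M := by linarith
  have h2 := le_of_mul_le_mul_left hfinal hMp
  refine h2.trans ?_
  have h3 : (2 * (r:ℝ) + 1) ≤ 3 * r := by linarith
  have hη0 : 0 < η := by positivity
  calc 3 * η * (2 * r + 1) + 4 * (q * M) + κ / 40 * (2 * r + 1)
      ≤ 3 * η * (3 * r) + 4 * (4 * c * r) + κ / 40 * (3 * r) := by gcongr
    _ = (9 * (κ / 100) + 16 * (κ / 1000) + 3 * (κ / 40)) * r := by rw [hη, hc]; ring
    _ ≤ κ * r := by
      apply mul_le_mul_of_nonneg_right _ (by positivity)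
      linarith

end Pool.Agent.H646.UnifM
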