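import Mathlib
import Pool.Agent.H646.Defs
import Pool.Agent.H646.Center
import Pool.Agent.H646.Stab
import Pool.Agent.H646.Step
import Pool.Agent.H646.Unif

namespace Pool.Agent.H646.Phase2M
open Finset
open Pool.Agent.H646.CenterM (exists_center)
open Pool.Agent.H646.StabM (stabilize)
open Pool.Agent.H646.StepM (osc_step)
open Pool.Agent.H646.UnifM (uniform_of_stable)


-- The following four theorems are proved elsewhere: leave their sorry.





/-- shifting a set to the origin -/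
theorem card_shift (G : Finset ℤ) (x r : ℤ) (P : ℤ → Prop) [DecidablePred P] :
    #{y ∈ (G.image (fun y => y - x)) ∩ Icc (-r) r | P (y + x)} =
      #{y ∈ G ∩ Icc (x - r) (x + r) | P y} := by
  have h : ({y ∈ (G.image (fun y => y - x)) ∩ Icc (-r) r | P (y + x)} : Finset ℤ) =
      ({y ∈ G ∩ Icc (x - r) (x + r) | P y} : Finset ℤ).image (fun y => y - x) := by
    ext y
    simp only [mem_filter, mem_inter, mem_image, mem_Icc]
    constructor
    · rintro ⟨⟨⟨z, hz, rfl⟩, h1, h2⟩, h3⟩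
      refine ⟨z, ⟨⟨hz, by linarith, by linarith⟩, ?_⟩, rfl⟩
      rwa [sub_add_cancel] at h3
    · rintro ⟨z, ⟨⟨hz, h1, h2⟩, h3⟩, rfl⟩
      refine ⟨⟨⟨z, hz, rfl⟩, by linarith, by linarith⟩, ?_⟩
      rwa [sub_add_cancel]
  rw [h, card_image_of_injective _ (fun a b hab => by simpa using hab)]

theorem card_shift' (G : Finset ℤ) (x r : ℤ) :
    #((G.image (fun y => y - x)) ∩ Icc (-r) r) = #(G ∩ Icc (x - r) (x + r)) := by
  have h := card_shift G x r (fun _ => True)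
  simpa using h

theorem ev_rpow {e : ℝ} (he : 0 < e) (C : ℝ) : ∀ᶠ M : ℕ in Filter.atTop, C ≤ (M : ℝ) ^ e :=
  ((tendsto_rpow_atTop he).comp tendsto_natCast_atTop_atTop).eventually_ge_atTop C

set_option maxHeartbeats 2000000 in
/-- Part 1 (target): uniform sets, nested intervals, iteration of `osc_step`. -/
theorem phase2_stable (δ : ℝ) (hδ : 0 < δ) (hδ1 : δ ≤ 1) :
    ∃ η > (0 : ℝ), η ≤ 1 / 1000 ∧ ∃ M₀ : ℕ, ∀ M : ℕ, M₀ ≤ M → ∀ (G : Finset ℤ) (g : ℝ) (h : ℤ → ℝ) (K : ℝ),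
      G ⊆ Ico (0 : ℤ) M → δ ≤ g → g ≤ 1 → g * M ≤ #G → 0 ≤ K →
      (∀ (a' q' : ℤ) (M' : ℕ), 0 ≤ a' → 1 ≤ q' → 1 ≤ M' → a' + q' * (M' - 1) < M →
            (M : ℝ) ^ ((1 : ℝ) / 4) ≤ M' →
            (#{j ∈ Ico (0 : ℤ) M' | a' + q' * j ∈ G} : ℝ) ≤ (g + η) * M') →
      (∀ x ∈ G, ∀ i : ℤ, x + i ∈ G → x - i ∈ G → h (x + i) + h (x - i) ≤ 2 * h x) →
      (∀ x ∈ G, |h x| ≤ K) →
      ∃ (x : ℤ) (r : ℕ) (a b : ℝ), (M : ℝ) ^ ((3 : ℝ) / 5) ≤ r ∧ 0 ≤ x - r ∧ x + r < M ∧ a ≤ b ∧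
        b - a ≤ 8 * (M : ℝ) ^ (-(1 : ℝ) / 15) * K ∧
        δ / 4 * r ≤ #{y ∈ G ∩ Icc (x - r) (x + r) | a ≤ h y ∧ h y ≤ b} := by
  obtain ⟨κ, hκ, η6, hη6, hκ1, hη6δ, osc⟩ := osc_step δ hδ hδ1
  obtain ⟨ηU, hηU, c, hc, r1, unif⟩ := uniform_of_stable (κ / 64) (by positivity) (by linarith)
  obtain ⟨η, hη0, hη1, hη2, hη3⟩ : ∃ η : ℝ, 0 < η ∧ η ≤ ηU / 40 ∧ η ≤ 1 / 1000 ∧ η ≤ δ / 1000 := by
    refine ⟨min (ηU / 40) (min (1 / 1000) (δ / 1000)), ?_, min_le_left _ _,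
      (min_le_right _ _).trans (min_le_left _ _), (min_le_right _ _).trans (min_le_right _ _)⟩
    refine lt_min (by positivity) (lt_min (by norm_num) (by positivity))
  obtain ⟨M1, center⟩ := exists_center η hη0 (by linarith)
  have ev : ∀ᶠ M : ℕ in Filter.atTop, M1 ≤ M ∧ 16 ≤ M ∧ (r1 : ℝ) ≤ (M:ℝ) ^ ((3:ℝ) / 5) ∧
      16 ≤ (M:ℝ) ^ ((2:ℝ) / 5) ∧ 1 / c ≤ (M:ℝ) ^ ((1:ℝ) / 20) := by
    filter_upwards [Filter.eventually_ge_atTop M1, Filter.eventually_ge_atTop 16,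
      ev_rpow (show (0:ℝ) < 3 / 5 by norm_num) r1, ev_rpow (show (0:ℝ) < 2 / 5 by norm_num) 16,
      ev_rpow (show (0:ℝ) < 1 / 20 by norm_num) (1 / c)] with M h1 h2 h3 h4 h5
    exact ⟨h1, h2, h3, h4, h5⟩
  obtain ⟨M₀, hM₀⟩ := Filter.eventually_atTop.1 ev
  refine ⟨η, hη0, hη2, M₀, ?_⟩
  intro M hM G g h K hGM hδg hg1 hgM hK0 hstab h3ap hhK
  obtain ⟨hM1, hM16, hMr1, hM25, hMc⟩ := hM₀ M hM
  have hg0 : 0 < g := by linarith
  set X : ℝ := (M : ℝ) with hX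
  have hX16 : (16:ℝ) ≤ X := by rw [hX]; exact_mod_cast hM16
  have hX0 : 0 < X := by linarith
  have hX1 : 1 ≤ X := by linarith
  set A : ℝ := X ^ ((3:ℝ) / 5) with hA
  have hA1 : 1 ≤ A := Real.one_le_rpow hX1 (by norm_num)
  have hXA : X = A * X ^ ((2:ℝ) / 5) := by
    rw [hA, ← Real.rpow_add hX0]
    norm_num
  have hA16 : 16 * A ≤ X := by
    have : A * 16 ≤ A * X ^ ((2:ℝ) / 5) := by gcongr
    linarith
  have h12A : X ^ ((1:ℝ) / 2) ≤ A := Real.rpow_le_rpow_of_exponent_le hX1 (by norm_num)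
  obtain ⟨rR, hrR1, hrR2, hrR3⟩ : ∃ rR : ℕ, A ≤ rR ∧ (rR : ℝ) ≤ 2 * A ∧ 1 ≤ rR := by
    refine ⟨⌈A⌉₊, Nat.le_ceil _, ?_, ?_⟩
    · have := Nat.ceil_lt_add_one (show (0:ℝ) ≤ A by linarith)
      linarith
    · exact Nat.one_le_iff_ne_zero.2 (Nat.ceil_pos.2 (by linarith)).ne'
  have hrR0 : (0:ℝ) < rR := by exact_mod_cast hrR3
  obtain ⟨R, hR1, hR2⟩ : ∃ R : ℕ, (64:ℝ) ^ R * rR ≤ X / 8 ∧ X / 8 < (64:ℝ) ^ (R + 1) * rR := by
    obtain ⟨R, h1, h2⟩ := exists_nat_pow_near (x := X / (8 * rR)) (y := (64:ℝ))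
      (by rw [le_div_iff₀ (by positivity)]; linarith) (by norm_num)
    refine ⟨R, ?_, ?_⟩
    · rw [le_div_iff₀ (by positivity)] at h1
      linarith
    · rw [div_lt_iff₀ (by positivity)] at h2
      linarith
  -- the centre
  obtain ⟨x, hx⟩ := center M hM1 G g hGM hg0.le hg1 hgM (by
    intro a M' ha haM hM'
    have hM'1 : 1 ≤ M' := by
      have h1 : (1:ℝ) ≤ X ^ ((1:ℝ) / 4) := Real.one_le_rpow hX1 (by norm_num)
      have h2 : (1:ℝ) ≤ (M' : ℝ) := h1.trans hM'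
      exact_mod_cast h2
    have h1 := hstab a 1 M' ha le_rfl hM'1 (by linarith) hM'
    refine le_trans ?_ h1
    have h2 : #(G ∩ Ico a (a + M')) ≤ #{j ∈ Ico (0 : ℤ) M' | a + 1 * j ∈ G} := by
      apply Finset.card_le_card_of_injOn (fun y => y - a)
      · intro y hy
        simp only [coe_inter, coe_Ico, Set.mem_inter_iff, mem_coe, Set.mem_Ico] at hy
        simp only [coe_filter, mem_Ico, Set.mem_ofPred_eq]
        refine ⟨⟨by linarith [hy.2.1], by linarith [hy.2.2]⟩, ?_⟩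
        have e : a + 1 * (y - a) = y := by ring
        rw [e]
        exact hy.1
      · intro y _ z _ hyz
        simpa using hyz
    exact_mod_cast h2)
  -- radii
  set rad : ℕ → ℕ := fun s => 64 ^ s * rR with hrad
  have hrad1 : ∀ s, A ≤ (rad s : ℝ) := by
    intro s
    have h1 : (1:ℝ) ≤ (64:ℝ) ^ s := one_le_pow₀ (by norm_num)
    simp only [hrad]
    push_cast
    nlinarith
  have hrad1' : ∀ s, 1 ≤ rad s := by
    intro s
    have h1 := hrad1 s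
    have h2 : (1:ℝ) ≤ (rad s : ℝ) := hA1.trans h1
    exact_mod_cast h2
  have hrad2 : ∀ s ≤ R, (rad s : ℝ) ≤ X / 8 := by
    intro s hs
    refine le_trans ?_ hR1
    simp only [hrad]
    push_cast
    have h1 : (64:ℝ) ^ s ≤ (64:ℝ) ^ R := pow_le_pow_right₀ (by norm_num) hs
    gcongr
  have hrads : ∀ s, rad (s + 1) = 64 * rad s := by
    intro s
    simp only [hrad]
    rw [pow_succ]
    ring
  have hxr : ∀ s ≤ R, 0 ≤ x - (rad s : ℤ) ∧ x + (rad s : ℤ) < M ∧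
      (g - 40 * η) * (2 * (rad s : ℝ) + 1) ≤ #(G ∩ Icc (x - (rad s : ℤ)) (x + rad s)) := by
    intro s hs
    exact hx (rad s) (h12A.trans (hrad1 s)) (hrad2 s hs)
  set G' : Finset ℤ := G.image (fun y => y - x) with hG'
  have hmemG' : ∀ y, y ∈ G' ↔ y + x ∈ G := by
    intro y
    rw [hG', mem_image]
    constructor
    · rintro ⟨z, hz, rfl⟩
      rwa [sub_add_cancel]
    · intro hy
      exact ⟨y + x, hy, by ring⟩
  set h' : ℤ → ℝ := fun y => h (y + x) with hh'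
  have h3ap' : ∀ y ∈ G', ∀ i : ℤ, y + i ∈ G' → y - i ∈ G' → h' (y + i) + h' (y - i) ≤ 2 * h' y := by
    intro y hy i h1 h2
    rw [hmemG'] at hy h1 h2
    have e1 : y + i + x = (y + x) + i := by ring
    have e2 : y - i + x = (y + x) - i := by ring
    rw [e1] at h1
    rw [e2] at h2
    have := h3ap (y + x) hy i h1 h2
    simp only [hh']
    rw [e1, e2]
    exact this
  -- Fourier bound
  have hfour : ∀ s ≤ R, ∀ θ : ℝ, ‖∑ n ∈ Icc (-(rad s : ℤ)) (rad s),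
      ((if n ∈ G' then (1 : ℂ) else 0) - (g : ℂ)) *
        Complex.exp (2 * Real.pi * Complex.I * θ * n)‖ ≤ κ / 64 * (rad s : ℝ) := by
    intro s hs
    have hr1 : r1 ≤ rad s := by
      have : (r1 : ℝ) ≤ rad s := hMr1.trans (hrad1 s)
      exact_mod_cast this
    obtain ⟨hx1, hx2, hx3⟩ := hxr s hs
    have h1 := unif (rad s) hr1 G' 0 g hg0.le hg1 (by
      rw [zero_sub, zero_add, card_shift']
      refine le_trans ?_ hx3
      have : g - ηU ≤ g - 40 * η := by linarith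
      have h2 : (0:ℝ) ≤ 2 * (rad s : ℝ) + 1 := by positivity
      exact mul_le_mul_of_nonneg_right this h2) (by
      intro a q M' hq hM' ha1 ha2 hcM'
      have hM'4 : X ^ ((1:ℝ) / 4) ≤ M' := by
        refine le_trans ?_ hcM'
        have h2 : X ^ ((3:ℝ) / 10) ≤ Real.sqrt (rad s) := by
          apply Real.le_sqrt_of_sq_le
          rw [← Real.rpow_natCast, ← Real.rpow_mul hX0.le]
          norm_num
          exact hrad1 s
        have h3 : X ^ ((3:ℝ) / 10) = X ^ ((1:ℝ) / 4) * X ^ ((1:ℝ) / 20) := by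
          rw [← Real.rpow_add hX0]
          norm_num
        have h4 : (0:ℝ) < X ^ ((1:ℝ) / 4) := by positivity
        rw [div_le_iff₀ hc] at hMc
        calc X ^ ((1:ℝ) / 4) ≤ X ^ ((1:ℝ) / 4) * (X ^ ((1:ℝ) / 20) * c) := by
              nlinarith
          _ = c * X ^ ((3:ℝ) / 10) := by rw [h3]; ring
          _ ≤ c * Real.sqrt (rad s) := by gcongr
      have h5 := hstab (a + x) q M' (by linarith) hq hM' (by linarith) hM'4
      have h6 : (#{j ∈ Ico (0 : ℤ) M' | a + q * j ∈ G'} : ℝ) =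
          #{j ∈ Ico (0 : ℤ) M' | (a + x) + q * j ∈ G} := by
        congr 2
        ext j
        simp only [mem_filter]
        rw [hmemG']
        have e : a + q * j + x = a + x + q * j := by ring
        rw [e]
      rw [h6]
      refine h5.trans ?_
      have : g + η ≤ g + ηU := by linarith
      gcongr)
    intro θ
    have h7 := h1 θ
    rw [zero_sub, zero_add] at h7
    exact h7
  -- the iteration
  have hiter : ∀ j ≤ R, ∃ a b : ℝ, a ≤ b ∧ b - a ≤ 2 * K / 2 ^ j ∧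
      (#{y ∈ G' ∩ Icc (-(rad (R - j) : ℤ)) (rad (R - j)) | h' y < a ∨ b < h' y} : ℝ) ≤
        η6 * (rad (R - j) : ℝ) := by
    intro j
    induction j with
    | zero =>
      intro _
      refine ⟨-K, K, by linarith, by simp; linarith, ?_⟩
      have he : ({y ∈ G' ∩ Icc (-(rad (R - 0) : ℤ)) (rad (R - 0)) | h' y < -K ∨ K < h' y} :
          Finset ℤ) = ∅ := by
        rw [filter_eq_empty_iff]
        intro y hy
        rw [mem_inter, hmemG'] at hy
        have := abs_le.1 (hhK _ hy.1)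
        simp only [hh']
        push Not
        exact ⟨this.1, this.2⟩
      rw [he]
      simp only [card_empty, Nat.cast_zero]
      positivity
    | succ j ih =>
      intro hj
      obtain ⟨a, b, hab, hba, hcard⟩ := ih (by omega)
      have e : R - j = (R - (j + 1)) + 1 := by omega
      rw [e, hrads] at hcard
      have hs : R - (j + 1) + 1 ≤ R := by omega
      have hF := hfour (R - (j + 1) + 1) hs
      rw [hrads] at hF
      set ρ : ℕ := rad (R - (j + 1)) with hρ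
      obtain ⟨hx1, hx2, hx3⟩ := hxr (R - (j + 1)) (by omega)
      rw [← hρ] at hx1 hx2 hx3
      obtain ⟨a', b', hab', hba', hcard'⟩ := osc ρ (hrad1' _) G' g h' a b hδg hg1 hab h3ap'
        (by
          intro θ
          have h1 := hF θ
          push_cast at h1
          refine h1.trans (le_of_eq ?_)
          ring)
        (by
          rw [card_shift']
          refine le_trans ?_ hx3
          have h1 : (1:ℝ) ≤ (ρ : ℝ) := by exact_mod_cast hrad1' _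
          nlinarith)
        (by
          push_cast at hcard
          exact hcard)
      refine ⟨a', b', hab', ?_, hcard'⟩
      calc b' - a' ≤ (b - a) / 2 := hba'
        _ ≤ (2 * K / 2 ^ j) / 2 := by gcongr
        _ = 2 * K / 2 ^ (j + 1) := by rw [pow_succ]; field_simp
  obtain ⟨a, b, hab, hba, hcard⟩ := hiter R le_rfl
  have hrad0 : rad (R - R) = rR := by simp [hrad]
  rw [hrad0] at hcard
  obtain ⟨hx1, hx2, hx3⟩ := hxr 0 (Nat.zero_le _)
  have hrad0' : rad 0 = rR := by simp [hrad]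
  rw [hrad0'] at hx1 hx2 hx3
  refine ⟨x, rR, a, b, hrR1, hx1, hx2, hab, ?_, ?_⟩
  · -- size
    have h1 : X ^ ((2:ℝ) / 5) < 1024 * 64 ^ R := by
      have h2 : X < 8 * (64 ^ (R + 1) * (2 * A)) := by
        have : (64:ℝ) ^ (R + 1) * rR ≤ 64 ^ (R + 1) * (2 * A) := by gcongr
        linarith
      have h3 : A * X ^ ((2:ℝ) / 5) < A * (1024 * 64 ^ R) := by
        rw [← hXA]
        refine h2.trans_eq ?_
        rw [pow_succ]
        ring
      exact lt_of_mul_lt_mul_left h3 (by linarith)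
    have h4 : X ^ ((1:ℝ) / 15) ≤ 4 * 2 ^ R := by
      by_contra hcon
      push Not at hcon
      have h5 : (4 * (2:ℝ) ^ R) ^ 6 < (X ^ ((1:ℝ) / 15)) ^ 6 :=
        pow_lt_pow_left₀ hcon (by positivity) (by norm_num)
      have h6 : (X ^ ((1:ℝ) / 15)) ^ 6 = X ^ ((2:ℝ) / 5) := by
        rw [← Real.rpow_natCast, ← Real.rpow_mul hX0.le]
        norm_num
      have h7 : (4 * (2:ℝ) ^ R) ^ 6 = 4096 * 64 ^ R := by
        rw [mul_pow, ← pow_mul, mul_comm R 6, pow_mul]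
        norm_num
      rw [h6, h7] at h5
      have h8 : (0:ℝ) < 64 ^ R := by positivity
      linarith
    have h9 : X ^ (-(1:ℝ) / 15) = (X ^ ((1:ℝ) / 15))⁻¹ := by
      rw [← Real.rpow_neg hX0.le]
      norm_num
    have h10 : (0:ℝ) < X ^ ((1:ℝ) / 15) := by positivity
    rw [h9]
    refine hba.trans ?_
    have h11 : 2 * K / 2 ^ R = 8 * (4 * 2 ^ R)⁻¹ * K := by
      field_simp
      ring
    rw [h11]
    have h12 : (4 * (2:ℝ) ^ R)⁻¹ ≤ (X ^ ((1:ℝ) / 15))⁻¹ := by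
      gcongr
    gcongr
  · -- count
    have h1 : (#{y ∈ G' ∩ Icc (-(rR : ℤ)) rR | h' y < a ∨ b < h' y} : ℝ) =
        #{y ∈ G ∩ Icc (x - rR) (x + rR) | h y < a ∨ b < h y} := by
      exact_mod_cast card_shift G x rR (fun y => h y < a ∨ b < h y)
    rw [h1] at hcard
    have h2 : #{y ∈ G ∩ Icc (x - rR) (x + rR) | h y < a ∨ b < h y} +
        #{y ∈ G ∩ Icc (x - rR) (x + rR) | a ≤ h y ∧ h y ≤ b} = #(G ∩ Icc (x - rR) (x + rR)) := by
      rw [← Finset.card_filter_add_card_filter_not (s := G ∩ Icc (x - (rR:ℤ)) (x + rR))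
        (fun y => h y < a ∨ b < h y)]
      congr 2
      apply filter_congr
      intro y _
      push Not
      rfl
    have h3 : (#{y ∈ G ∩ Icc (x - rR) (x + rR) | h y < a ∨ b < h y} : ℝ) +
        #{y ∈ G ∩ Icc (x - rR) (x + rR) | a ≤ h y ∧ h y ≤ b} = #(G ∩ Icc (x - rR) (x + rR)) := by
      exact_mod_cast h2
    have h4 : η6 * rR ≤ δ / 4 * rR := by gcongr
    have h5 : (1:ℝ) ≤ rR := by exact_mod_cast hrR3
    nlinarith


set_option maxHeartbeats 2000000 in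
/-- Part 2 (target): the final form. -/
theorem phase2 (δ : ℝ) (hδ : 0 < δ) (hδ1 : δ ≤ 1) :
    ∃ B : ℕ, 1 ≤ B ∧ ∀ k : ℕ, ∃ m ℓ₀ : ℕ, ∀ ℓ : ℕ, ℓ₀ ≤ ℓ → ∀ (G : Finset ℤ) (h : ℤ → ℝ),
      G ⊆ Ico (0 : ℤ) ℓ → δ * ℓ ≤ #G →
      (∀ x ∈ G, ∀ i : ℤ, x + i ∈ G → x - i ∈ G → h (x + i) + h (x - i) ≤ 2 * h x) →
      (∀ x ∈ G, |h x| ≤ (ℓ : ℝ) ^ ((1 : ℝ) / B)) →
      ∃ (a q : ℤ) (β : ℝ) (S : Finset ℕ), 0 ≤ a ∧ 1 ≤ q ∧ a + q * m < ℓ ∧ S ⊆ range (m + 1) ∧
        #S = k ∧ ∀ σ ∈ S, a + q * σ ∈ G ∧ |h (a + q * σ) - β| ≤ (ℓ : ℝ) ^ (-(1 : ℝ) / B) := by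
  obtain ⟨η, hη0, hη1, M₀, hst⟩ := phase2_stable δ hδ hδ1
  obtain ⟨cs, hcs0, hcs1, hstab⟩ := stabilize η δ hη0 hδ
  set B : ℕ := ⌈40 / cs⌉₊ with hB
  have hB40 : 40 / cs ≤ (B : ℝ) := Nat.le_ceil _
  have hB1' : (40:ℝ) ≤ B := by
    refine le_trans ?_ hB40
    rw [le_div_iff₀ hcs0]
    linarith
  have hB1 : 1 ≤ B := by
    have : (1:ℝ) ≤ B := by linarith
    exact_mod_cast this
  have hB0 : (0:ℝ) < B := by linarith
  have h1B : 1 / (B:ℝ) ≤ cs / 40 := by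
    rw [div_le_div_iff₀ hB0 (by norm_num)]
    rw [div_le_iff₀ hcs0] at hB40
    linarith
  refine ⟨B, hB1, fun k => ?_⟩
  set m : ℕ := ⌈100 * ((k : ℝ) + 1) / δ⌉₊ with hm
  have hm100 : 100 * ((k : ℝ) + 1) / δ ≤ (m : ℝ) := Nat.le_ceil _
  have hmδ : 100 * ((k : ℝ) + 1) ≤ δ * (m + 1) := by
    rw [div_le_iff₀ hδ] at hm100
    nlinarith
  have ev : ∀ᶠ ℓ : ℕ in Filter.atTop, 1 ≤ ℓ ∧ (M₀ : ℝ) ≤ (ℓ:ℝ) ^ cs ∧
      8 ≤ (ℓ:ℝ) ^ (cs / 60) ∧ 10 * ((m:ℝ) + 1) / δ ≤ (ℓ:ℝ) ^ (cs * (3 / 5)) := by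
    filter_upwards [Filter.eventually_ge_atTop 1, ev_rpow hcs0 M₀,
      ev_rpow (show (0:ℝ) < cs / 60 by positivity) 8,
      ev_rpow (show (0:ℝ) < cs * (3 / 5) by positivity) (10 * ((m:ℝ) + 1) / δ)] with ℓ h1 h2 h3 h4
    exact ⟨h1, h2, h3, h4⟩
  obtain ⟨ℓ₀, hℓ₀⟩ := Filter.eventually_atTop.1 ev
  refine ⟨m, ℓ₀, ?_⟩
  intro ℓ hℓ G h hGℓ hGc h3ap hhK
  obtain ⟨hℓ1, hℓM, hℓ8, hℓm⟩ := hℓ₀ ℓ hℓ
  obtain ⟨a, q, M, ha, hq, hM1, haM, hℓcs, g, hδg, hg1, hgM, hstb⟩ := hstab ℓ hℓ1 G hGℓ hGc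
  set X : ℝ := (ℓ : ℝ) with hX
  have hX1 : 1 ≤ X := by rw [hX]; exact_mod_cast hℓ1
  have hX0 : 0 < X := by linarith
  have hMM₀ : M₀ ≤ M := by
    have : (M₀ : ℝ) ≤ M := hℓM.trans hℓcs
    exact_mod_cast this
  set G1 : Finset ℤ := {j ∈ Ico (0 : ℤ) M | a + q * j ∈ G} with hG1
  have hmemG1 : ∀ y ∈ G1, a + q * y ∈ G := fun y hy => (mem_filter.1 hy).2
  obtain ⟨x, r, a', b', hMr, hx1, hx2, hab', hba', hZ⟩ := hst M hMM₀ G1 g (fun j => h (a + q * j))
    (X ^ ((1:ℝ) / B)) (filter_subset _ _) hδg hg1 hgM (by positivity) (by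
      intro a'' q'' M'' h1 h2 h3 h4 h5
      refine le_trans ?_ (hstb a'' q'' M'' h1 h2 h3 h4 h5)
      have h6 : #{j ∈ Ico (0 : ℤ) M'' | a'' + q'' * j ∈ G1} ≤
          #{j ∈ Ico (0 : ℤ) M'' | a + q * (a'' + q'' * j) ∈ G} := by
        apply card_le_card
        intro j hj
        rw [mem_filter] at hj ⊢
        exact ⟨hj.1, hmemG1 _ hj.2⟩
      exact_mod_cast h6) (by
      intro y hy i h1 h2
      have e1 : a + q * (y + i) = (a + q * y) + q * i := by ring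
      have e2 : a + q * (y - i) = (a + q * y) - q * i := by ring
      have h1' := hmemG1 _ h1
      have h2' := hmemG1 _ h2
      rw [e1] at h1'
      rw [e2] at h2'
      have := h3ap _ (hmemG1 _ hy) (q * i) h1' h2'
      show h (a + q * (y + i)) + h (a + q * (y - i)) ≤ 2 * h (a + q * y)
      rw [e1, e2]
      exact this) (fun y hy => hhK _ (hmemG1 _ hy))
  set Z : Finset ℤ := {y ∈ G1 ∩ Icc (x - r) (x + r) | a' ≤ h (a + q * y) ∧ h (a + q * y) ≤ b'}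
    with hZdef
  have hZprop : ∀ y ∈ Z, y ∈ G1 ∧ x - r ≤ y ∧ y ≤ x + r ∧ a' ≤ h (a + q * y) ∧
      h (a + q * y) ≤ b' := by
    intro y hy
    rw [hZdef, mem_filter, mem_inter, mem_Icc] at hy
    exact ⟨hy.1.1, hy.1.2.1, hy.1.2.2, hy.2.1, hy.2.2⟩
  -- size of the oscillation
  have hMX : X ^ cs ≤ M := hℓcs
  have hM0 : (0:ℝ) < M := by
    have : (1:ℝ) ≤ M := by exact_mod_cast hM1
    linarith
  have hosc : b' - a' ≤ X ^ (-(1:ℝ) / B) := by
    refine hba'.trans ?_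
    have h1 : (M:ℝ) ^ (-(1:ℝ) / 15) ≤ X ^ (-(cs / 15)) := by
      have h2 : (X ^ cs) ^ ((1:ℝ) / 15) ≤ (M:ℝ) ^ ((1:ℝ) / 15) :=
        Real.rpow_le_rpow (by positivity) hMX (by norm_num)
      rw [← Real.rpow_mul hX0.le] at h2
      have e1 : (M:ℝ) ^ (-(1:ℝ) / 15) = ((M:ℝ) ^ ((1:ℝ) / 15))⁻¹ := by
        rw [← Real.rpow_neg hM0.le]; norm_num
      have e2 : X ^ (-(cs / 15)) = (X ^ (cs * (1 / 15)))⁻¹ := by
        rw [← Real.rpow_neg hX0.le]; congr 1; ring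
      rw [e1, e2]
      have : (0:ℝ) < X ^ (cs * (1 / 15)) := by positivity
      gcongr
    calc 8 * (M:ℝ) ^ (-(1:ℝ) / 15) * X ^ ((1:ℝ) / B)
        ≤ X ^ (cs / 60) * X ^ (-(cs / 15)) * X ^ ((1:ℝ) / B) := by gcongr
      _ = X ^ (cs / 60 + -(cs / 15) + 1 / B) := by
          rw [Real.rpow_add hX0, Real.rpow_add hX0]
      _ ≤ X ^ (-(1:ℝ) / B) := by
          apply Real.rpow_le_rpow_of_exponent_le hX1
          have : -(1:ℝ) / B = -(1 / B) := by ring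
          rw [this]
          linarith
  have hclose : ∀ y ∈ Z, |h (a + q * y) - a'| ≤ X ^ (-(1:ℝ) / B) := by
    intro y hy
    obtain ⟨-, -, -, h1, h2⟩ := hZprop y hy
    rw [abs_of_nonneg (by linarith)]
    linarith
  -- size of r
  have hrbig : 10 * ((m:ℝ) + 1) / δ ≤ r := by
    refine hℓm.trans (le_trans ?_ hMr)
    rw [Real.rpow_mul hX0.le]
    exact Real.rpow_le_rpow (by positivity) hMX (by norm_num)
  have hr10 : 10 * ((m:ℝ) + 1) ≤ δ * r := by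
    rw [div_le_iff₀ hδ] at hrbig
    linarith
  -- windows
  set w : ℕ := (2 * r + 1) / (m + 1) with hw
  have hw1 : w * (m + 1) ≤ 2 * r + 1 := Nat.div_mul_le_self _ _
  have hw2 : 2 * r + 1 < w * (m + 1) + (m + 1) := by
    have := Nat.lt_div_mul_add (a := 2 * r + 1) (b := m + 1) (by omega)
    exact this
  have hr0 : (0:ℝ) < r := by
    have h1 : (0:ℝ) < 10 * ((m:ℝ) + 1) := by positivity
    by_contra hc
    push Not at hc
    nlinarith
  have hwpos : 0 < w := by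
    rw [hw]
    apply Nat.div_pos _ (by omega)
    have h1 : (m:ℝ) + 1 ≤ r := by
      nlinarith
    have h2 : m + 1 ≤ r := by exact_mod_cast h1
    omega
  set Z' : Finset ℤ := {y ∈ Z | y < (x - r) + (w : ℤ) * (m + 1)} with hZ'
  have hZ'c : (#Z : ℝ) ≤ #Z' + (m + 1) := by
    have h1 : Z ⊆ Z' ∪ Icc ((x - r) + (w : ℤ) * (m + 1)) (x + r) := by
      intro y hy
      rw [mem_union]
      by_cases hc : y < (x - r) + (w : ℤ) * (m + 1)
      · left; exact mem_filter.2 ⟨hy, hc⟩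
      · right
        rw [mem_Icc]
        exact ⟨not_lt.1 hc, (hZprop y hy).2.2.1⟩
    have h2 := (card_le_card h1).trans (card_union_le _ _)
    have h3 : #(Icc ((x - r) + (w : ℤ) * (m + 1)) (x + r)) ≤ m + 1 := by
      rw [Int.card_Icc]
      have h4 : (2 * r + 1 : ℤ) < w * (m + 1) + (m + 1) := by exact_mod_cast hw2
      rw [Int.toNat_le]
      push_cast
      linarith
    have h5 : #Z ≤ #Z' + (m + 1) := by omega
    exact_mod_cast h5
  have hpig : w * k ≤ #Z' := by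
    have h1 : (w : ℝ) * (m + 1) ≤ 2 * r + 1 := by exact_mod_cast hw1
    have h2 : (w : ℝ) * (100 * (k + 1)) ≤ δ * (2 * r + 1) := by
      calc (w : ℝ) * (100 * (k + 1)) ≤ w * (δ * (m + 1)) := by gcongr
        _ = δ * (w * (m + 1)) := by ring
        _ ≤ δ * (2 * r + 1) := by gcongr
    have h3 : (w : ℝ) * k ≤ #Z' := by
      have h4 : (0:ℝ) ≤ w := by positivity
      have h5 : (1:ℝ) ≤ r := by
        have : 0 < r := by exact_mod_cast hr0
        exact_mod_cast this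
      have h6 : δ / 4 * r ≤ #Z := hZ
      nlinarith
    exact_mod_cast h3
  obtain ⟨i, hi, hik⟩ := exists_le_card_fiber_of_mul_le_card_of_maps_to
    (s := Z') (t := range w) (f := fun y => ((y - (x - r)) / ((m : ℤ) + 1)).toNat) (n := k)
    (by
      intro y hy
      rw [hZ', mem_filter] at hy
      obtain ⟨h1, h2, h3, -⟩ := hZprop y hy.1
      rw [mem_range, Int.toNat_lt (Int.ediv_nonneg (by linarith) (by positivity))]
      rw [Int.ediv_lt_iff_lt_mul (by positivity)]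
      linarith [hy.2])
    (by simpa using hwpos.ne')
    (by rw [card_range]; exact hpig)
  obtain ⟨T, hT, hTc⟩ := exists_subset_card_eq hik
  rw [mem_range] at hi
  set t : ℤ := (x - r) + (i : ℤ) * (m + 1) with ht
  have hTprop : ∀ y ∈ T, y ∈ Z ∧ t ≤ y ∧ y ≤ t + m := by
    intro y hy
    have h1 := mem_filter.1 (hT hy)
    have h2 := (mem_filter.1 h1.1).1
    obtain ⟨-, h3, -, -⟩ := hZprop y h2
    have h4 : (y - (x - r)) / ((m : ℤ) + 1) = i := by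
      have h5 : 0 ≤ (y - (x - r)) / ((m : ℤ) + 1) := Int.ediv_nonneg (by linarith) (by positivity)
      have h6 := Int.toNat_of_nonneg h5
      rw [h1.2] at h6
      exact h6.symm
    have h7 := Int.ediv_mul_le (y - (x - r)) (b := (m : ℤ) + 1) (by positivity)
    have h8 := Int.lt_ediv_add_one_mul_self (y - (x - r)) (b := (m : ℤ) + 1) (by positivity)
    rw [h4] at h7 h8
    refine ⟨h2, by rw [ht]; linarith, ?_⟩
    have h9 : y < t + m + 1 := by rw [ht]; linarith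
    linarith
  have ht0 : 0 ≤ t := by
    have : (0:ℤ) ≤ (i : ℤ) * (m + 1) := by positivity
    rw [ht]; linarith
  have htm : t + m ≤ x + r := by
    have h1 : ((i : ℤ) + 1) * (m + 1) ≤ w * (m + 1) := by
      have : (i : ℤ) + 1 ≤ w := by exact_mod_cast hi
      have h2 : (0:ℤ) ≤ (m:ℤ) + 1 := by positivity
      exact mul_le_mul_of_nonneg_right this h2
    have h2 : (w : ℤ) * (m + 1) ≤ 2 * r + 1 := by exact_mod_cast hw1
    rw [ht]
    linarith
  refine ⟨a + q * t, q, a', T.image (fun y => (y - t).toNat), by positivity, hq, ?_, ?_, ?_, ?_⟩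
  · have h1 : t + m ≤ (M : ℤ) - 1 := by linarith
    have h2 : q * (t + m) ≤ q * ((M : ℤ) - 1) := mul_le_mul_of_nonneg_left h1 (by linarith)
    linarith
  · intro σ hσ
    obtain ⟨y, hy, rfl⟩ := mem_image.1 hσ
    obtain ⟨-, h1, h2⟩ := hTprop y hy
    rw [mem_range]
    omega
  · rw [card_image_of_injOn, hTc]
    intro y hy z hz hyz
    obtain ⟨-, h1, h2⟩ := hTprop y hy
    obtain ⟨-, h3, h4⟩ := hTprop z hz
    simp only at hyz
    omega
  · intro σ hσ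
    obtain ⟨y, hy, rfl⟩ := mem_image.1 hσ
    obtain ⟨h0, h1, h2⟩ := hTprop y hy
    have e : a + q * t + q * (((y - t).toNat : ℕ) : ℤ) = a + q * y := by
      rw [Int.toNat_of_nonneg (by linarith)]
      ring
    rw [e]
    exact ⟨hmemG1 _ (hZprop y h0).1, hclose y h0⟩

end Pool.Agent.H646.Phase2M
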