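import Mathlib
import Pool.Agent.H646.Defs
import Pool.Agent.H646.Phase1
import Pool.Agent.H646.Phase2

namespace Pool.Agent.H646.PatternM
open Finset
open Pool.Agent.H646.Phase1M (phase1)
open Pool.Agent.H646.Phase2M (phase2)




/-- pattern theorem: in every window with many concave points there is a nearly linear pattern -/
theorem pattern (δ C : ℝ) (hδ : 0 < δ) (hδ1 : δ ≤ 1) (hC : 1 ≤ C) :
    ∃ c > (0 : ℝ), ∀ k : ℕ, ∃ m W₀ : ℕ, ∀ W : ℕ, W₀ ≤ W → ∀ (f : ℤ → ℝ) (G : Finset ℤ),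
      Monotone f → f W - f 0 ≤ C * W → G ⊆ Ico (0 : ℤ) W → δ * W ≤ #G →
      (∀ x ∈ G, ∀ i : ℤ, 0 ≤ i → i ≤ W → f (x + i) + f (x - i) ≤ 2 * f x) →
      ∃ (a q : ℤ) (s b : ℝ) (S : Finset ℕ), 0 ≤ a ∧ 1 ≤ q ∧ a + q * m < W ∧ S ⊆ range (m + 1) ∧
        #S = k ∧ ∀ σ ∈ S, |f (a + q * σ) - (s * σ + b)| ≤ (W : ℝ) ^ (-c) := by
  classical
  obtain ⟨B, hB, h2⟩ := phase2 (δ / 16) (by positivity) (by linarith)
  obtain ⟨c₁, hc₁, W₁, h1⟩ := phase1 δ C hδ hδ1 hC B hB
  have hBpos : (0 : ℝ) < B := by exact_mod_cast hB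
  refine ⟨c₁ / B, by positivity, ?_⟩
  intro k
  obtain ⟨m, ℓ₀, h2⟩ := h2 k
  obtain ⟨W₂, hW₂⟩ : ∃ W₂ : ℕ, ∀ W : ℕ, W₂ ≤ W → (ℓ₀ : ℝ) ≤ (W : ℝ) ^ c₁ := by
    have h := (tendsto_rpow_atTop hc₁).comp tendsto_natCast_atTop_atTop (α := ℕ)
    obtain ⟨W₂, h2⟩ := Filter.eventually_atTop.mp (h.eventually (Filter.eventually_ge_atTop (ℓ₀ : ℝ)))
    exact ⟨W₂, fun W hW => h2 W hW⟩
  refine ⟨m, max (max W₁ W₂) 1, ?_⟩
  intro W hW f G hf hr hG hGc hgood
  have hWpos : 1 ≤ W := (le_max_right _ _).trans hW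
  have hWa : W₁ ≤ W := (le_max_left _ _).trans ((le_max_left _ _).trans hW)
  have hWb : W₂ ≤ W := (le_max_right _ _).trans ((le_max_left _ _).trans hW)
  obtain ⟨v, l, G₁, s, b, hv, hvl, hWl, hG₁G, hG₁I, hG₁c, hdev⟩ := h1 W hWa f G hf hr hG hGc hgood
  have hl0 : ℓ₀ ≤ l := by exact_mod_cast (hW₂ W hWb).trans hWl
  set G₂ : Finset ℤ := G₁.image (fun x => x - v) with hG₂
  have hmem : ∀ x, x ∈ G₂ ↔ x + v ∈ G₁ := by
    intro x
    rw [hG₂, mem_image]
    constructor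
    · rintro ⟨y, hy, rfl⟩
      simpa using hy
    · intro h
      exact ⟨x + v, h, by ring⟩
  have hcard : #G₂ = #G₁ := by
    rw [hG₂]
    apply card_image_of_injective
    intro x y h
    simpa using h
  have hI : G₂ ⊆ Ico (0 : ℤ) l := by
    intro x hx
    have := hG₁I ((hmem x).mp hx)
    rw [mem_Ico] at this ⊢
    omega
  have hl : ∀ x, x ∈ G₂ → 0 ≤ x ∧ x < l := fun x hx => mem_Ico.mp (hI hx)
  obtain ⟨a, q, β, S, ha, hq, haq, hS, hSk, hfin⟩ := h2 l hl0 G₂ (fun x => f (x + v) - (s * ((x + v : ℤ) : ℝ) + b)) hI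
    (by rw [hcard]; exact hG₁c)
    (by
      intro x hx i hx1 hx2
      have key : f (x + i + v) + f (x - i + v) ≤ 2 * f (x + v) := by
        have hxG : x + v ∈ G := hG₁G ((hmem x).mp hx)
        have b0 := hl _ hx
        have b1 := hl _ hx1
        have b2 := hl _ hx2
        rcases le_total 0 i with hi | hi
        · have := hgood (x + v) hxG i hi (by omega)
          have e1 : x + v + i = x + i + v := by ring
          have e2 : x + v - i = x - i + v := by ring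
          rw [e1, e2] at this
          exact this
        · have := hgood (x + v) hxG (-i) (by omega) (by omega)
          have e1 : x + v + -i = x - i + v := by ring
          have e2 : x + v - -i = x + i + v := by ring
          rw [e1, e2] at this
          linarith
      push_cast
      linarith)
    (by
      intro x hx
      exact hdev (x + v) ((hmem x).mp hx))
  refine ⟨a + v, q, s * q, s * (a + v) + b + β, S, by omega, hq, by omega, hS, hSk, ?_⟩
  intro σ hσ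
  have h3 := (hfin σ hσ).2
  have e : f (a + v + q * σ) - (s * q * σ + (s * (a + v) + b + β)) =
      f (a + q * σ + v) - (s * ((a + q * σ + v : ℤ) : ℝ) + b) - β := by
    have : a + v + q * (σ : ℤ) = a + q * σ + v := by ring
    rw [this]
    push_cast
    ring
  rw [e]
  refine h3.trans ?_
  have hWr : (1 : ℝ) ≤ (W : ℝ) ^ c₁ := Real.one_le_rpow (by exact_mod_cast hWpos) hc₁.le
  have hlpos : (0 : ℝ) < l := by linarith
  have e2 : (W : ℝ) ^ (-(c₁ / B)) = ((W : ℝ) ^ c₁) ^ (-(1 : ℝ) / B) := by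
    rw [← Real.rpow_mul (by positivity)]
    congr 1
    ring
  rw [e2]
  apply Real.rpow_le_rpow_of_nonpos (by linarith) hWl
  rw [neg_div]
  have : 0 ≤ (1 : ℝ) / B := by positivity
  linarith

end Pool.Agent.H646.PatternM
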