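import Mathlib
import Pool.Agent.H646.Defs
import Pool.Agent.H646.Cheb

namespace Pool.Agent.H646.WindowM
open Finset
open Pool.Agent.H646.ChebM (P_strictMono le_P)




-- the following two theorems are proved elsewhere: leave their sorry



/-- target 1: a window with many concave indices is structured -/
theorem window_concave (W m k : ℕ) (ε C₁ δ : ℝ)
    (hpat : ∀ (f : ℤ → ℝ) (G : Finset ℤ),
      Monotone f → f W - f 0 ≤ C₁ * W → G ⊆ Ico (0 : ℤ) W → δ * W ≤ #G →
      (∀ x ∈ G, ∀ i : ℤ, 0 ≤ i → i ≤ W → f (x + i) + f (x - i) ≤ 2 * f x) →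
      ∃ (a q : ℤ) (s b : ℝ) (S : Finset ℕ), 0 ≤ a ∧ 1 ≤ q ∧ a + q * m < W ∧ S ⊆ range (m + 1) ∧
        #S = k + 3 ∧ ∀ σ ∈ S, |f (a + q * σ) - (s * σ + b)| ≤ ε)
    (N n₀ : ℕ) (hN : 2 ≤ N) (hlen : (P (n₀ + W) : ℝ) - P n₀ ≤ C₁ * W * Real.log N)
    (A : Finset ℕ) (hA : ∀ n ∈ A, W ≤ n ∧ ∀ i : ℕ, i ≤ W → P (n + i) + P (n - i) ≤ 2 * P n)
    (hc : δ * W ≤ (#{x ∈ range W | n₀ + x ∈ A} : ℝ)) : Str W m k ε N n₀ := by
  have hlog : 0 < Real.log N := Real.log_pos (by exact_mod_cast hN)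
  have key := hpat
    (fun x : ℤ => (P ((n₀ + x).toNat) : ℝ) / Real.log N)
    {x ∈ Ico (0 : ℤ) W | ((n₀ : ℤ) + x).toNat ∈ A}
  have key2 := key ?_ ?_ ?_ ?_ ?_
  · obtain ⟨a, q, s, b, S, ha, hq, haq, hS, hSc, hf⟩ := key2
    refine ⟨a.toNat, q.toNat, S, s * Real.log N, b * Real.log N, ?_, ?_, hS, hSc, ?_⟩
    · omega
    · have : ((a.toNat + q.toNat * m : ℕ) : ℤ) ≤ W := by
        push_cast
        rw [Int.toNat_of_nonneg ha, Int.toNat_of_nonneg (by omega : 0 ≤ q)]
        exact haq.le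
      exact_mod_cast this
    · intro σ hσ
      have h := hf σ hσ
      have e : ((n₀ : ℤ) + (a + q * σ)).toNat = n₀ + a.toNat + q.toNat * σ := by
        have : (n₀ : ℤ) + (a + q * σ) = ((n₀ + a.toNat + q.toNat * σ : ℕ) : ℤ) := by
          push_cast
          rw [Int.toNat_of_nonneg ha, Int.toNat_of_nonneg (by omega : 0 ≤ q)]
          ring
        rw [this, Int.toNat_natCast]
      simp only [e] at h
      have h2 : (P (n₀ + a.toNat + q.toNat * σ) : ℝ) - (s * Real.log N * σ + b * Real.log N) =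
          ((P (n₀ + a.toNat + q.toNat * σ) : ℝ) / Real.log N - (s * σ + b)) * Real.log N := by
        field_simp
      rw [h2, abs_mul, abs_of_pos hlog]
      exact mul_le_mul_of_nonneg_right h hlog.le
  · intro x y hxy
    have : P ((n₀ + x).toNat) ≤ P ((n₀ + y).toNat) :=
      P_strictMono.monotone (Int.toNat_le_toNat (by omega))
    have h2 : (P ((n₀ + x).toNat) : ℝ) ≤ P ((n₀ + y).toNat) := by exact_mod_cast this
    exact div_le_div_of_nonneg_right h2 hlog.le
  · have e1 : ((n₀ : ℤ) + (W : ℤ)).toNat = n₀ + W := by omega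
    have e2 : ((n₀ : ℤ) + 0).toNat = n₀ := by omega
    simp only [e1, e2]
    rw [← sub_div, div_le_iff₀ hlog]
    exact hlen
  · exact filter_subset _ _
  · refine hc.trans ?_
    have : #{x ∈ range W | n₀ + x ∈ A} ≤ #{x ∈ Ico (0 : ℤ) W | ((n₀ : ℤ) + x).toNat ∈ A} := by
      refine card_le_card_of_injOn (fun x : ℕ => (x : ℤ)) ?_ ?_
      · intro x hx
        simp only [coe_filter, mem_range, Set.mem_ofPred_eq, mem_Ico] at hx ⊢
        refine ⟨by omega, ?_⟩
        have : ((n₀ : ℤ) + (x : ℤ)).toNat = n₀ + x := by omega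
        rw [this]
        exact hx.2
      · intro x _ y _ hxy
        simpa using hxy
    exact_mod_cast this
  · intro x hx i hi hiW
    simp only [mem_filter, mem_Ico] at hx
    obtain ⟨⟨hx0, hxW⟩, hxA⟩ := hx
    obtain ⟨hW, hA2⟩ := hA _ hxA
    have h := hA2 i.toNat (by omega)
    have e1 : ((n₀ : ℤ) + (x + i)).toNat = ((n₀ : ℤ) + x).toNat + i.toNat := by omega
    have e2 : ((n₀ : ℤ) + (x - i)).toNat = ((n₀ : ℤ) + x).toNat - i.toNat := by omega
    simp only [e1, e2]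
    have h' : (P (((n₀ : ℤ) + x).toNat + i.toNat) : ℝ) + P (((n₀ : ℤ) + x).toNat - i.toNat) ≤
        2 * P (((n₀ : ℤ) + x).toNat) := by exact_mod_cast h
    rw [← add_div, ← mul_div_assoc]
    exact div_le_div_of_nonneg_right h' hlog.le

/-- target 2: a window with many convex indices is structured -/
theorem window_convex (W m k : ℕ) (ε C₁ δ : ℝ)
    (hpat : ∀ (f : ℤ → ℝ) (G : Finset ℤ),
      Monotone f → f W - f 0 ≤ C₁ * W → G ⊆ Ico (0 : ℤ) W → δ * W ≤ #G →
      (∀ x ∈ G, ∀ i : ℤ, 0 ≤ i → i ≤ W → f (x + i) + f (x - i) ≤ 2 * f x) →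
      ∃ (a q : ℤ) (s b : ℝ) (S : Finset ℕ), 0 ≤ a ∧ 1 ≤ q ∧ a + q * m < W ∧ S ⊆ range (m + 1) ∧
        #S = k + 3 ∧ ∀ σ ∈ S, |f (a + q * σ) - (s * σ + b)| ≤ ε)
    (N n₀ : ℕ) (hN : 2 ≤ N) (hlen : (P (n₀ + W) : ℝ) - P n₀ ≤ C₁ * W * Real.log N)
    (A : Finset ℕ) (hA : ∀ n ∈ A, W ≤ n ∧ ∀ i : ℕ, i ≤ W → 2 * P n ≤ P (n + i) + P (n - i))
    (hc : δ * W ≤ (#{x ∈ range W | n₀ + x + 1 ∈ A} : ℝ)) : Str W m k ε N n₀ := by
  have hlog : 0 < Real.log N := Real.log_pos (by exact_mod_cast hN)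
  have key := hpat
    (fun x : ℤ => -((P ((n₀ + W - x).toNat) : ℝ) / Real.log N))
    {x ∈ Ico (0 : ℤ) W | ((n₀ : ℤ) + W - x).toNat ∈ A}
  have key2 := key ?_ ?_ ?_ ?_ ?_
  · obtain ⟨a, q, s, b, S, ha, hq, haq, hS, hSc, hf⟩ := key2
    have hq0 : 0 ≤ q := by omega
    have hqm0 : (0 : ℤ) ≤ q * m := by positivity
    obtain ⟨q', rfl⟩ : ∃ q' : ℕ, q = q' := ⟨q.toNat, by omega⟩
    obtain ⟨a', rfl⟩ : ∃ a' : ℕ, a = a' := ⟨a.toNat, by omega⟩
    have haq' : a' + q' * m < W := by exact_mod_cast haq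
    refine ⟨W - a' - q' * m, q', S.image (fun σ => m - σ), s * Real.log N,
      -(s * m + b) * Real.log N, ?_, ?_, ?_, ?_, ?_⟩
    · exact_mod_cast hq
    · omega
    · intro x hx
      simp only [mem_image] at hx
      obtain ⟨σ, -, rfl⟩ := hx
      simp only [mem_range]
      omega
    · rw [card_image_of_injOn, hSc]
      intro x hx y hy hxy
      have h1 := hS hx
      have h2 := hS hy
      simp only [mem_range] at h1 h2
      simp only at hxy
      omega
    · intro τ hτ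
      simp only [mem_image] at hτ
      obtain ⟨σ, hσ, rfl⟩ := hτ
      have hσm : σ ≤ m := by
        have h1 := hS hσ
        simp only [mem_range] at h1
        omega
      have h := hf σ hσ
      have e : ((n₀ : ℤ) + W - ((a' : ℤ) + (q' : ℤ) * σ)).toNat =
          n₀ + (W - a' - q' * m) + q' * (m - σ) := by
        have h1 : q' * m = q' * (m - σ) + q' * σ := by
          rw [← Nat.mul_add, Nat.sub_add_cancel hσm]
        have h2 : (n₀ : ℤ) + W - ((a' : ℤ) + (q' : ℤ) * σ) =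
            ((n₀ + (W - a' - q' * m) + q' * (m - σ) : ℕ) : ℤ) := by
          rw [h1]
          rw [h1] at haq'
          generalize q' * (m - σ) = u at *
          have h3 : ((q' : ℤ) * (σ : ℤ)) = ((q' * σ : ℕ) : ℤ) := by push_cast; ring
          rw [h3]
          generalize q' * σ = v at *
          omega
        rw [h2, Int.toNat_natCast]
      simp only [e] at h
      have hcast : ((m - σ : ℕ) : ℝ) = m - σ := by
        push_cast [Nat.cast_sub hσm]
        ring
      have h2 : (P (n₀ + (W - a' - q' * m) + q' * (m - σ)) : ℝ) -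
          (s * Real.log N * ((m - σ : ℕ) : ℝ) + -(s * m + b) * Real.log N) =
          -((-((P (n₀ + (W - a' - q' * m) + q' * (m - σ)) : ℝ) / Real.log N) - (s * σ + b)) *
            Real.log N) := by
        rw [hcast]
        field_simp
        ring
      rw [h2, abs_neg, abs_mul, abs_of_pos hlog]
      exact mul_le_mul_of_nonneg_right h hlog.le
  · intro x y hxy
    have : P ((n₀ + W - y).toNat) ≤ P ((n₀ + W - x).toNat) :=
      P_strictMono.monotone (Int.toNat_le_toNat (by omega))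
    have h2 : (P ((n₀ + W - y).toNat) : ℝ) ≤ P ((n₀ + W - x).toNat) := by exact_mod_cast this
    exact neg_le_neg (div_le_div_of_nonneg_right h2 hlog.le)
  · have e1 : ((n₀ : ℤ) + (W : ℤ) - (W : ℤ)).toNat = n₀ := by omega
    have e2 : ((n₀ : ℤ) + (W : ℤ) - 0).toNat = n₀ + W := by omega
    simp only [e1, e2]
    rw [neg_sub_neg, ← sub_div, div_le_iff₀ hlog]
    exact hlen
  · exact filter_subset _ _
  · refine hc.trans ?_
    have : #{x ∈ range W | n₀ + x + 1 ∈ A} ≤
        #{x ∈ Ico (0 : ℤ) W | ((n₀ : ℤ) + W - x).toNat ∈ A} := by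
      refine card_le_card_of_injOn (fun x : ℕ => (W : ℤ) - 1 - x) ?_ ?_
      · intro x hx
        simp only [coe_filter, mem_range, Set.mem_ofPred_eq, mem_Ico] at hx ⊢
        refine ⟨by omega, ?_⟩
        have : ((n₀ : ℤ) + W - ((W : ℤ) - 1 - (x : ℤ))).toNat = n₀ + x + 1 := by omega
        rw [this]
        exact hx.2
      · intro x _ y _ hxy
        simp only at hxy
        omega
    exact_mod_cast this
  · intro x hx i hi hiW
    simp only [mem_filter, mem_Ico] at hx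
    obtain ⟨⟨hx0, hxW⟩, hxA⟩ := hx
    obtain ⟨hW, hA2⟩ := hA _ hxA
    have h := hA2 i.toNat (by omega)
    have e1 : ((n₀ : ℤ) + W - (x - i)).toNat = ((n₀ : ℤ) + W - x).toNat + i.toNat := by omega
    have e2 : ((n₀ : ℤ) + W - (x + i)).toNat = ((n₀ : ℤ) + W - x).toNat - i.toNat := by omega
    simp only [e1, e2]
    have h' : 2 * (P (((n₀ : ℤ) + W - x).toNat) : ℝ) ≤
        (P (((n₀ : ℤ) + W - x).toNat + i.toNat) : ℝ) +
          P (((n₀ : ℤ) + W - x).toNat - i.toNat) := by exact_mod_cast h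
    have h3 := div_le_div_of_nonneg_right h' hlog.le
    rw [add_div, mul_div_assoc] at h3
    linarith

end Pool.Agent.H646.WindowM
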