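import Mathlib
import Pool.Agent.H646.Defs

namespace Pool.Agent.H646.WindowsM
open Finset


/-- a dense set meets many windows in a dense set -/
theorem windows_avg (δ : ℝ) (hδ : 0 < δ) (hδ1 : δ ≤ 1) (W N : ℕ) (hW : 1 ≤ W) (hN : 8 * W ≤ δ * N)
    (A : Finset ℕ) (hA : A ⊆ range N) (hAc : δ * N ≤ #A) :
    3 * δ / 8 * N ≤ (#{n ∈ range N | δ / 2 * W ≤ (#{x ∈ range W | n + x ∈ A} : ℝ)} : ℝ) := by
  classical
  have hWpos : (0 : ℝ) < W := by exact_mod_cast hW
  -- lower bound for the total
  have hx : ∀ x ∈ range W, (#A : ℝ) - W ≤ (#{n ∈ range N | n + x ∈ A} : ℝ) := by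
    intro x hx
    have hxW := Finset.mem_range.1 hx
    have h1 : #A ≤ x + #{n ∈ range N | n + x ∈ A} := by
      calc #A ≤ #((range x) ∪ (({n ∈ range N | n + x ∈ A}).image (fun n => n + x))) := by
            apply Finset.card_le_card
            intro a ha
            rw [Finset.mem_union, Finset.mem_range, Finset.mem_image]
            by_cases hax : a < x
            · exact Or.inl hax
            · right
              have haN := Finset.mem_range.1 (hA ha)
              refine ⟨a - x, ?_, by omega⟩
              rw [Finset.mem_filter, Finset.mem_range]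
              refine ⟨by omega, ?_⟩
              rw [Nat.sub_add_cancel (by omega)]
              exact ha
        _ ≤ #(range x) + #(({n ∈ range N | n + x ∈ A}).image (fun n => n + x)) :=
            Finset.card_union_le _ _
        _ ≤ x + #{n ∈ range N | n + x ∈ A} := by
            rw [Finset.card_range]
            exact Nat.add_le_add_left Finset.card_image_le _
    have h2 : (#A : ℝ) ≤ x + (#{n ∈ range N | n + x ∈ A} : ℝ) := by exact_mod_cast h1
    have h3 : (x : ℝ) ≤ W := by exact_mod_cast hxW.le
    linarith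
  have hswap : ∑ n ∈ range N, (#{x ∈ range W | n + x ∈ A} : ℝ) =
      ∑ x ∈ range W, (#{n ∈ range N | n + x ∈ A} : ℝ) := by
    simp only [Finset.card_filter, Nat.cast_sum]
    exact Finset.sum_comm
  have hlow : (W : ℝ) * ((#A : ℝ) - W) ≤ ∑ n ∈ range N, (#{x ∈ range W | n + x ∈ A} : ℝ) := by
    rw [hswap]
    calc (W : ℝ) * ((#A : ℝ) - W) = ∑ x ∈ range W, ((#A : ℝ) - W) := by
          rw [Finset.sum_const, Finset.card_range, nsmul_eq_mul]
      _ ≤ _ := Finset.sum_le_sum hx
  -- upper bound for the total
  set B := {n ∈ range N | δ / 2 * W ≤ (#{x ∈ range W | n + x ∈ A} : ℝ)} with hB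
  have hup : ∑ n ∈ range N, (#{x ∈ range W | n + x ∈ A} : ℝ) ≤ #B * W + N * (δ / 2 * W) := by
    rw [← Finset.sum_filter_add_sum_filter_not (range N)
      (fun n => δ / 2 * W ≤ (#{x ∈ range W | n + x ∈ A} : ℝ))]
    apply add_le_add
    · calc ∑ n ∈ B, (#{x ∈ range W | n + x ∈ A} : ℝ) ≤ ∑ n ∈ B, (W : ℝ) := by
            apply Finset.sum_le_sum
            intro n _
            have : #{x ∈ range W | n + x ∈ A} ≤ #(range W) :=
              Finset.card_le_card (Finset.filter_subset _ _)
            rw [Finset.card_range] at this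
            exact_mod_cast this
        _ = _ := by simp
    · calc ∑ n ∈ (range N).filter (fun n => ¬ δ / 2 * W ≤ (#{x ∈ range W | n + x ∈ A} : ℝ)),
            (#{x ∈ range W | n + x ∈ A} : ℝ) ≤
          ∑ n ∈ (range N).filter (fun n => ¬ δ / 2 * W ≤ (#{x ∈ range W | n + x ∈ A} : ℝ)),
            (δ / 2 * W) := by
            apply Finset.sum_le_sum
            intro n hn
            exact (not_le.1 (Finset.mem_filter.1 hn).2).le
        _ = #((range N).filter (fun n => ¬ δ / 2 * W ≤ (#{x ∈ range W | n + x ∈ A} : ℝ))) *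
            (δ / 2 * W) := by simp
        _ ≤ N * (δ / 2 * W) := by
            apply mul_le_mul_of_nonneg_right _ (by positivity)
            have : #((range N).filter (fun n => ¬ δ / 2 * W ≤ (#{x ∈ range W | n + x ∈ A} : ℝ))) ≤
                #(range N) := Finset.card_le_card (Finset.filter_subset _ _)
            rw [Finset.card_range] at this
            exact_mod_cast this
  have h1 : (W : ℝ) * ((#A : ℝ) - W) ≤ (W : ℝ) * (#B + N * (δ / 2)) := by
    calc _ ≤ _ := hlow.trans hup
      _ = _ := by ring
  have h2 := le_of_mul_le_mul_left h1 hWpos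
  nlinarith

end Pool.Agent.H646.WindowsM
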