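import Mathlib
import Pool.Agent.H646.Defs
import Pool.Agent.H646.Cheb
import Pool.Agent.H646.Count
import Pool.Agent.H646.Pattern
import Pool.Agent.H646.Window
import Pool.Agent.H646.Windows

namespace Pool.Agent.H646.DensM
open Finset
open Pool.Agent.H646.ChebM (P_le P_strictMono le_P long_few)
open Pool.Agent.H646.CountM (count_structured)
open Pool.Agent.H646.PatternM (pattern)
open Pool.Agent.H646.WindowM (window_concave window_convex)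
open Pool.Agent.H646.WindowsM (windows_avg)




-- the following theorems are proved elsewhere: leave their sorry











theorem core_aux (δ : ℝ) (hδ : 0 < δ) (hδ1 : δ ≤ 1) :
    ∃ (W m k : ℕ) (ε C₁ : ℝ) (N₀ : ℕ), 1 ≤ W ∧
      (∀ (f : ℤ → ℝ) (G : Finset ℤ),
      Monotone f → f W - f 0 ≤ C₁ * W → G ⊆ Ico (0 : ℤ) W → (δ / 2) * W ≤ #G →
      (∀ x ∈ G, ∀ i : ℤ, 0 ≤ i → i ≤ W → f (x + i) + f (x - i) ≤ 2 * f x) →
      ∃ (a q : ℤ) (s b : ℝ) (S : Finset ℕ), 0 ≤ a ∧ 1 ≤ q ∧ a + q * m < W ∧ S ⊆ range (m + 1) ∧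
        #S = k + 3 ∧ ∀ σ ∈ S, |f (a + q * σ) - (s * σ + b)| ≤ ε) ∧
      ∀ N : ℕ, N₀ ≤ N → 2 ≤ N ∧ ∀ A : Finset ℕ, A ⊆ range N →
        (∀ n₀ : ℕ, (P (n₀ + W) : ℝ) - P n₀ ≤ C₁ * W * Real.log N →
          (δ / 2) * W ≤ (#{x ∈ range W | n₀ + x ∈ A} : ℝ) → Str W m k ε N n₀) →
        (#A : ℝ) < δ * N := by
  obtain ⟨C₀, hC₀, hP⟩ := P_le
  have hC₁ : 1 ≤ 32 * C₀ / δ := by
    rw [le_div_iff₀ hδ]; linarith
  obtain ⟨c, hc, hpat⟩ := pattern (δ / 2) (32 * C₀ / δ) (by linarith) (by linarith) hC₁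
  obtain ⟨k, hk⟩ := exists_nat_ge (5 / c)
  have hck : 5 ≤ c * k := by
    rw [div_le_iff₀ hc] at hk; linarith
  obtain ⟨m, W₁, hpat⟩ := hpat (k + 3)
  obtain ⟨C, hC, hcount⟩ := count_structured k m (32 * C₀ / δ) hC₁
  obtain ⟨W₂, hW₂⟩ := exists_nat_gt (8 * C / δ)
  obtain ⟨W, hW1, hWW₁, hWW₂⟩ : ∃ W : ℕ, 1 ≤ W ∧ W₁ ≤ W ∧ W₂ ≤ W :=
    ⟨max (max W₁ W₂) 1, by omega, by omega, by omega⟩
  have hWpos : (0 : ℝ) < W := by exact_mod_cast hW1
  have hW1' : (1 : ℝ) ≤ W := by exact_mod_cast hW1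
  have hCW : C < δ / 8 * W := by
    have h1 : 8 * C / δ < W := lt_of_lt_of_le hW₂ (by exact_mod_cast hWW₂)
    rw [div_lt_iff₀ hδ] at h1
    linarith
  have hε : 0 < (W : ℝ) ^ (-c) := Real.rpow_pos_of_pos hWpos _
  have hε1 : (W : ℝ) ^ (-c) ≤ 1 := Real.rpow_le_one_of_one_le_of_nonpos hW1' (by linarith)
  have hεk : C * W ^ 4 * ((W : ℝ) ^ (-c)) ^ k < δ / 4 := by
    have h1 : ((W : ℝ) ^ (-c)) ^ k = (W : ℝ) ^ (-c * k) := by
      rw [← Real.rpow_natCast, ← Real.rpow_mul hWpos.le]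
    have h2 : (W : ℝ) ^ (-c * k) ≤ (W : ℝ) ^ (-5 : ℝ) :=
      Real.rpow_le_rpow_of_exponent_le hW1' (by linarith)
    have h3 : (W : ℝ) ^ (-5 : ℝ) * W ^ 5 = 1 := by
      rw [← Real.rpow_natCast, ← Real.rpow_add hWpos]
      norm_num
    rw [h1]
    have h4 : C * W ^ 4 * (W : ℝ) ^ (-c * k) ≤ C * W ^ 4 * (W : ℝ) ^ (-5 : ℝ) :=
      mul_le_mul_of_nonneg_left h2 (by positivity)
    refine lt_of_le_of_lt h4 ?_
    have h5 : C * W ^ 4 * (W : ℝ) ^ (-5 : ℝ) * W = C := by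
      have : C * W ^ 4 * (W : ℝ) ^ (-5 : ℝ) * W = C * ((W : ℝ) ^ (-5 : ℝ) * W ^ 5) := by ring
      rw [this, h3, mul_one]
    have h6 : C * W ^ 4 * (W : ℝ) ^ (-5 : ℝ) * W < δ / 4 * W := by
      rw [h5]; nlinarith
    exact lt_of_mul_lt_mul_right h6 hWpos.le
  obtain ⟨N₀, hN₀⟩ := hcount W hW1 _ hε hε1
  obtain ⟨N₁, hN₁⟩ := exists_nat_ge (8 * W / δ)
  refine ⟨W, m, k, (W : ℝ) ^ (-c), 32 * C₀ / δ, max (max N₀ N₁) 2, hW1, hpat W hWW₁, ?_⟩
  intro N hN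
  have hN2 : 2 ≤ N := le_trans (le_max_right _ _) hN
  refine ⟨hN2, ?_⟩
  intro A hA hstr
  by_contra hcon
  push Not at hcon
  have hNN₀ : N₀ ≤ N := le_trans (le_trans (le_max_left _ _) (le_max_left _ _)) hN
  have hNN₁ : N₁ ≤ N := le_trans (le_trans (le_max_right _ _) (le_max_left _ _)) hN
  have hNpos : (0 : ℝ) < N := by
    have : 0 < N := by omega
    exact_mod_cast this
  have h8 : 8 * (W : ℝ) ≤ δ * N := by
    have h1 : 8 * (W : ℝ) / δ ≤ N := le_trans hN₁ (by exact_mod_cast hNN₁)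
    rw [div_le_iff₀ hδ] at h1
    linarith
  have hWN : W ≤ N := by
    have : (W : ℝ) ≤ N := by nlinarith
    exact_mod_cast this
  have hw := windows_avg δ hδ hδ1 W N hW1 h8 A hA hcon
  have hl := long_few (32 * C₀ / δ) (by positivity) C₀ hC₀ hP N W hN2 hW1 hWN
  have hl2 : 4 * C₀ / (32 * C₀ / δ) * N = δ / 8 * N := by
    have : C₀ ≠ 0 := by linarith
    field_simp
    norm_num
  rw [hl2] at hl
  set U := {n ∈ range N | δ / 2 * W ≤ (#{x ∈ range W | n + x ∈ A} : ℝ)} with hU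
  set L := {n ∈ range N | 32 * C₀ / δ * W * Real.log N < (P (n + W) : ℝ) - P n} with hL
  have hT := hN₀ N hNN₀ (U \ L) (by
    intro x hx
    rw [mem_sdiff, hU, mem_filter] at hx
    exact hx.1.1) (by
    intro n hn
    rw [mem_sdiff, hU, hL, mem_filter, mem_filter] at hn
    obtain ⟨⟨h1, h2⟩, h3⟩ := hn
    have h4 : (P (n + W) : ℝ) - P n ≤ 32 * C₀ / δ * W * Real.log N := by
      by_contra h5
      push Not at h5
      exact h3 ⟨h1, h5⟩
    exact ⟨h4, hstr n h4 h2⟩)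
  have hcard : (#U : ℝ) ≤ #(U \ L) + #L := by
    have : #U ≤ #(U \ L) + #L := by
      have := card_le_card (show U ⊆ (U \ L) ∪ L by
        intro x hx
        by_cases hxL : x ∈ L
        · exact mem_union_right _ hxL
        · exact mem_union_left _ (mem_sdiff.mpr ⟨hx, hxL⟩))
      exact le_trans this (card_union_le _ _)
    exact_mod_cast this
  have hfin : C * W ^ 4 * ((W : ℝ) ^ (-c)) ^ k * N < δ / 4 * N :=
    mul_lt_mul_of_pos_right hεk hNpos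
  linarith

/-- target 1 -/
theorem core_concave (δ : ℝ) (hδ : 0 < δ) (hδ1 : δ ≤ 1) :
    ∃ W N₀ : ℕ, ∀ N : ℕ, N₀ ≤ N → ∀ A : Finset ℕ, A ⊆ range N →
      (∀ n ∈ A, W ≤ n ∧ ∀ i : ℕ, i ≤ W → P (n + i) + P (n - i) ≤ 2 * P n) → (#A : ℝ) < δ * N := by
  obtain ⟨W, m, k, ε, C₁, N₀, hW, hpat, hmain⟩ := core_aux δ hδ hδ1
  refine ⟨W, N₀, ?_⟩
  intro N hN A hA hAc
  obtain ⟨hN2, hmain⟩ := hmain N hN
  exact hmain A hA (fun n₀ hlen hcnt => window_concave W m k ε C₁ (δ / 2) hpat N n₀ hN2 hlen A hAc hcnt)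

/-- target 2 -/
theorem core_convex (δ : ℝ) (hδ : 0 < δ) (hδ1 : δ ≤ 1) :
    ∃ W N₀ : ℕ, ∀ N : ℕ, N₀ ≤ N → ∀ A : Finset ℕ, A ⊆ range N →
      (∀ n ∈ A, W ≤ n ∧ ∀ i : ℕ, i ≤ W → 2 * P n ≤ P (n + i) + P (n - i)) → (#A : ℝ) < δ * N := by
  obtain ⟨W, m, k, ε, C₁, N₀, hW, hpat, hmain⟩ := core_aux δ hδ hδ1
  refine ⟨W, N₀, ?_⟩
  intro N hN A hA hAc
  obtain ⟨hN2, hmain⟩ := hmain N hN
  have hpos : ∀ n ∈ A, 1 ≤ n := fun n hn => le_trans hW (hAc n hn).1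
  have hcard : #(A.image (fun n => n - 1)) = #A := by
    apply card_image_of_injOn
    intro x hx y hy hxy
    have h1 := hpos x hx
    have h2 := hpos y hy
    simp only at hxy
    omega
  have hsub : A.image (fun n => n - 1) ⊆ range N := by
    intro x hx
    rw [mem_image] at hx
    obtain ⟨y, hy, rfl⟩ := hx
    have h1 := mem_range.mp (hA hy)
    exact mem_range.mpr (by omega)
  have := hmain (A.image (fun n => n - 1)) hsub (fun n₀ hlen hcnt => by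
    apply window_convex W m k ε C₁ (δ / 2) hpat N n₀ hN2 hlen A hAc
    refine le_trans hcnt ?_
    have : #{x ∈ range W | n₀ + x ∈ A.image (fun n => n - 1)} ≤ #{x ∈ range W | n₀ + x + 1 ∈ A} := by
      apply card_le_card
      intro x hx
      rw [mem_filter] at hx ⊢
      refine ⟨hx.1, ?_⟩
      obtain ⟨y, hy, hyx⟩ := mem_image.mp hx.2
      have h1 := hpos y hy
      have h2 : n₀ + x + 1 = y := by omega
      rw [h2]; exact hy
    exact_mod_cast this)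
  rw [hcard] at this
  exact this

end Pool.Agent.H646.DensM
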