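import Mathlib
import Pool.Agent.H646.Defs
import Pool.Agent.H646.Cheb

namespace Pool.Agent.H646.GapM
open Finset
open Pool.Agent.H646.ChebM (P_le P_strictMono le_P gap_sum)



-- the following theorems are proved elsewhere: leave their sorry





/-- target 1: a good index without a long gap sequence around it is concave -/
theorem good_concave (W n : ℕ) (hn : W ≤ n)
    (hgood : ∀ i : ℕ, 1 ≤ i → i ≤ W → P (n - i) * P (n + i) < P n ^ 2)
    (hgap : (P (n + W) - P (n - W)) ^ 2 ≤ P n) :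
    ∀ i : ℕ, i ≤ W → P (n + i) + P (n - i) ≤ 2 * P n := by
  intro i hi
  rcases Nat.eq_zero_or_pos i with rfl | hipos
  · simp only [Nat.add_zero, Nat.sub_zero]; omega
  have h1 := hgood i hipos hi
  have hm := P_strictMono.monotone
  have ha : P (n - i) ≤ P n := hm (by omega)
  have hb : P n ≤ P (n + i) := hm (by omega)
  have hbW : P (n + i) ≤ P (n + W) := hm (by omega)
  have haW : P (n - W) ≤ P (n - i) := hm (by omega)
  have hg : (P (n + i) - P (n - i)) ^ 2 ≤ P n :=
    le_trans (Nat.pow_le_pow_left (by omega) 2) hgap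
  have hppos : 0 < P n := by have := le_P n; omega
  clear hgap hgood hbW haW hm
  generalize P (n - i) = a at *
  generalize P (n + i) = b at *
  generalize P n = p at *
  obtain ⟨u, rfl⟩ := Nat.exists_eq_add_of_le ha
  obtain ⟨v, rfl⟩ := Nat.exists_eq_add_of_le hb
  have e : a + u + v - a = u + v := by omega
  rw [e] at hg
  by_contra hcon
  have hvu : u + 1 ≤ v := by omega
  obtain ⟨w, rfl⟩ := Nat.exists_eq_add_of_le hvu
  nlinarith [sq_nonneg (u + (u+1+w)), Nat.zero_le (a * w), Nat.zero_le (u*w), Nat.zero_le a]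

/-- target 2: indices surrounded by long gaps are rare -/
theorem gap_rare (W : ℕ) (δ : ℝ) (hδ : 0 < δ) :
    ∃ N₀ : ℕ, ∀ N : ℕ, N₀ ≤ N →
      (#{n ∈ range N | W ≤ n ∧ P n < (P (n + W) - P (n - W)) ^ 2} : ℝ) ≤ δ * N := by
  obtain ⟨C₀, hC₀1, hC₀⟩ := P_le
  have hm := P_strictMono.monotone
  have hlo := isLittleO_log_rpow_atTop (r := 1/2) (by norm_num)
  set c : ℝ := (δ/3) * Real.sqrt (δ/3) / (8 * (W + 1) * C₀) with hc
  have hcpos : 0 < c := by positivity
  have hev := (hlo.def hcpos)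
  have hevN := (tendsto_natCast_atTop_atTop (R := ℝ)).eventually hev
  obtain ⟨N₁, hN₁⟩ := Filter.eventually_atTop.1 hevN
  obtain ⟨N₂, hN₂⟩ := exists_nat_ge (3/δ)
  refine ⟨N₁ + N₂ + W + 2, fun N hN => ?_⟩
  have hNpos : (0:ℝ) < N := by
    have : 0 < N := by omega
    exact_mod_cast this
  have hN2 : (2:ℝ) ≤ N := by
    have : 2 ≤ N := by omega
    exact_mod_cast this
  have hNW : (W:ℝ) ≤ N := by
    have : W ≤ N := by omega
    exact_mod_cast this
  have hlog := hN₁ N (by omega)
  have hlogpos : 0 ≤ Real.log N := Real.log_nonneg (by linarith)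
  rw [Real.norm_of_nonneg hlogpos, Real.norm_of_nonneg (by positivity), ← Real.sqrt_eq_rpow] at hlog
  -- split
  set S := {n ∈ range N | W ≤ n ∧ P n < (P (n + W) - P (n - W)) ^ 2} with hS
  set K := ⌈δ * N / 3⌉₊ with hK
  set S2 := {n ∈ Ico W N | K ≤ n ∧ P n < (P (n + W) - P (n - W)) ^ 2} with hS2
  have hsub : S ⊆ range K ∪ S2 := by
    intro n hn
    simp only [hS, hS2, mem_filter, mem_range, mem_union, mem_Ico] at hn ⊢
    by_cases h : n < K
    · left; exact h
    · right; exact ⟨⟨hn.2.1, hn.1⟩, by omega, hn.2.2⟩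
  have hcard : (#S : ℝ) ≤ K + #S2 := by
    have h1 := card_le_card hsub
    have h2 := card_union_le (range K) S2
    rw [card_range] at h2
    exact_mod_cast h1.trans h2
  have hKle : (K : ℝ) ≤ δ * N / 3 + 1 := (Nat.ceil_lt_add_one (by positivity)).le
  have hKle2 : (1:ℝ) ≤ δ * N / 3 := by
    have h3 : (3/δ) ≤ N := hN₂.trans (by exact_mod_cast (by omega : N₂ ≤ N))
    rw [div_le_iff₀ hδ] at h3
    linarith
  have hKge : δ * N / 3 ≤ K := Nat.le_ceil _
  -- sum bound
  set T := Real.sqrt (δ * N / 3) with hT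
  have hTpos : 0 < T := Real.sqrt_pos.2 (by positivity)
  have hsum : (#S2 : ℝ) * T ≤ ∑ n ∈ Ico W N, ((P (n + W) : ℝ) - P (n - W)) := by
    have h1 : (#S2 : ℝ) * T ≤ ∑ n ∈ S2, ((P (n + W) : ℝ) - P (n - W)) := by
      rw [← nsmul_eq_mul]
      apply card_nsmul_le_sum
      intro n hn
      simp only [hS2, mem_filter, mem_Ico] at hn
      have hle : P (n - W) ≤ P (n + W) := hm (by omega)
      have h2 : (P n : ℝ) < ((P (n + W) : ℝ) - P (n - W))^2 := by
        have := hn.2.2
        have h3 : ((P (n+W) - P (n-W) : ℕ) : ℝ) = (P (n + W) : ℝ) - P (n - W) := Nat.cast_sub hle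
        rw [← h3]
        exact_mod_cast this
      have h4 : (0:ℝ) ≤ (P (n + W) : ℝ) - P (n - W) := sub_nonneg.2 (by exact_mod_cast hle)
      rw [hT]
      apply Real.sqrt_le_iff.2 ⟨h4, ?_⟩
      have h5 : (n:ℝ) ≤ P n := by have := le_P n; exact_mod_cast (by omega : n ≤ P n)
      have h6 : (K:ℝ) ≤ n := by exact_mod_cast hn.2.1
      linarith
    refine h1.trans (sum_le_sum_of_subset_of_nonneg (filter_subset _ _) ?_)
    intro n _ _
    have hle : P (n - W) ≤ P (n + W) := hm (by omega)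
    exact sub_nonneg.2 (by exact_mod_cast hle)
  have hsum2 : ∑ n ∈ Ico W N, ((P (n + W) : ℝ) - P (n - W)) = ∑ m ∈ range (N - W), ((P (m + 2 * W) : ℝ) - P m) := by
    rw [sum_Ico_eq_sum_range]
    refine sum_congr rfl fun m _ => ?_
    rw [show W + m + W = m + 2 * W by ring, show W + m - W = m by omega]
  have hsum3 := gap_sum (N - W) (2 * W)
  have hPNW : (P (N - W + 2 * W) : ℝ) ≤ C₀ * (2 * N * (2 * Real.log N)) := by
    rw [show N - W + 2 * W = N + W by omega]
    refine (hC₀ (N + W) (by omega)).trans ?_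
    have h1 : ((N + W : ℕ) : ℝ) ≤ 2 * N := by push_cast; linarith
    have h1' : (0:ℝ) < ((N + W : ℕ) : ℝ) := by push_cast; positivity
    have h2 : Real.log ((N + W : ℕ) : ℝ) ≤ 2 * Real.log N := by
      have : Real.log ((N + W : ℕ) : ℝ) ≤ Real.log ((N:ℝ)^2) := by
        apply Real.log_le_log h1'
        nlinarith
      rwa [Real.log_pow, Nat.cast_ofNat] at this
    have h3 : 0 ≤ Real.log ((N + W : ℕ) : ℝ) := Real.log_nonneg (by push_cast; nlinarith [Nat.cast_nonneg (α := ℝ) W])
    apply mul_le_mul_of_nonneg_left _ (by linarith)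
    exact mul_le_mul h1 h2 h3 (by positivity)
  have hfin : (#S2 : ℝ) * T ≤ (8 * (W + 1) * C₀) * (N * Real.log N) := by
    refine hsum.trans ?_
    rw [hsum2]
    refine hsum3.trans ?_
    push_cast
    have hW0 : (0:ℝ) ≤ W := Nat.cast_nonneg W
    calc (2 * (W:ℝ)) * (P (N - W + 2 * W) : ℝ) ≤ 2 * W * (C₀ * (2 * N * (2 * Real.log N))) :=
          mul_le_mul_of_nonneg_left hPNW (by positivity)
      _ = (8 * W * C₀) * (N * Real.log N) := by ring
      _ ≤ _ := by
        apply mul_le_mul_of_nonneg_right _ (by positivity)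
        nlinarith
  have hTeq : T = Real.sqrt (δ/3) * Real.sqrt N := by
    rw [hT, show δ * N / 3 = (δ/3) * N by ring, Real.sqrt_mul (by positivity)]
  have hS2le : (#S2 : ℝ) ≤ δ * N / 3 := by
    have h7 : (8 * (W + 1) * C₀) * (N * Real.log N) ≤ (δ * N / 3) * T := by
      have hsq : 0 < Real.sqrt (N:ℝ) := Real.sqrt_pos.2 hNpos
      have h8 : (8 * (W + 1) * C₀) * Real.log N ≤ (δ/3) * Real.sqrt (δ/3) * Real.sqrt N := by
        have := mul_le_mul_of_nonneg_left hlog (by positivity : (0:ℝ) ≤ 8 * (W + 1) * C₀)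
        refine this.trans (le_of_eq ?_)
        rw [hc]
        field_simp
      rw [hTeq]
      have := mul_le_mul_of_nonneg_left h8 hNpos.le
      nlinarith
    exact le_of_mul_le_mul_right (hfin.trans h7) hTpos
  linarith

end Pool.Agent.H646.GapM
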