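import Mathlib
import Pool.Agent.H646.Defs
import Pool.Agent.H646.Cheb
import Pool.Agent.H646.Dens
import Pool.Agent.H646.Gap

namespace Pool.Agent.H646.FinalM
open Finset
open Pool.Agent.H646.ChebM (P_le P_strictMono le_P gap_sum)
open Pool.Agent.H646.DensM (core_concave core_convex)
open Pool.Agent.H646.GapM (good_concave gap_rare)



-- the following theorems are proved elsewhere: leave their sorry









theorem tendsto_of_small (c : ℕ → ℝ) (hc : ∀ N, 0 ≤ c N)
    (h : ∀ δ : ℝ, 0 < δ → δ ≤ 1 → ∃ N₀ : ℕ, ∀ N, N₀ ≤ N → c N ≤ 3 * δ * N) :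
    Filter.Tendsto (fun N : ℕ => c N / (N : ℝ)) Filter.atTop (nhds 0) := by
  rw [Metric.tendsto_atTop]
  intro ε hε
  obtain ⟨N₀, hN₀⟩ := h (min 1 (ε / 4)) (by positivity) (min_le_left _ _)
  refine ⟨max N₀ 1, fun N hN => ?_⟩
  have h1 : N₀ ≤ N := le_of_max_le_left hN
  have h2 : 1 ≤ N := le_of_max_le_right hN
  have h3 : (0 : ℝ) < N := by exact_mod_cast h2
  have h4 := hN₀ N h1
  have h5 : min 1 (ε / 4) ≤ ε / 4 := min_le_right _ _
  rw [Real.dist_eq, sub_zero, abs_of_nonneg (div_nonneg (hc N) h3.le), div_lt_iff₀ h3]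
  nlinarith

/-- target 1 -/
theorem good_tendsto :
    Filter.Tendsto
      (fun N : ℕ =>
        ((((Finset.Icc 1 N).filter (fun n : ℕ =>
            ∀ i ∈ Finset.Icc 1 (n - 1),
              Nat.nth Nat.Prime (n - 1 - i) * Nat.nth Nat.Prime (n - 1 + i)
                < Nat.nth Nat.Prime (n - 1) ^ 2)).card : ℝ) / (N : ℝ)))
      Filter.atTop (nhds 0) := by
  classical
  refine tendsto_of_small _ (fun N => Nat.cast_nonneg _) (fun δ hδ hδ1 => ?_)
  obtain ⟨W, N₁, h1⟩ := core_concave δ hδ hδ1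
  obtain ⟨N₂, h2⟩ := gap_rare W δ hδ
  refine ⟨max (max N₁ N₂) ⌈(W : ℝ) / δ⌉₊, fun N hN => ?_⟩
  have hN1 : N₁ ≤ N := (le_max_left _ _).trans ((le_max_left _ _).trans hN)
  have hN2 : N₂ ≤ N := (le_max_right _ _).trans ((le_max_left _ _).trans hN)
  have hN3 : (W : ℝ) / δ ≤ N := (Nat.le_ceil _).trans (by exact_mod_cast (le_max_right _ _).trans hN)
  have hW : (W : ℝ) ≤ δ * N := by
    rw [div_le_iff₀ hδ] at hN3
    linarith
  set A : Finset ℕ := (range N).filter
    (fun m => W ≤ m ∧ ∀ i : ℕ, i ≤ W → P (m + i) + P (m - i) ≤ 2 * P m) with hA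
  have hA1 := h1 N hN1 A (filter_subset _ _) (fun n hn => (mem_filter.1 hn).2)
  have hG1 := h2 N hN2
  set G : Finset ℕ := {n ∈ range N | W ≤ n ∧ P n < (P (n + W) - P (n - W)) ^ 2} with hG
  have hsub : ((Finset.Icc 1 N).filter (fun n : ℕ =>
            ∀ i ∈ Finset.Icc 1 (n - 1),
              Nat.nth Nat.Prime (n - 1 - i) * Nat.nth Nat.Prime (n - 1 + i)
                < Nat.nth Nat.Prime (n - 1) ^ 2)) ⊆ (range W ∪ (G ∪ A)).image (fun m => m + 1) := by
    intro n hn
    rw [mem_filter, mem_Icc] at hn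
    obtain ⟨⟨hn1, hnN⟩, hcond⟩ := hn
    rw [mem_image]
    refine ⟨n - 1, ?_, by omega⟩
    rw [mem_union, mem_union]
    by_cases hmW : n - 1 < W
    · exact Or.inl (mem_range.2 hmW)
    · right
      have hWm : W ≤ n - 1 := not_lt.1 hmW
      by_cases hg : P (n - 1) < (P (n - 1 + W) - P (n - 1 - W)) ^ 2
      · left
        rw [hG, mem_filter]
        exact ⟨mem_range.2 (by omega), hWm, hg⟩
      · right
        rw [hA, mem_filter]
        refine ⟨mem_range.2 (by omega), hWm, ?_⟩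
        refine good_concave W (n - 1) hWm (fun i hi1 hiW => ?_) (not_lt.1 hg)
        exact hcond i (mem_Icc.2 ⟨hi1, hiW.trans hWm⟩)
  have hcard := (card_le_card hsub).trans card_image_le
  have hcard2 : #(range W ∪ (G ∪ A)) ≤ W + (#G + #A) := by
    refine (card_union_le _ _).trans ?_
    rw [card_range]
    have := card_union_le G A
    omega
  have hcard3 := hcard.trans hcard2
  have hcard4 : ((((Finset.Icc 1 N).filter (fun n : ℕ =>
            ∀ i ∈ Finset.Icc 1 (n - 1),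
              Nat.nth Nat.Prime (n - 1 - i) * Nat.nth Nat.Prime (n - 1 + i)
                < Nat.nth Nat.Prime (n - 1) ^ 2)).card : ℕ) : ℝ) ≤ W + (#G + #A) := by
    exact_mod_cast hcard3
  linarith

/-- target 2 -/
theorem convex_tendsto :
    Filter.Tendsto
      (fun N : ℕ =>
        ((Set.ncard {n : ℕ | 1 ≤ n ∧ n ≤ N ∧
            ∀ i : ℕ, 1 ≤ i → i ≤ n - 1 →
              2 * Nat.nth Nat.Prime (n - 1) <
                Nat.nth Nat.Prime (n - 1 - i) + Nat.nth Nat.Prime (n - 1 + i)} : ℕ) : ℝ)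
          / (N : ℝ))
      Filter.atTop (nhds (0 : ℝ)) := by
  classical
  refine tendsto_of_small _ (fun N => Nat.cast_nonneg _) (fun δ hδ hδ1 => ?_)
  obtain ⟨W, N₁, h1⟩ := core_convex δ hδ hδ1
  refine ⟨max N₁ ⌈(W : ℝ) / δ⌉₊, fun N hN => ?_⟩
  have hN1 : N₁ ≤ N := (le_max_left _ _).trans hN
  have hN3 : (W : ℝ) / δ ≤ N := (Nat.le_ceil _).trans (by exact_mod_cast (le_max_right _ _).trans hN)
  have hW : (W : ℝ) ≤ δ * N := by
    rw [div_le_iff₀ hδ] at hN3
    linarith
  set A : Finset ℕ := (range N).filter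
    (fun m => W ≤ m ∧ ∀ i : ℕ, i ≤ W → 2 * P m ≤ P (m + i) + P (m - i)) with hA
  have hA1 := h1 N hN1 A (filter_subset _ _) (fun n hn => (mem_filter.1 hn).2)
  have hsub : {n : ℕ | 1 ≤ n ∧ n ≤ N ∧
            ∀ i : ℕ, 1 ≤ i → i ≤ n - 1 →
              2 * Nat.nth Nat.Prime (n - 1) <
                Nat.nth Nat.Prime (n - 1 - i) + Nat.nth Nat.Prime (n - 1 + i)} ⊆
      (((range W ∪ A).image (fun m => m + 1) : Finset ℕ) : Set ℕ) := by
    intro n hn
    obtain ⟨hn1, hnN, hcond⟩ := hn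
    rw [mem_coe, mem_image]
    refine ⟨n - 1, ?_, by omega⟩
    rw [mem_union]
    by_cases hmW : n - 1 < W
    · exact Or.inl (mem_range.2 hmW)
    · right
      have hWm : W ≤ n - 1 := not_lt.1 hmW
      rw [hA, mem_filter]
      refine ⟨mem_range.2 (by omega), hWm, fun i hi => ?_⟩
      rcases Nat.eq_zero_or_pos i with rfl | hi0
      · simp only [add_zero, Nat.sub_zero]
        omega
      · have h3 := hcond i hi0 (hi.trans hWm)
        change 2 * Nat.nth Nat.Prime (n - 1) ≤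
          Nat.nth Nat.Prime (n - 1 + i) + Nat.nth Nat.Prime (n - 1 - i)
        omega
  have hcard := Set.ncard_le_ncard hsub (Finset.finite_toSet _)
  rw [Set.ncard_coe_finset] at hcard
  have hcard2 : #(range W ∪ A) ≤ W + #A := by
    refine (card_union_le _ _).trans ?_
    rw [card_range]
  have hcard3 := hcard.trans (card_image_le.trans hcard2)
  have hcard4 : ((Set.ncard {n : ℕ | 1 ≤ n ∧ n ≤ N ∧
            ∀ i : ℕ, 1 ≤ i → i ≤ n - 1 →
              2 * Nat.nth Nat.Prime (n - 1) <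
                Nat.nth Nat.Prime (n - 1 - i) + Nat.nth Nat.Prime (n - 1 + i)} : ℕ) : ℝ) ≤
      W + #A := by
    exact_mod_cast hcard3
  have hδN : 0 ≤ δ * N := by positivity
  linarith

end Pool.Agent.H646.FinalM
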